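import Pool.Agent.SplDq.Dead

set_option autoImplicit false

/-!
# The axioms of `Pop` for requests from both ends
-/

namespace Pool.Agent.SplDq

open Pool.Agent.SplLog Pool.Agent.SplLs
open scoped Classical

variable {S : Sys} {M : ℕ}

private theorem vs_x (hD : Deq S M) {t v : ℕ} (h : Vs S M t v) : xl S M t = S.X t :=
  xl_left hD h.1.1 (by have := h.1.2.2.1; have := h.2; omega)

/-- A buried key stays untouched. -/
private theorem buried (hD : Deq S M) {v a b : ℕ} (hv : v ∈ S.K) (hvM : v < M) (hab : a ≤ b)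
    (hb : b ≤ S.m) (hr : S.rho a v ≤ M) (h : ∀ u, a ≤ u → u < b → xl S M u ≤ S.lam a v) :
    S.NE v a b := by
  induction b, hab using Nat.le_induction with
  | base =>
    intro u hu1 hu2
    omega
  | succ b hab ih =>
    have h1 := ih (by omega) (fun u h1 h2 => h u h1 (by omega))
    have h2 := Sys.NE_const hv hab (by omega) h1
    intro u hu1 hu2 hE
    rcases Nat.lt_or_ge u b with h3 | h3
    · exact h1 u hu1 h3 hE
    · have h4 : u = b := by omega
      subst h4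
      have h5 := h u hu1 (by omega)
      have h7 := S.lam_lt a (by omega) v hv
      rcases live hD hE hvM (by omega) with h8 | h8
      · have h9 := h8.1.2.2.2
        have h11 := vs_x hD h8
        omega
      · have h9 := h8.1.2.2.2
        have h10 := h8.2.2.1
        omega

/-- **X1.** -/
theorem ax_dom (hD : Deq S M) (t v : ℕ) (h : Vs S M t v) : t < S.m ∧ xl S M t < v ∧ v ≤ S.top := by
  have h1 := vs_x hD h
  refine ⟨h.1.1, ?_, (S.key v h.1.2.1).2.le⟩
  rw [h1]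
  exact h.1.2.2.1

/-- **X2.** -/
theorem ax_Bdom (t v : ℕ) (h : Bs S M t v) : t < S.m ∧ v ≤ S.top :=
  ⟨h.1.1, (S.key v h.1.2.1).2.le⟩

/-- **X3.** -/
theorem ax_BV (t v w : ℕ) (h : Bs S M t v) : ¬ Vs S M t w := by
  intro h1
  have h2 := h.2.2.1
  have h3 := h1.2
  have h4 := h1.1.2.2.1
  omega

/-- **X4.** -/
theorem ax_KV (t p g : ℕ) (h : Ks S M t p g) :
    Vs S M t p ∧ Vs S M t g ∧ p < g ∧ ∀ v, Vs S M t v → p < v → g ≤ v := by
  have h1 := kl_lt h.1
  have h2 := h.2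
  refine ⟨⟨kl_R' h.1, by omega⟩, ⟨kl_R h.1, h2⟩, h1, ?_⟩
  intro v hv hpv
  have h3 := (Sys.R_above (kl_R' h.1) hv.1 hpv).1
  rw [kl_rho h.1] at h3
  exact h3

/-- **X5.** After time `t`: `rho (t+1) p = rho t g < M`, so all `z ∈ (p, g]` have `lam ≥ p`,
`rho < M` (`S.lamin` at `t + 1`); such keys stay untouched as long as `xl ≤ p`. -/
theorem ax_bur (hD : Deq S M) (t p g : ℕ) (h : Ks S M t p g) (hw : ∃ w, Vs S M t w ∧ g < w)
    (s z : ℕ) (hts : t < s) (hx : xl S M s ≤ p) (hpz : p < z) (hzg : z ≤ g) : ¬ Vs S M s z := by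
  intro hz
  obtain ⟨w, hw, hgw⟩ := hw
  obtain ⟨f1, f2, f3, f4, f5, f6⟩ := Sys.kl_facts h.1
  have h1 := (Sys.R_above (kl_R h.1) hw.1 hgw).1
  have h2 := hw.2
  have hsm : s < S.m := hz.1.1
  have hzK : z ∈ S.K := hz.1.2.1
  have h3 := R_rho (kl_R h.1)
  have h4 : p ≤ S.lam (t + 1) z ∧ S.rho (t + 1) z < M := by
    have h5 := S.lam_lt (t + 1) (by omega) z hzK
    rcases S.lamin (t + 1) (by omega) p (kl_R' h.1).2.1 z hzK hpz with h | h | h
    · omega
    · omega
    · omega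
  have h5 : S.NE z (t + 1) s := by
    apply buried (a := t + 1) hD hzK hz.2 hts hsm.le h4.2.le
    intro u _ hu
    have := xl_mono (S := S) (M := M) hu.le
    omega
  have h6 := Sys.NE_const hzK hts hsm.le h5
  have h7 := vs_x hD hz
  have h8 := hz.1.2.2.2
  have h9 : S.lam s z = S.lam (t + 1) z := h6.1
  omega

/-- **X6a.** If `g` is touched at time `b` and `g' > g` is visible later, while `xl ≤ g`, then at
time `b`: `g ≤ lam g'` and `M ≤ rho g'`. -/
theorem stored (hD : Deq S M) (b g g' t : ℕ) (hB : Bs S M b g) (hgg : g < g') (hV : Vs S M t g')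
    (hbt : b < t) (hx : xl S M t ≤ g) : g ≤ S.lam b g' ∧ M ≤ S.rho b g' := by
  have hbm : b < S.m := hB.1.1
  have htm : t < S.m := hV.1.1
  have hg'K : g' ∈ S.K := hV.1.2.1
  have hg'M : g' < M := hV.2
  have hXM := hB.2.2.1
  have hρ := hB.1.2.2.2
  have h0 := S.lam_lt b hbm.le g' hg'K
  have h1 : g ≤ S.lam b g' := by
    rcases S.lamin b hbm.le g hB.1.2.1 g' hg'K hgg with h | h | h
    · exact h.2.1
    · omega
    · omega
  refine ⟨h1, ?_⟩
  by_contra h2
  have h5 : S.NE g' b t := by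
    apply buried hD hg'K hg'M hbt.le htm.le (by omega)
    intro u _ hu
    have := xl_mono (S := S) (M := M) hu.le
    omega
  have h6 := Sys.NE_const hg'K hbt.le htm.le h5
  have h7 := vs_x hD hV
  have h8 := hV.1.2.2.2
  omega

/-- **X6.** -/
theorem ax_hid (hD : Deq S M) (b g g' t : ℕ) (hB : Bs S M b g) (hgg : g < g') (hV : Vs S M t g')
    (hbt : b < t) (hx : xl S M t ≤ g) (s : ℕ) (hbs : b ≤ s) (hst : s ≤ t)
    (hN : ∀ u, b ≤ u → u ≤ s → ¬ Bs S M u g') (v : ℕ) (hv : Vs S M s v) : v < g' := by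
  obtain ⟨h1, h2⟩ := stored hD b g g' t hB hgg hV hbt hx
  have hsm : s < S.m := hv.1.1
  have hg'K : g' ∈ S.K := hV.1.2.1
  have hg'M : g' < M := hV.2
  have h3 : S.NE g' b s := by
    apply hidden hD hg'K hg'M hbs hsm.le
    intro u hu1 hu2
    have h4 : xl S M u ≤ xl S M t := xl_mono (S := S) (M := M) (by omega)
    exact ⟨by omega, hN u hu1 hu2.le⟩
  have h4 := Sys.NE_const hg'K hbs hsm.le h3
  have h5 : xl S M s ≤ xl S M t := xl_mono (S := S) (M := M) hst
  have h6 := vs_x hD hv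
  have h7 := hv.1.2.2.2
  have h8 := hv.2
  have h9 := S.lam_lt s hsm.le v hv.1.2.1
  by_contra hc
  rcases Nat.eq_or_lt_of_le (not_lt.1 hc) with h10 | h10
  · rw [← h10] at h7
    omega
  · rcases S.lamin s hsm.le g' hg'K v hv.1.2.1 h10 with h | h | h
    · omega
    · omega
    · omega

/-- **X7.** -/
theorem ax_nest (hD : Deq S M) (b g t1 p1 g1 g' t : ℕ) (hB : Bs S M b g) (hK : Ks S M t1 p1 g1)
    (h1 : t1 < b) (hx1 : xl S M b ≤ p1) (hN : ∀ u, t1 < u → u ≤ b → ¬ Bs S M u g1)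
    (hgg : g < g') (hg1 : g' < g1) (hV : Vs S M t g') (hbt : b < t) (hx : xl S M t ≤ g) :
    g' ≤ p1 := by
  obtain ⟨h2, h3⟩ := stored hD b g g' t hB hgg hV hbt hx
  have hbm : b < S.m := hB.1.1
  have hg1K : g1 ∈ S.K := hK.1.1.2.1
  have hg1M : g1 < M := hK.2
  have hl : S.lam (t1 + 1) g1 = p1 := hK.1.2.2
  have h4 : S.NE g1 (t1 + 1) b := by
    apply hidden (a := t1 + 1) hD hg1K hg1M h1 hbm.le
    intro u hu1 hu2
    have h4 : xl S M u ≤ xl S M b := xl_mono (S := S) (M := M) hu2.le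
    exact ⟨by omega, hN u hu1 hu2.le⟩
  have h5 : S.lam b g1 = S.lam (t1 + 1) g1 := (Sys.NE_const hg1K h1 hbm.le h4).1
  have h6 := S.lam_lt b hbm.le g1 hg1K
  rcases S.lamin b hbm.le g' hV.1.2.1 g1 hg1K hg1 with h | h | h
  · omega
  · omega
  · omega

/-- **X8.** -/
theorem ax_prev (hD : Deq S M) (t1 p g t2 : ℕ) (hK : Ks S M t1 p g) (h : t1 < t2)
    (hV : Vs S M t2 g) (hN : ∀ u, t1 < u → u < t2 → ¬ Bs S M u g) : p < xl S M t2 := by
  by_contra hc
  have hl : S.lam (t1 + 1) g = p := hK.1.2.2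
  have htm : t2 < S.m := hV.1.1
  have hgK : g ∈ S.K := hV.1.2.1
  have h4 : S.NE g (t1 + 1) t2 := by
    apply hidden (a := t1 + 1) hD hgK hV.2 h htm.le
    intro u hu1 hu2
    have h4 : xl S M u ≤ xl S M t2 := xl_mono (S := S) (M := M) hu2.le
    exact ⟨by omega, hN u hu1 hu2⟩
  have h5 : S.lam t2 g = S.lam (t1 + 1) g := (Sys.NE_const hgK h htm.le h4).1
  have h6 := vs_x hD hV
  have h7 := hV.1.2.2.2
  omega

/-- **X9.** -/
theorem ax_vis (hD : Deq S M) (t0 p0 v t : ℕ) (h0 : Vs S M t0 p0) (hpv : p0 < v) (htt : t0 < t)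
    (hV : Vs S M t v) (hx : xl S M t ≤ p0) (hN : ∀ u, t0 < u → u < t → ¬ Bs S M u v) :
    Vs S M t0 v := by
  by_contra hc
  have htm : t < S.m := hV.1.1
  have hvK : v ∈ S.K := hV.1.2.1
  have h0x := h0.1.2.2.1
  have h0l := h0.1.2.2.2
  have h1 : S.X t0 ≤ S.lam t0 v := by
    by_contra h2
    exact hc ⟨⟨by omega, hvK, by omega, by omega⟩, hV.2⟩
  have h2 : p0 ≤ S.lam t0 v := by
    rcases S.lamin t0 (by omega) p0 h0.1.2.1 v hvK hpv with h | h | h
    · omega
    · omega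
    · have := R_rho h0.1
      omega
  have h4 : S.NE v t0 t := by
    apply hidden hD hvK hV.2 htt.le htm.le
    intro u hu1 hu2
    have h4 : xl S M u ≤ xl S M t := xl_mono (S := S) (M := M) hu2.le
    refine ⟨by omega, ?_⟩
    rcases Nat.eq_or_lt_of_le hu1 with h5 | h5
    · rw [← h5]
      intro h6
      exact ax_BV _ _ _ h6 h0
    · exact hN u h5 hu2
  have h5 := (Sys.NE_const hvK htt.le htm.le h4).1
  have h6 := vs_x hD hV
  have h7 := hV.1.2.2.2
  omega

end Pool.Agent.SplDq
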