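import Pool.Agent.SplDq.Pop

/-! # Base: uniqueness of kills, leader lemma, run lemma -/

set_option autoImplicit false

namespace Pool.Agent.SplDq

namespace Pop

variable (P : Pop)

open scoped Classical in
/-- the visible keys of `[g, w]` shrink by a constant factor -/
def Reg (t g : ℕ) : Prop := ∀ w, g ≤ w →
  4 * ((Finset.Icc g w).filter (fun v => P.V t v ∧ ¬ ∃ p, P.K t p v)).card ≤
    3 * ((Finset.Icc g w).filter (fun v => P.V t v)).card + 4

/-- A0: the killer is unique. -/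
theorem K_unique {t p p' g : ℕ} (h : P.K t p g) (h' : P.K t p' g) : p = p' := by
  obtain ⟨h1, h2, h3, h4⟩ := P.K_V _ _ _ h
  obtain ⟨h1', h2', h3', h4'⟩ := P.K_V _ _ _ h'
  rcases lt_trichotomy p p' with h5 | h5 | h5
  · have h6 := h4 p' h1' h5
    omega
  · exact h5
  · have h6 := h4' p h1 h5
    omega

/-- A0: at most one kill `(p, g)` with `p < mu ≤ g`. -/
theorem K_mu {t p g p' g' mu : ℕ} (h : P.K t p g) (h' : P.K t p' g') (h1 : p < mu) (h2 : mu ≤ g)
    (h1' : p' < mu) (h2' : mu ≤ g') : p = p' ∧ g = g' := by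
  obtain ⟨h3, h4, h5, h6⟩ := P.K_V _ _ _ h
  obtain ⟨h3', h4', h5', h6'⟩ := P.K_V _ _ _ h'
  rcases lt_trichotomy p p' with h7 | h7 | h7
  · have h8 := h6 p' h3' h7
    omega
  · refine ⟨h7, ?_⟩
    have h8 := h6 g' h4' (by omega)
    have h9 := h6' g h4 (by omega)
    omega
  · have h8 := h6' p h3 h7
    omega

/-- A0: the kills at one time are ordered. -/
theorem K_lt {t p g p' g' : ℕ} (h : P.K t p g) (h' : P.K t p' g') (hp : p < p') : g ≤ p' := by
  exact (P.K_V _ _ _ h).2.2.2 p' (P.K_V _ _ _ h').1 hp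

/-- A1: THE LEADER LEMMA (pure). -/
theorem leaders (B : ℕ → ℕ → Prop) (g : ℕ → ℕ) (r : ℕ) : ∀ (N : ℕ) (Q : Finset ℕ), Q.card ≤ N →
    (∀ A, A ⊆ Q → ∀ s0 ∈ A, (∀ t ∈ A, s0 ≤ t) →
      (∀ t ∈ A, ∀ b, s0 < b → b < t → ¬ B b (g t)) → A.card ≤ r) →
    ∃ D, D ⊆ Q ∧ Q.card ≤ r * D.card ∧
      ∀ s ∈ D, ∀ t ∈ D, s < t → ∃ b, s < b ∧ b < t ∧ B b (g t) := by
  classical
  intro N
  induction N with
  | zero =>
    intro Q hQ _
    refine ⟨∅, Finset.empty_subset _, ?_, ?_⟩
    · omega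
    · intro s hs
      exact absurd hs (Finset.notMem_empty _)
  | succ N ih =>
    intro Q hQ h
    rcases Q.eq_empty_or_nonempty with h0 | hne
    · refine ⟨∅, Finset.empty_subset _, ?_, ?_⟩
      · rw [h0]
        simp
      · intro s hs
        exact absurd hs (Finset.notMem_empty _)
    obtain ⟨s0, hs0, hmin⟩ : ∃ s0 ∈ Q, ∀ t ∈ Q, s0 ≤ t := Finset.exists_min_image Q id hne
    obtain ⟨A, hA⟩ : ∃ A, A = Q.filter (fun t => ∀ b, s0 < b → b < t → ¬ B b (g t)) := ⟨_, rfl⟩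
    have hAQ : A ⊆ Q := by
      rw [hA]
      exact Finset.filter_subset _ _
    have hs0A : s0 ∈ A := by
      rw [hA, Finset.mem_filter]
      exact ⟨hs0, fun b h1 h2 => absurd h1 (not_lt.2 h2.le)⟩
    have hAr : A.card ≤ r := h A hAQ s0 hs0A (fun t ht => hmin t (hAQ ht)) (fun t ht => by
      rw [hA, Finset.mem_filter] at ht
      exact ht.2)
    have hc : (Q \ A).card + A.card = Q.card := Finset.card_sdiff_add_card_eq_card hAQ
    have hA1 : 1 ≤ A.card := Finset.card_pos.2 ⟨s0, hs0A⟩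
    obtain ⟨D, hD1, hD2, hD3⟩ := ih (Q \ A) (by omega) (fun A' hA' => h A' (fun t ht =>
      (Finset.mem_sdiff.1 (hA' ht)).1))
    have hsD : s0 ∉ D := fun h1 => (Finset.mem_sdiff.1 (hD1 h1)).2 hs0A
    refine ⟨insert s0 D, ?_, ?_, ?_⟩
    · intro t ht
      rcases Finset.mem_insert.1 ht with h1 | h1
      · rw [h1]
        exact hs0
      · exact (Finset.mem_sdiff.1 (hD1 h1)).1
    · rw [Finset.card_insert_of_notMem hsD, mul_add, mul_one]
      omega
    · intro s hs t ht hst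
      rcases Finset.mem_insert.1 ht with h1 | h1
      · rcases Finset.mem_insert.1 hs with h2 | h2
        · omega
        · have h3 := hmin s (Finset.mem_sdiff.1 (hD1 h2)).1
          omega
      · rcases Finset.mem_insert.1 hs with h2 | h2
        · have h3 := Finset.mem_sdiff.1 (hD1 h1)
          by_contra hcon
          push Not at hcon
          apply h3.2
          rw [hA, Finset.mem_filter]
          exact ⟨h3.1, fun b h4 h5 => hcon b (by omega) h5⟩
        · exact hD3 s h2 t h1 hst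

private theorem A2_step (A : Finset ℕ) (ζ : ℕ → ℕ) (z : ℕ)
    (h : ∀ s ∈ A, ∀ t ∈ A, s < t → ζ t + 1 ≤ ζ s ∧ 4 * ζ t ≤ 3 * ζ s + 4)
    (hz : ∀ t ∈ A, ζ t ≤ z) :
    ∃ A', A' ⊆ A ∧ A.card ≤ A'.card + 1 ∧ ∀ t ∈ A', 4 * ζ t ≤ 3 * z + 4 := by
  classical
  rcases A.eq_empty_or_nonempty with h0 | hne
  · refine ⟨∅, Finset.empty_subset _, ?_, ?_⟩
    · rw [h0]
      simp
    · intro t ht
      exact absurd ht (Finset.notMem_empty _)
  obtain ⟨s0, hs0, hmin⟩ : ∃ s0 ∈ A, ∀ t ∈ A, s0 ≤ t := Finset.exists_min_image A id hne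
  refine ⟨A.erase s0, Finset.erase_subset _ _, ?_, ?_⟩
  · rw [Finset.card_erase_add_one hs0]
  · intro t ht
    have h1 := Finset.mem_of_mem_erase ht
    have h2 := Finset.ne_of_mem_erase ht
    have h3 := hmin t h1
    have h4 := h s0 hs0 t h1 (lt_of_le_of_ne h3 (Ne.symm h2))
    have h5 := hz s0 hs0
    omega

private theorem A2_card (A : Finset ℕ) (ζ : ℕ → ℕ) (z : ℕ)
    (h : ∀ s ∈ A, ∀ t ∈ A, s < t → ζ t + 1 ≤ ζ s ∧ 4 * ζ t ≤ 3 * ζ s + 4)
    (hz : ∀ t ∈ A, 1 ≤ ζ t ∧ ζ t ≤ z) : A.card ≤ z := by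
  have h1 : A.card ≤ (Finset.Icc 1 z).card := by
    apply Finset.card_le_card_of_injOn ζ
    · intro t ht
      exact Finset.mem_coe.2 (Finset.mem_Icc.2 (hz t ht))
    · intro s hs t ht hst
      rcases lt_trichotomy s t with h2 | h2 | h2
      · have h3 := (h s hs t ht h2).1
        omega
      · exact h2
      · have h3 := (h t ht s hs h2).1
        omega
  rw [Nat.card_Icc] at h1
  omega

/-- the numerical part of A2 -/
private theorem A2_num : ∀ (z : ℕ) (A : Finset ℕ) (ζ : ℕ → ℕ),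
    (∀ s ∈ A, ∀ t ∈ A, s < t → ζ t + 1 ≤ ζ s ∧ 4 * ζ t ≤ 3 * ζ s + 4) →
    (∀ t ∈ A, 1 ≤ ζ t ∧ ζ t ≤ z) → A.card ≤ 3 * Nat.log 2 z + 4 := by
  intro z
  induction z using Nat.strong_induction_on with
  | _ z ih =>
    intro A ζ h hz
    rcases lt_or_ge z 16 with hz16 | hz16
    · rcases lt_or_ge z 14 with hz14 | hz14
      · have h1 := A2_card A ζ z h hz
        rcases lt_or_ge z 8 with h8 | h8
        · rcases lt_or_ge z 4 with h4 | h4
          · omega
          · have h2 : 2 ≤ Nat.log 2 z := Nat.le_log_of_pow_le (by norm_num) (by norm_num; omega)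
            omega
        · have h2 : 3 ≤ Nat.log 2 z := Nat.le_log_of_pow_le (by norm_num) (by norm_num; omega)
          omega
      · obtain ⟨A', h1, h2, h3⟩ := A2_step A ζ z h (fun t ht => (hz t ht).2)
        have h4 := A2_card A' ζ 12 (fun s hs t ht => h s (h1 hs) t (h1 ht)) (fun t ht =>
          ⟨(hz t (h1 ht)).1, by have := h3 t ht; omega⟩)
        have h5 : 3 ≤ Nat.log 2 z := Nat.le_log_of_pow_le (by norm_num) (by norm_num; omega)
        omega
    · obtain ⟨A1, h1, h2, h3⟩ := A2_step A ζ z h (fun t ht => (hz t ht).2)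
      obtain ⟨A2, h4, h5, h6⟩ := A2_step A1 ζ ((3 * z + 4) / 4)
        (fun s hs t ht => h s (h1 hs) t (h1 ht)) (fun t ht => by
          have := h3 t ht
          omega)
      obtain ⟨A3, h7, h8, h9⟩ := A2_step A2 ζ ((3 * ((3 * z + 4) / 4) + 4) / 4)
        (fun s hs t ht => h s (h1 (h4 hs)) t (h1 (h4 ht))) (fun t ht => by
          have := h6 t ht
          omega)
      have hk : 4 ≤ Nat.log 2 z := Nat.le_log_of_pow_le (by norm_num) (by norm_num; omega)
      have hlt : z < 2 ^ (Nat.log 2 z + 1) := Nat.lt_pow_succ_log_self (by norm_num) z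
      have h16 : 16 ≤ 2 ^ Nat.log 2 z := by
        calc 16 = 2 ^ 4 := by norm_num
          _ ≤ 2 ^ Nat.log 2 z := Nat.pow_le_pow_right (by norm_num) hk
      rw [pow_succ] at hlt
      obtain ⟨z3, hz3⟩ : ∃ z3, z3 = (3 * ((3 * ((3 * z + 4) / 4) + 4) / 4) + 4) / 4 := ⟨_, rfl⟩
      have h10 : z3 < 2 ^ Nat.log 2 z := by omega
      have h11 : Nat.log 2 z3 < Nat.log 2 z := by
        rcases Nat.eq_zero_or_pos z3 with h0 | h0
        · rw [h0, Nat.log_zero_right]
          omega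
        · exact Nat.log_lt_of_lt_pow (by omega) h10
      have h12 := ih z3 (by omega) A3 ζ (fun s hs t ht => h s (h1 (h4 (h7 hs))) t (h1 (h4 (h7 ht))))
        (fun t ht => ⟨(hz t (h1 (h4 (h7 ht)))).1, by have := h9 t ht; omega⟩)
      omega

open scoped Classical in
/-- A3: RUNS. The victims increase; leaders `D`. -/
theorem runs (Q : Finset ℕ) (p g : ℕ → ℕ) (c mu z : ℕ) (hK : ∀ t ∈ Q, P.K t (p t) (g t))
    (hx : ∀ t ∈ Q, P.x t < c) (hp : ∀ t ∈ Q, c ≤ p t ∧ p t < mu ∧ mu ≤ g t)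
    (hr : ∀ t ∈ Q, ∃ w, P.V t w ∧ g t < w) (hreg : ∀ t ∈ Q, P.Reg t (g t))
    (hz : ∀ s ∈ Q, ∀ t ∈ Q, ((Finset.Icc (g s) (g t)).filter (fun v => P.V s v)).card ≤ z) :
    (∀ s ∈ Q, ∀ t ∈ Q, s < t → g s < g t) ∧
      ∃ D, D ⊆ Q ∧ Q.card ≤ (3 * Nat.log 2 z + 4) * D.card ∧
        ∀ s ∈ D, ∀ t ∈ D, s < t → ∃ b, s < b ∧ b < t ∧ P.B b (g t) := by
  classical
  have hg : ∀ s ∈ Q, ∀ t ∈ Q, s < t → g s < g t := by
    intro s hs t ht hst
    by_contra hcon
    have e1 := hp s hs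
    have e2 := hp t ht
    have e3 := hx t ht
    obtain ⟨-, e4, -, -⟩ := P.K_V _ _ _ (hK t ht)
    exact P.bur s (p s) (g s) (hK s hs) (hr s hs) t (g t) hst (by omega) (by omega) (by omega) e4
  refine ⟨hg, leaders P.B g _ Q.card Q le_rfl ?_⟩
  intro A hAQ s0 hs0 hmin hno
  obtain ⟨tr, htr, hmax⟩ : ∃ tr ∈ A, ∀ t ∈ A, t ≤ tr := Finset.exists_max_image A id ⟨s0, hs0⟩
  have hVr : P.V tr (g tr) := (P.K_V _ _ _ (hK tr (hAQ htr))).2.1
  have hgle : ∀ t ∈ A, g t ≤ g tr := by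
    intro t ht
    rcases (hmax t ht).lt_or_eq with h | h
    · exact (hg t (hAQ ht) tr (hAQ htr) h).le
    · rw [h]
  -- `w = g tr` is visible
  have hw : ∀ t ∈ A, P.V t (g tr) := by
    intro t ht
    rcases (hmax t ht).lt_or_eq with h | h
    · have e1 := hp t (hAQ ht)
      have e2 := hgle t ht
      have e3 := hx tr (hAQ htr)
      have e4 := hmin t ht
      exact P.vis t (p t) (g tr) tr (P.K_V _ _ _ (hK t (hAQ ht))).1 (by omega) h hVr (by omega)
        (fun u h1 h2 => hno tr htr u (by omega) h2)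
    · rw [h]
      exact hVr
  refine A2_num z A (fun t => ((Finset.Icc (g t) (g tr)).filter (fun v => P.V t v)).card) ?_ ?_
  · intro s hs t ht hst
    have hsub : (Finset.Icc (g t) (g tr)).filter (fun v => P.V t v) ⊆
        (Finset.Icc (g s) (g tr)).filter (fun v => P.V s v ∧ ¬ ∃ p, P.K s p v) := by
      intro v hv
      rw [Finset.mem_filter, Finset.mem_Icc] at hv ⊢
      obtain ⟨⟨hv1, hv2⟩, hv3⟩ := hv
      have e1 := hg s (hAQ hs) t (hAQ ht) hst
      have e2 := hp s (hAQ hs)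
      have e3 := hp t (hAQ ht)
      have e4 := hmin s hs
      have e5 := hmax t ht
      have e6 := hx tr (hAQ htr)
      have e7 := hx t (hAQ ht)
      have hnt : ∀ u, s < u → u < t → ¬ P.B u v := by
        intro b hb1 hb2 hb3
        rcases hv2.lt_or_eq with h | h
        · have h1 := P.hid b v (g tr) tr hb3 h hVr (by omega) (by omega) tr (by omega) le_rfl
            (fun u h1 h2 h3 => by
              rcases h2.lt_or_eq with h4 | h4
              · exact hno tr htr u (by omega) h4 h3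
              · exact P.B_V _ _ _ (h4 ▸ h3) hVr) (g tr) hVr
          omega
        · rw [h] at hb3
          exact hno tr htr b (by omega) (by omega) hb3
      refine ⟨⟨by omega, hv2⟩, ?_, ?_⟩
      · exact P.vis s (p s) v t (P.K_V _ _ _ (hK s (hAQ hs))).1 (by omega) hst hv3 (by omega) hnt
      · rintro ⟨p', hp'⟩
        have h1 := P.prev s p' v t hp' hst hv3 hnt
        obtain ⟨-, -, h2, h3⟩ := P.K_V _ _ _ hp'
        have h4 : g s ≤ p' := by
          by_contra hcon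
          have h5 := h3 (g s) (P.K_V _ _ _ (hK s (hAQ hs))).2.1 (by omega)
          omega
        omega
    have hlt : ((Finset.Icc (g s) (g tr)).filter (fun v => P.V s v ∧ ¬ ∃ p, P.K s p v)).card <
        ((Finset.Icc (g s) (g tr)).filter (fun v => P.V s v)).card := by
      apply Finset.card_lt_card
      rw [Finset.ssubset_iff_of_subset (fun v hv => by
        rw [Finset.mem_filter] at hv ⊢
        exact ⟨hv.1, hv.2.1⟩)]
      refine ⟨g s, ?_, ?_⟩
      · rw [Finset.mem_filter, Finset.mem_Icc]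
        exact ⟨⟨le_rfl, hgle s hs⟩, (P.K_V _ _ _ (hK s (hAQ hs))).2.1⟩
      · intro h1
        rw [Finset.mem_filter] at h1
        exact h1.2.2 ⟨p s, hK s (hAQ hs)⟩
    have h1 := Finset.card_le_card hsub
    have h2 := hreg s (hAQ hs) (g tr) (hgle s hs)
    exact ⟨by show _ + 1 ≤ _; omega, by show 4 * _ ≤ 3 * _ + 4; omega⟩
  · intro t ht
    refine ⟨?_, hz t (hAQ ht) tr (hAQ htr)⟩
    apply Finset.card_pos.2
    exact ⟨g tr, by
      rw [Finset.mem_filter, Finset.mem_Icc]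
      exact ⟨⟨hgle t ht, le_rfl⟩, hw t ht⟩⟩

end Pop

end Pool.Agent.SplDq
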