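import Pool.Agent.SplDq.Defs

set_option autoImplicit false

/-!
# The right side of a search path: kills and turns
-/

namespace Pool.Agent.SplDq

open Pool.Agent.SplLog Pool.Agent.SplLs
open scoped Classical

variable {S : Sys} {M s t u v w g p q y a b : ℕ}

/-- **C1.** Every turn belongs to a node of the left side of the path
(`v ↦ lam t y`, `y` the node below `v`; injective since `lam` decreases upwards). -/
theorem Tn_le (ht : t < S.m) : (Tn S t).card ≤ nL S t := by
  have hch : ∀ v ∈ Tn S t, ∃ y, S.R t y ∧ S.rho t y = v ∧ S.lam t v ≠ S.lam t y ∧ S.R t v := by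
    intro v hv
    simp only [Tn, Finset.mem_filter] at hv
    obtain ⟨_, h1, y, h2, h3, h4⟩ := hv
    exact ⟨y, h2, h3, h4, h1⟩
  choose! f hf using hch
  unfold nL
  refine Finset.card_le_card_of_injOn (fun v => S.lam t (f v)) ?_ ?_
  · intro v hv
    obtain ⟨h1, h2, h3, h4⟩ := hf v hv
    have h5 : f v < v := by
      have := R_rho h1
      omega
    have h6 := (Sys.R_above h1 h4 h5).2
    have h7 := R_lam h1
    have h8 := R_gt h1
    have h9 : S.lam t (f v) ∈ S.K := by
      rcases S.lam_mem t ht.le (f v) (R_mem h1) with h9 | h9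
      · omega
      · exact h9
    have h10 := S.lam_anc t ht.le (f v) (R_mem h1) h9
    simp only [Finset.mem_coe, Finset.mem_filter]
    exact ⟨h9, ht, h9, h7, by omega⟩
  · have key : ∀ v ∈ Tn S t, ∀ w ∈ Tn S t, v < w → S.lam t (f w) < S.lam t (f v) := by
      intro v hv w hw hvw
      obtain ⟨h1, h2, h3, h4⟩ := hf v hv
      obtain ⟨g1, g2, g3, g4⟩ := hf w hw
      have h5 : f v < v := by
        have := R_rho h1
        omega
      have h6 := (Sys.R_above h1 h4 h5).2
      have h7 : v ≤ f w := by
        by_contra h8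
        push Not at h8
        have := (Sys.R_above g1 h4 h8).1
        omega
      rcases lt_or_eq_of_le h7 with h8 | h8
      · have := (Sys.R_above h4 g1 h8).2
        omega
      · rw [← h8]
        omega
    intro v hv w hw hvw
    rcases lt_trichotomy v w with h | h | h
    · have := key v hv w hw h
      simp only at hvw
      omega
    · exact h
    · have := key w hw v hv h
      simp only at hvw
      omega

private theorem C2_two (T : Finset ℕ) :
    (T.filter (fun v => (T.filter (fun z => z < v)).card ≤ 1)).card ≤ 2 := by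
  have h : (T.filter (fun v => (T.filter (fun z => z < v)).card ≤ 1)).card ≤
      (Finset.range 2).card := by
    refine Finset.card_le_card_of_injOn (fun v => (T.filter (fun z => z < v)).card) ?_ ?_
    · intro v hv
      simp only [Finset.mem_coe, Finset.mem_filter] at hv
      simp only [Finset.mem_coe, Finset.mem_range]
      omega
    · have key : ∀ v ∈ T, ∀ w ∈ T, v < w →
          (T.filter (fun z => z < v)).card < (T.filter (fun z => z < w)).card := by
        intro v hv w hw hvw
        apply Finset.card_lt_card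
        rw [Finset.ssubset_iff_of_subset]
        · exact ⟨v, by simp [hv, hvw], by simp⟩
        · intro z hz
          simp only [Finset.mem_filter] at hz ⊢
          exact ⟨hz.1, by omega⟩
      intro v hv w hw hvw
      simp only [Finset.mem_coe, Finset.mem_filter] at hv hw
      rcases lt_trichotomy v w with h | h | h
      · have := key v hv.1 w hw.1 h
        simp only at hvw
        omega
      · exact h
      · have := key w hw.1 v hv.1 h
        simp only at hvw
        omega
  simpa using h

/-- **C2.** In an interval of keys: all touched nodes but two are killed, or counted with a killed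
node or a turn. -/
theorem chain (hT : Thr S) (t a b : ℕ) :
    (S.K.filter (fun v => S.R t v ∧ a ≤ v ∧ v < b)).card ≤
      2 * (S.K.filter (fun v => (S.R t v ∧ a ≤ v ∧ v < b) ∧ ∃ p, a ≤ p ∧ S.Kl t v p)).card +
      2 * ((Tn S t).filter (fun v => a ≤ v ∧ v < b)).card + 2 := by
  set T := S.K.filter (fun v => S.R t v ∧ a ≤ v ∧ v < b) with hTd
  set A := S.K.filter (fun v => (S.R t v ∧ a ≤ v ∧ v < b) ∧ ∃ p, a ≤ p ∧ S.Kl t v p) with hA
  set B := (Tn S t).filter (fun v => a ≤ v ∧ v < b) with hB
  have memT : ∀ v, v ∈ T ↔ S.R t v ∧ a ≤ v ∧ v < b := by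
    intro v
    simp only [hTd, Finset.mem_filter]
    exact ⟨fun h => h.2, fun h => ⟨R_mem h.1, h⟩⟩
  -- the elements with two smaller elements
  set U := (T \ (A ∪ B)).filter (fun v => ¬ (T.filter (fun z => z < v)).card ≤ 1) with hU
  have h1 : T.card ≤ (A ∪ B).card + ((T.filter (fun v => (T.filter (fun z => z < v)).card ≤ 1)).card
      + U.card) := by
    have h2 : T ⊆ (A ∪ B) ∪ (T.filter (fun v => (T.filter (fun z => z < v)).card ≤ 1) ∪ U) := by
      intro v hv
      by_cases h3 : v ∈ A ∪ B
      · exact Finset.mem_union_left _ h3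
      · apply Finset.mem_union_right
        by_cases h4 : (T.filter (fun z => z < v)).card ≤ 1
        · exact Finset.mem_union_left _ (Finset.mem_filter.2 ⟨hv, h4⟩)
        · exact Finset.mem_union_right _ (Finset.mem_filter.2 ⟨Finset.mem_sdiff.2 ⟨hv, h3⟩, h4⟩)
    calc T.card ≤ _ := Finset.card_le_card h2
      _ ≤ _ := (Finset.card_union_le _ _).trans
        (Nat.add_le_add_left (Finset.card_union_le _ _) _)
  have hU2 : ∀ v ∈ U, ∃ y, S.R t y ∧ S.rho t y = v ∧ y ∈ A ∪ B := by
    intro v hv
    simp only [hU, Finset.mem_filter, Finset.mem_sdiff] at hv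
    obtain ⟨⟨hvT, hvn⟩, hc⟩ := hv
    push Not at hc
    obtain ⟨z1, hz1, z2, hz2, hne⟩ := Finset.one_lt_card.1 hc
    obtain ⟨z, z', hz, hz', hlt⟩ : ∃ z z', (z ∈ T ∧ z < v) ∧ (z' ∈ T ∧ z' < v) ∧ z < z' := by
      rcases lt_or_gt_of_ne hne with h | h
      · exact ⟨z1, z2, Finset.mem_filter.1 hz1, Finset.mem_filter.1 hz2, h⟩
      · exact ⟨z2, z1, Finset.mem_filter.1 hz2, Finset.mem_filter.1 hz1, h⟩
    have hv' := (memT v).1 hvT
    have hz1' := (memT z).1 hz.1
    have hz2' := (memT z').1 hz'.1
    obtain ⟨y, hy1, hy2, hy3, hy4⟩ := exists_below hz2'.1 hv'.1 hz'.2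
    obtain ⟨x, hx1, hx2, hx3, hx4⟩ := exists_below hz1'.1 hy1 (by omega)
    refine ⟨y, hy1, hy4, ?_⟩
    by_contra hy5
    rw [Finset.mem_union, not_or] at hy5 hvn
    have hyA : ∀ p, a ≤ p → ¬ S.Kl t y p := by
      intro p hp hk
      apply hy5.1
      simp only [hA, Finset.mem_filter]
      exact ⟨R_mem hy1, ⟨hy1, by omega, by omega⟩, p, hp, hk⟩
    have hvA : ∀ p, a ≤ p → ¬ S.Kl t v p := by
      intro p hp hk
      apply hvn.1
      simp only [hA, Finset.mem_filter]
      exact ⟨R_mem hv'.1, hv', p, hp, hk⟩
    have hyB : S.lam t y = S.lam t x := by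
      by_contra hl
      apply hy5.2
      simp only [hB, Tn, Finset.mem_filter]
      exact ⟨⟨R_mem hy1, hy1, x, hx1, hx4, hl⟩, by omega, by omega⟩
    have hvB : S.lam t v = S.lam t y := by
      by_contra hl
      apply hvn.2
      simp only [hB, Tn, Finset.mem_filter]
      exact ⟨⟨R_mem hv'.1, hv'.1, y, hy1, hy4, hl⟩, by omega, by omega⟩
    have hK := hT t x hx1 (by rw [hx4]; exact hy1) (by rw [hx4, hy4]; exact hv'.1)
      (by rw [hx4]; exact hyB) (by rw [hx4, hy4]; exact hvB.trans hyB)
    rw [hx4, hy4] at hK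
    rcases hK with hK | hK
    · exact hyA x (by omega) hK
    · exact hvA y (by omega) hK
  choose! f hf using hU2
  have h2 : U.card ≤ (A ∪ B).card := by
    refine Finset.card_le_card_of_injOn f (fun v hv => (hf v hv).2.2) ?_
    intro v hv w hw hvw
    have h3 := (hf v hv).2.1
    have h4 := (hf w hw).2.1
    rw [← h3, ← h4, hvw]
  have h3 := C2_two T
  have h4 := Finset.card_union_le A B
  omega

/-- **C3.** A rising sun lemma. -/
theorem rising (Z T : Finset ℕ) :
    (Z.filter (fun g => ∃ w, g ≤ w ∧ (Z.filter (fun v => g ≤ v ∧ v ≤ w)).card <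
      4 * (T.filter (fun v => g ≤ v ∧ v ≤ w)).card)).card ≤ 4 * T.card := by
  induction hn : Z.card using Nat.strong_induction_on generalizing Z T with
  | _ n ih =>
    set F := Z.filter (fun g => ∃ w, g ≤ w ∧ (Z.filter (fun v => g ≤ v ∧ v ≤ w)).card <
      4 * (T.filter (fun v => g ≤ v ∧ v ≤ w)).card) with hF
    rcases F.eq_empty_or_nonempty with h0 | h0
    · rw [h0]
      simp
    · set g := F.min' h0 with hg
      have hgF := F.min'_mem h0
      rw [← hg] at hgF
      have hgF' := Finset.mem_filter.1 hgF
      obtain ⟨hgZ, w, hgw, hlt⟩ := hgF'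
      set Z' := Z.filter (fun v => w < v) with hZ'
      set T' := T.filter (fun v => w < v) with hT'
      have hc : Z'.card < n := by
        rw [← hn]
        apply Finset.card_lt_card
        rw [Finset.ssubset_iff_of_subset (Finset.filter_subset _ _)]
        exact ⟨g, hgZ, by simp only [Finset.mem_filter, not_and]; intro _; omega⟩
      have h1 := ih Z'.card hc Z' T' rfl
      have h2 : F ⊆ Z.filter (fun v => g ≤ v ∧ v ≤ w) ∪ Z'.filter (fun g => ∃ w, g ≤ w ∧
          (Z'.filter (fun v => g ≤ v ∧ v ≤ w)).card <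
          4 * (T'.filter (fun v => g ≤ v ∧ v ≤ w)).card) := by
        intro x hx
        have hgx : g ≤ x := F.min'_le x hx
        obtain ⟨hxZ, w', hxw, hlt'⟩ := Finset.mem_filter.1 hx
        by_cases hxw' : x ≤ w
        · exact Finset.mem_union_left _ (Finset.mem_filter.2 ⟨hxZ, hgx, hxw'⟩)
        · push Not at hxw'
          apply Finset.mem_union_right
          refine Finset.mem_filter.2 ⟨Finset.mem_filter.2 ⟨hxZ, hxw'⟩, w', hxw, ?_⟩
          have e1 : Z'.filter (fun v => x ≤ v ∧ v ≤ w') = Z.filter (fun v => x ≤ v ∧ v ≤ w') := by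
            ext v
            simp only [hZ', Finset.mem_filter]
            constructor
            · rintro ⟨⟨a1, _⟩, a2⟩
              exact ⟨a1, a2⟩
            · rintro ⟨a1, a2⟩
              exact ⟨⟨a1, by omega⟩, a2⟩
          have e2 : T'.filter (fun v => x ≤ v ∧ v ≤ w') = T.filter (fun v => x ≤ v ∧ v ≤ w') := by
            ext v
            simp only [hT', Finset.mem_filter]
            constructor
            · rintro ⟨⟨a1, _⟩, a2⟩
              exact ⟨a1, a2⟩
            · rintro ⟨a1, a2⟩
              exact ⟨⟨a1, by omega⟩, a2⟩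
          rw [e1, e2]
          exact hlt'
      have h3 : (T.filter (fun v => g ≤ v ∧ v ≤ w)).card + T'.card ≤ T.card := by
        rw [← Finset.card_union_of_disjoint]
        · apply Finset.card_le_card
          intro v hv
          rcases Finset.mem_union.1 hv with h | h
          · exact (Finset.mem_filter.1 h).1
          · exact (Finset.mem_filter.1 h).1
        · rw [Finset.disjoint_left]
          intro v hv hv'
          have a1 := (Finset.mem_filter.1 hv).2
          have a2 := (Finset.mem_filter.1 hv').2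
          omega
      have h4 := (Finset.card_le_card h2).trans (Finset.card_union_le _ _)
      omega

/-- **C4.** The axiom `irr`. -/
theorem ax_irr (hT : Thr S) (hM : M ≤ S.top) (t : ℕ) (ht : t < S.m) :
    ((Finset.range (S.top + 1)).filter (fun g => (∃ p, Ks S M t p g) ∧ ∃ w, g ≤ w ∧
      3 * ((Finset.Icc g w).filter (fun v => Vs S M t v)).card + 4 <
        4 * ((Finset.Icc g w).filter (fun v => Vs S M t v ∧ ¬ ∃ p, Ks S M t p v)).card)).card ≤
      Io S M t := by
  by_cases hx : S.X t < M
  · have hIo : Io S M t = 4 * nL S t := by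
      unfold Io
      rw [if_pos ⟨ht, hx⟩]
    rw [hIo]
    set Z := S.K.filter (fun v => Vs S M t v) with hZ
    have memZ : ∀ v, v ∈ Z ↔ Vs S M t v := by
      intro v
      simp only [hZ, Finset.mem_filter]
      exact ⟨fun h => h.2, fun h => ⟨R_mem h.1, h⟩⟩
    refine le_trans ?_ ((rising Z (Tn S t)).trans (Nat.mul_le_mul_left 4 (Tn_le ht)))
    apply Finset.card_le_card
    intro g hg
    simp only [Finset.mem_filter] at hg
    obtain ⟨_, ⟨p, hp⟩, w, hgw, hlt⟩ := hg
    have hgV : Vs S M t g := ⟨hp.1.1, hp.2⟩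
    refine Finset.mem_filter.2 ⟨(memZ g).2 hgV, w, hgw, ?_⟩
    -- the interval
    have hch := chain hT t g (min (w + 1) M)
    have e1 : S.K.filter (fun v => S.R t v ∧ g ≤ v ∧ v < min (w + 1) M) =
        Z.filter (fun v => g ≤ v ∧ v ≤ w) := by
      ext v
      rw [Finset.mem_filter, Finset.mem_filter, memZ]
      constructor
      · rintro ⟨a1, a2, a3, a4⟩
        exact ⟨⟨a2, by omega⟩, a3, by omega⟩
      · rintro ⟨⟨a2, a3⟩, a4, a5⟩
        exact ⟨R_mem a2, a2, a4, by omega⟩
    have e2 : (Finset.Icc g w).filter (fun v => Vs S M t v) =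
        Z.filter (fun v => g ≤ v ∧ v ≤ w) := by
      ext v
      rw [Finset.mem_filter, Finset.mem_filter, Finset.mem_Icc, memZ]
      exact and_comm
    set U := (Finset.Icc g w).filter (fun v => Vs S M t v ∧ ¬ ∃ p, Ks S M t p v) with hU
    set A := S.K.filter (fun v => (S.R t v ∧ g ≤ v ∧ v < min (w + 1) M) ∧
      ∃ p, g ≤ p ∧ S.Kl t v p) with hA
    rw [e2] at hlt
    rw [e1] at hch
    have h1 : U.card + (A.card + 1) ≤ (Z.filter (fun v => g ≤ v ∧ v ≤ w)).card := by
      have hgA : g ∉ A := by
        intro h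
        simp only [hA, Finset.mem_filter] at h
        obtain ⟨_, _, q, hq1, hq2⟩ := h
        have := kl_lt hq2
        omega
      rw [← Finset.card_insert_of_notMem hgA, ← Finset.card_union_of_disjoint]
      · apply Finset.card_le_card
        intro v hv
        simp only [Finset.mem_filter]
        rcases Finset.mem_union.1 hv with h | h
        · simp only [hU, Finset.mem_filter, Finset.mem_Icc] at h
          exact ⟨(memZ v).2 h.2.1, h.1⟩
        · rcases Finset.mem_insert.1 h with h | h
          · rw [h]
            exact ⟨(memZ g).2 hgV, le_rfl, hgw⟩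
          · simp only [hA, Finset.mem_filter] at h
            refine ⟨(memZ v).2 ⟨h.2.1.1, by omega⟩, by omega, by omega⟩
      · rw [Finset.disjoint_left]
        intro v hv hv'
        simp only [hU, Finset.mem_filter, Finset.mem_Icc] at hv
        apply hv.2.2
        rcases Finset.mem_insert.1 hv' with h | h
        · rw [h]
          exact ⟨p, hp⟩
        · simp only [hA, Finset.mem_filter] at h
          obtain ⟨_, h2, q, _, h3⟩ := h
          exact ⟨q, h3, by omega⟩
    have h2 : ((Tn S t).filter (fun v => g ≤ v ∧ v < min (w + 1) M)).card ≤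
        ((Tn S t).filter (fun v => g ≤ v ∧ v ≤ w)).card := by
      apply Finset.card_le_card
      intro v hv
      simp only [Finset.mem_filter] at hv ⊢
      exact ⟨hv.1, hv.2.1, by omega⟩
    omega
  · have h0 : ((Finset.range (S.top + 1)).filter (fun g => (∃ p, Ks S M t p g) ∧ ∃ w, g ≤ w ∧
      3 * ((Finset.Icc g w).filter (fun v => Vs S M t v)).card + 4 <
        4 * ((Finset.Icc g w).filter (fun v => Vs S M t v ∧ ¬ ∃ p, Ks S M t p v)).card)) = ∅ := by
      apply Finset.filter_eq_empty_iff.2
      rintro g _ ⟨⟨p, hp⟩, _⟩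
      have := R_gt hp.1.1
      have := hp.2
      omega
    rw [h0]
    simp

/-- **C5.** The axiom `many`. -/
theorem ax_many (hT : Thr S) (hM : M ≤ S.top) (t : ℕ) (ht : t < S.m) :
    ((Finset.range (S.top + 1)).filter (fun v => Vs S M t v)).card ≤
    2 * ((Finset.range (S.top + 1)).filter (fun g => ∃ p, Ks S M t p g)).card + 4 + Io S M t := by
  by_cases hx : S.X t < M
  · have hIo : Io S M t = 4 * nL S t := by
      unfold Io
      rw [if_pos ⟨ht, hx⟩]
    have hch := chain hT t 0 M
    have h1 : ((Finset.range (S.top + 1)).filter (fun v => Vs S M t v)).card ≤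
        (S.K.filter (fun v => S.R t v ∧ 0 ≤ v ∧ v < M)).card := by
      apply Finset.card_le_card
      intro v hv
      simp only [Finset.mem_filter] at hv ⊢
      exact ⟨R_mem hv.2.1, hv.2.1, Nat.zero_le _, hv.2.2⟩
    have h2 : (S.K.filter (fun v => (S.R t v ∧ 0 ≤ v ∧ v < M) ∧ ∃ p, 0 ≤ p ∧ S.Kl t v p)).card ≤
        ((Finset.range (S.top + 1)).filter (fun g => ∃ p, Ks S M t p g)).card := by
      apply Finset.card_le_card
      intro v hv
      simp only [Finset.mem_filter, Finset.mem_range] at hv ⊢
      obtain ⟨a1, ⟨a2, _, a3⟩, p, _, a4⟩ := hv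
      exact ⟨by have := (S.key v a1).2; omega, p, a4, a3⟩
    have h3 : ((Tn S t).filter (fun v => 0 ≤ v ∧ v < M)).card ≤ (Tn S t).card :=
      Finset.card_le_card (Finset.filter_subset _ _)
    have h4 := Tn_le (S := S) ht
    omega
  · have h0 : ((Finset.range (S.top + 1)).filter (fun v => Vs S M t v)) = ∅ := by
      apply Finset.filter_eq_empty_iff.2
      intro v _ hv
      have := R_gt hv.1
      have := hv.2
      omega
    rw [h0]
    simp

end Pool.Agent.SplDq
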