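import Mathlib

/-! # NEAR, part 2: the counting lemma (pure) -/

set_option autoImplicit false

namespace Pool.Agent.SplDq

/-- A word: the positions `S`, with times `tm` and classes `cl`. At one time the classes decrease. -/
structure Word where
  S : Finset ℕ
  tm : ℕ → ℕ
  cl : ℕ → ℕ
  ord : ∀ u ∈ S, ∀ v ∈ S, u < v → tm u < tm v ∨ (tm u = tm v ∧ cl v < cl u)

namespace Word

variable (X : Word)

/-- The positions of class at least `c`. -/
def Sc (c : ℕ) : Finset ℕ := X.S.filter (fun u => c ≤ X.cl u)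

/-- `u` is the predecessor of `v` among the positions of class at least `c`. -/
def Ad (c u v : ℕ) : Prop := u ∈ X.Sc c ∧ v ∈ X.Sc c ∧ u < v ∧ ∀ w ∈ X.Sc c, w < v → w ≤ u

open scoped Classical in
/-- The changes: the positions whose predecessor has another class. -/
noncomputable def E (c : ℕ) : Finset ℕ :=
  (X.Sc c).filter (fun v => ∃ u, X.Ad c u v ∧ X.cl u ≠ X.cl v)

variable {X}

/-- MODULE N2A (size 1). The predecessor exists (`Finset.max'`). -/
theorem exists_ad {c v w : ℕ} (hv : v ∈ X.Sc c) (hw : w ∈ X.Sc c) (h : w < v) :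
    ∃ u, X.Ad c u v ∧ w ≤ u := by
  classical
  have hne : ((X.Sc c).filter (fun y => y < v)).Nonempty :=
    ⟨w, Finset.mem_filter.mpr ⟨hw, h⟩⟩
  have hmem := Finset.max'_mem _ hne
  rw [Finset.mem_filter] at hmem
  refine ⟨((X.Sc c).filter (fun y => y < v)).max' hne, ⟨hmem.1, hv, hmem.2, ?_⟩, ?_⟩
  · intro y hy hyv
    exact Finset.le_max' _ _ (Finset.mem_filter.mpr ⟨hy, hyv⟩)
  · exact Finset.le_max' _ _ (Finset.mem_filter.mpr ⟨hw, h⟩)

private theorem N2_mem {c u : ℕ} : u ∈ X.Sc c ↔ u ∈ X.S ∧ c ≤ X.cl u := by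
  simp [Sc]

private theorem N2_tm_le {u v : ℕ} (hu : u ∈ X.S) (hv : v ∈ X.S) (h : u ≤ v) :
    X.tm u ≤ X.tm v := by
  rcases h.lt_or_eq with h | h
  · rcases X.ord u hu v hv h with h1 | h1
    · exact h1.le
    · exact h1.1.le
  · rw [h]

private theorem N2_memE {c v : ℕ} : v ∈ X.E c ↔ v ∈ X.Sc c ∧ ∃ u, X.Ad c u v ∧ X.cl u ≠ X.cl v := by
  classical
  simp [E]

/-- MODULE N2B (size 1). `tm` is injective on `Sc c \ E c`: for `v < v'` with the same time the predecessor `u` of `v'` has the same time, so `cl v' < cl u`. -/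
theorem card_Sc {m : ℕ} (hm : ∀ u ∈ X.S, X.tm u < m) (c : ℕ) :
    (X.Sc c).card ≤ m + (X.E c).card := by
  classical
  have hsub : X.E c ⊆ X.Sc c := fun v hv => (N2_memE.mp hv).1
  have h1 : (X.Sc c \ X.E c).card ≤ m := by
    have hinj : Set.InjOn X.tm (↑(X.Sc c \ X.E c) : Set ℕ) := by
      have key : ∀ v ∈ X.Sc c \ X.E c, ∀ v' ∈ X.Sc c \ X.E c, v < v' → X.tm v ≠ X.tm v' := by
        intro v hv v' hv' hlt heq
        rw [Finset.mem_sdiff] at hv hv'
        obtain ⟨u, hu, hvu⟩ := exists_ad hv'.1 hv.1 hlt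
        have hcl : X.cl u = X.cl v' := by
          by_contra hne
          exact hv'.2 (N2_memE.mpr ⟨hv'.1, u, hu, hne⟩)
        have huS := (N2_mem.mp hu.1).1
        have hv'S := (N2_mem.mp hv'.1).1
        have hvS := (N2_mem.mp hv.1).1
        have h2 := N2_tm_le hvS huS hvu
        rcases X.ord u huS v' hv'S hu.2.2.1 with h3 | h3
        · omega
        · omega
      intro a ha b hb hab
      rcases lt_trichotomy a b with h | h | h
      · exact absurd hab (key a ha b hb h)
      · exact h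
      · exact absurd hab.symm (key b hb a ha h)
    have himg : (X.Sc c \ X.E c).image X.tm ⊆ Finset.range m := by
      intro y hy
      rw [Finset.mem_image] at hy
      obtain ⟨v, hv, rfl⟩ := hy
      rw [Finset.mem_sdiff] at hv
      exact Finset.mem_range.mpr (hm v (N2_mem.mp hv.1).1)
    have h2 := Finset.card_le_card himg
    rw [Finset.card_image_of_injOn hinj, Finset.card_range] at h2
    exact h2
  have h3 : (X.Sc c \ X.E c).card + (X.E c).card = (X.Sc c).card :=
    Finset.card_sdiff_add_card_eq_card hsub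
  omega

private theorem N2_first {om : ℕ → ℕ} {W : ℕ} (hW : ∀ u ∈ X.S, om u < W) (c : ℕ) :
    ∃ F : Finset ℕ, F.card ≤ W ∧ ∀ v ∈ X.Sc c, (∀ w ∈ X.Sc c, w < v → om w ≠ om v) → v ∈ F := by
  classical
  refine ⟨(X.Sc c).filter (fun v => ∀ w ∈ X.Sc c, w < v → om w ≠ om v), ?_, ?_⟩
  · have hinj : Set.InjOn om
        (↑((X.Sc c).filter (fun v => ∀ w ∈ X.Sc c, w < v → om w ≠ om v)) : Set ℕ) := by
      intro a ha b hb hab
      rw [Finset.mem_coe, Finset.mem_filter] at ha hb
      rcases lt_trichotomy a b with h | h | h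
      · exact absurd hab (hb.2 a ha.1 h)
      · exact h
      · exact absurd hab.symm (ha.2 b hb.1 h)
    have himg : ((X.Sc c).filter (fun v => ∀ w ∈ X.Sc c, w < v → om w ≠ om v)).image om ⊆
        Finset.range W := by
      intro y hy
      rw [Finset.mem_image] at hy
      obtain ⟨v, hv, rfl⟩ := hy
      rw [Finset.mem_filter] at hv
      exact Finset.mem_range.mpr (hW v (N2_mem.mp hv.1).1)
    have h2 := Finset.card_le_card himg
    rw [Finset.card_image_of_injOn hinj, Finset.card_range] at h2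
    exact h2
  · intro v hv hall
    exact Finset.mem_filter.mpr ⟨hv, hall⟩

private theorem N2_om_le {om : ℕ → ℕ} (hom : ∀ u ∈ X.S, ∀ v ∈ X.S, u < v → om u ≤ om v) {u v : ℕ}
    (hu : u ∈ X.S) (hv : v ∈ X.S) (h : u ≤ v) : om u ≤ om v := by
  rcases h.lt_or_eq with h | h
  · exact hom u hu v hv h
  · rw [h]

/-- MODULE N2C (size 1). At most one change in every window whose predecessor is in another window. -/
theorem card_first {om : ℕ → ℕ} {W : ℕ} (hom : ∀ u ∈ X.S, ∀ v ∈ X.S, u < v → om u ≤ om v)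
    (hW : ∀ u ∈ X.S, om u < W) (c : ℕ) :
    ∃ F : Finset ℕ, F.card ≤ W ∧ ∀ u v, X.Ad c u v → om u ≠ om v → v ∈ F := by
  obtain ⟨F, hF, hall⟩ := N2_first (X := X) hW c
  refine ⟨F, hF, ?_⟩
  intro u v had hne
  refine hall v had.2.1 ?_
  intro w hw hwv
  have h1 := had.2.2.2 w hw hwv
  have h2 := N2_om_le hom (N2_mem.mp hw).1 (N2_mem.mp had.1).1 h1
  have h3 := N2_om_le hom (N2_mem.mp had.1).1 (N2_mem.mp had.2.1).1 had.2.2.1.le
  omega

/-- MODULE N2D (size 2). The number of pairs (window, class `≥ c` in this window) is at most `W + |E c|`: the map from the pairs to the first position `u` of this window and class; it is either in `E c`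
or the first position of its window in `Sc c`. -/
theorem card_classes {om : ℕ → ℕ} {W : ℕ} (hom : ∀ u ∈ X.S, ∀ v ∈ X.S, u < v → om u ≤ om v)
    (hW : ∀ u ∈ X.S, om u < W) (c : ℕ) :
    ((X.Sc c).image (fun u => (om u, X.cl u))).card ≤ W + (X.E c).card := by
  classical
  obtain ⟨F, hF, hall⟩ := N2_first (X := X) hW c
  have hsub : (X.Sc c).image (fun u => (om u, X.cl u)) ⊆
      (F ∪ X.E c).image (fun u => (om u, X.cl u)) := by
    intro y hy
    rw [Finset.mem_image] at hy
    obtain ⟨z, hz, rfl⟩ := hy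
    have hne : ((X.Sc c).filter (fun y => om y = om z ∧ X.cl y = X.cl z)).Nonempty :=
      ⟨z, Finset.mem_filter.mpr ⟨hz, rfl, rfl⟩⟩
    have hmem := Finset.min'_mem _ hne
    rw [Finset.mem_filter] at hmem
    set u := ((X.Sc c).filter (fun y => om y = om z ∧ X.cl y = X.cl z)).min' hne with hu
    have hmin : ∀ y ∈ X.Sc c, om y = om z → X.cl y = X.cl z → u ≤ y := fun y hy h1 h2 =>
      Finset.min'_le _ _ (Finset.mem_filter.mpr ⟨hy, h1, h2⟩)
    rw [Finset.mem_image]
    refine ⟨u, ?_, by rw [hmem.2.1, hmem.2.2]⟩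
    rw [Finset.mem_union]
    by_cases hex : ∃ w ∈ X.Sc c, w < u ∧ om w = om u
    · right
      obtain ⟨w, hw, hwu, how⟩ := hex
      obtain ⟨p, hp, hwp⟩ := exists_ad hmem.1 hw hwu
      have h1 := N2_om_le hom (N2_mem.mp hw).1 (N2_mem.mp hp.1).1 hwp
      have h2 := N2_om_le hom (N2_mem.mp hp.1).1 (N2_mem.mp hmem.1).1 hp.2.2.1.le
      have h3 : om p = om u := by omega
      refine N2_memE.mpr ⟨hmem.1, p, hp, ?_⟩
      intro h4
      have h5 := hmin p hp.1 (by rw [h3, hmem.2.1]) (by rw [h4, hmem.2.2])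
      have h6 := hp.2.2.1
      omega
    · left
      refine hall u hmem.1 ?_
      intro w hw hwu how
      exact hex ⟨w, hw, hwu, how⟩
  have h1 := Finset.card_le_card hsub
  have h2 : ((F ∪ X.E c).image (fun u => (om u, X.cl u))).card ≤ (F ∪ X.E c).card :=
    Finset.card_image_le
  have h3 := Finset.card_union_le F (X.E c)
  omega

/-- The hypothesis of alternation for the scale `c0`, the classes `a < c1` and the windows `om`. -/
def Alt (X : Word) (om : ℕ → ℕ) (c0 c1 k0 : ℕ) : Prop :=
  ∀ (w a b : ℕ) (G : Finset ℕ) (e f : ℕ → ℕ), c0 ≤ a → a < b → a < c1 →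
    (∀ i ∈ G, e i ∈ X.S ∧ f i ∈ X.S ∧ X.cl (e i) = a ∧ X.cl (f i) = b ∧ om (e i) = w ∧
      om (f i) = w ∧ e i < f i) →
    (∀ i ∈ G, ∀ j ∈ G, i < j → f i < e j) → G.card ≤ k0

/-- MODULE N2E (size 2). The changes in one window between the classes `a < b`: the changes from `a` to `b` (`G` = these positions, `f = id`, `e` = the predecessor; `v' < v` in `G`: `v' ≤ e v`, and
`v' ≠ e v` as the classes differ): at most `k0`. The changes from `b` to `a`: `G` = these positions without the first one, `f v` = the predecessor of `v` (class `b`), `e v` = the previous element of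
the set (class `a`): at most `k0 + 1`. -/
theorem card_pair {om : ℕ → ℕ} {c0 c1 k0 : ℕ} (h : X.Alt om c0 c1 k0) (w a b : ℕ) (h0 : c0 ≤ a)
    (hab : a < b) (h1 : a < c1) (G : Finset ℕ)
    (hG : ∀ v ∈ G, ∃ u, X.Ad c0 u v ∧ om u = w ∧ om v = w ∧
      ((X.cl u = a ∧ X.cl v = b) ∨ (X.cl u = b ∧ X.cl v = a))) : G.card ≤ 2 * k0 + 1 := by
  classical
  have hG' : ∀ v : ℕ, ∃ u : ℕ, v ∈ G → X.Ad c0 u v ∧ om u = w ∧ om v = w ∧
      ((X.cl u = a ∧ X.cl v = b) ∨ (X.cl u = b ∧ X.cl v = a)) := by
    intro v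
    by_cases hv : v ∈ G
    · obtain ⟨u, hu⟩ := hG v hv
      exact ⟨u, fun _ => hu⟩
    · exact ⟨0, fun h => absurd h hv⟩
  choose pr hpr using hG'
  have hS : ∀ v ∈ G, v ∈ X.S ∧ pr v ∈ X.S ∧ pr v < v := fun v hv =>
    ⟨(N2_mem.mp (hpr v hv).1.2.1).1, (N2_mem.mp (hpr v hv).1.1).1, (hpr v hv).1.2.2.1⟩
  have hle : ∀ v' ∈ G, ∀ v ∈ G, v' < v → v' ≤ pr v := fun v' hv' v hv hlt =>
    (hpr v hv).1.2.2.2 v' (hpr v' hv').1.2.1 hlt
  -- the changes from `a` to `b`
  have h1' : (G.filter (fun v => X.cl v = b)).card ≤ k0 := by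
    refine h w a b (G.filter (fun v => X.cl v = b)) pr id h0 hab h1 ?_ ?_
    · intro i hi
      rw [Finset.mem_filter] at hi
      obtain ⟨had, ho1, ho2, hcl⟩ := hpr i hi.1
      refine ⟨(hS i hi.1).2.1, (hS i hi.1).1, ?_, hi.2, ho1, ho2, (hS i hi.1).2.2⟩
      rcases hcl with h3 | h3
      · exact h3.1
      · exfalso
        have := hi.2
        omega
    · intro i hi j hj hij
      rw [Finset.mem_filter] at hi hj
      have h3 := hle i hi.1 j hj.1 hij
      have h4 : X.cl (pr j) = a := by
        rcases (hpr j hj.1).2.2.2 with h3 | h3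
        · exact h3.1
        · exfalso
          have := hj.2
          omega
      rcases h3.lt_or_eq with h5 | h5
      · exact h5
      · exfalso
        have h6 : X.cl i = a := by rw [h5, h4]
        have := hi.2
        omega
  -- the changes from `b` to `a`
  have h2' : (G.filter (fun v => X.cl v = a)).card ≤ k0 + 1 := by
    set G2 := G.filter (fun v => X.cl v = a) with hG2
    by_cases hne : G2.Nonempty
    · have hmin := Finset.min'_mem G2 hne
      have hcard : (G2.erase (G2.min' hne)).card + 1 = G2.card :=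
        Finset.card_erase_add_one hmin
      have hprev : ∀ v : ℕ, ∃ e : ℕ, v ∈ G2.erase (G2.min' hne) → e ∈ G2 ∧ e < v ∧
          ∀ y ∈ G2, y < v → y ≤ e := by
        intro v
        by_cases hv : v ∈ G2.erase (G2.min' hne)
        · rw [Finset.mem_erase] at hv
          have hne2 : (G2.filter (fun y => y < v)).Nonempty := by
            refine ⟨G2.min' hne, Finset.mem_filter.mpr ⟨hmin, ?_⟩⟩
            exact lt_of_le_of_ne (Finset.min'_le _ _ hv.2) (Ne.symm hv.1)
          have hmax := Finset.max'_mem _ hne2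
          rw [Finset.mem_filter] at hmax
          exact ⟨(G2.filter (fun y => y < v)).max' hne2, fun _ => ⟨hmax.1, hmax.2,
            fun y hy hyv => Finset.le_max' _ _ (Finset.mem_filter.mpr ⟨hy, hyv⟩)⟩⟩
        · exact ⟨0, fun h => absurd h hv⟩
      choose e he using hprev
      have hk : (G2.erase (G2.min' hne)).card ≤ k0 := by
        refine h w a b (G2.erase (G2.min' hne)) e pr h0 hab h1 ?_ ?_
        · intro i hi
          obtain ⟨he1, he2, he3⟩ := he i hi
          have hi2 := (Finset.mem_erase.mp hi).2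
          rw [hG2, Finset.mem_filter] at hi2 he1
          have hclp : X.cl (pr i) = b := by
            rcases (hpr i hi2.1).2.2.2 with h3 | h3
            · exfalso
              have := hi2.2
              omega
            · exact h3.1
          refine ⟨(hS _ he1.1).1, (hS i hi2.1).2.1, he1.2, hclp, (hpr _ he1.1).2.2.1,
            (hpr i hi2.1).2.1, ?_⟩
          have h3 := hle _ he1.1 i hi2.1 he2
          rcases h3.lt_or_eq with h5 | h5
          · exact h5
          · exfalso
            have h6 : X.cl (e i) = b := by rw [h5, hclp]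
            have := he1.2
            omega
        · intro i hi j hj hij
          have hi2 := (Finset.mem_erase.mp hi).2
          have h3 := (he j hj).2.2 i hi2 hij
          have hi3 := hi2
          rw [hG2, Finset.mem_filter] at hi3
          have h4 := (hS i hi3.1).2.2
          omega
      omega
    · rw [Finset.not_nonempty_iff_eq_empty] at hne
      rw [hne]
      simp
  have hun : G ⊆ G.filter (fun v => X.cl v = b) ∪ G.filter (fun v => X.cl v = a) := by
    intro v hv
    rw [Finset.mem_union, Finset.mem_filter, Finset.mem_filter]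
    rcases (hpr v hv).2.2.2 with h3 | h3
    · exact Or.inl ⟨hv, h3.2⟩
    · exact Or.inr ⟨hv, h3.2⟩
  have h3 := Finset.card_le_card hun
  have h4 := Finset.card_union_le (G.filter (fun v => X.cl v = b)) (G.filter (fun v => X.cl v = a))
  omega

/-- MODULE N2F (size 2). THE RECURSION. `E c0` is contained in `F` (`card_first`), `E c1` (both classes `≥ c1`: the predecessor in `Sc c0` is the predecessor in `Sc c1`) and the changes `v` in one window
with a class `< c1`; map these to (window, smaller class, larger class): the fibres have at most `2 * k0 + 1` elements (`card_pair`), the image is contained in the set of the `(w, a, b)` with `a < c1`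
and (`w < W`, `b < c1`) or `(w, b)` from `card_classes`. -/
theorem recur {om : ℕ → ℕ} {c0 c1 k0 W : ℕ} (hc : c0 ≤ c1) (h : X.Alt om c0 c1 k0)
    (hom : ∀ u ∈ X.S, ∀ v ∈ X.S, u < v → om u ≤ om v) (hW : ∀ u ∈ X.S, om u < W) :
    (X.E c0).card ≤ W + (X.E c1).card +
      c1 * (W * c1 + (W + (X.E c1).card)) * (2 * k0 + 1) := by
  classical
  obtain ⟨F, hF, hall⟩ := card_first (X := X) hom hW c0
  set R := (X.E c0).filter (fun v => ∃ u, X.Ad c0 u v ∧ om u = om v ∧ X.cl u ≠ X.cl v ∧
    (X.cl u < c1 ∨ X.cl v < c1)) with hR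
  have hcov : X.E c0 ⊆ F ∪ X.E c1 ∪ R := by
    intro v hv
    obtain ⟨hvS, u, had, hne⟩ := N2_memE.mp hv
    rw [Finset.mem_union, Finset.mem_union]
    by_cases ho : om u = om v
    · by_cases hcl : X.cl u < c1 ∨ X.cl v < c1
      · exact Or.inr (Finset.mem_filter.mpr ⟨hv, u, had, ho, hne, hcl⟩)
      · push Not at hcl
        refine Or.inl (Or.inr (N2_memE.mpr ⟨N2_mem.mpr ⟨(N2_mem.mp hvS).1, hcl.2⟩, u,
          ⟨N2_mem.mpr ⟨(N2_mem.mp had.1).1, hcl.1⟩, N2_mem.mpr ⟨(N2_mem.mp hvS).1, hcl.2⟩,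
            had.2.2.1, ?_⟩, hne⟩))
        intro w hw hwv
        exact had.2.2.2 w (N2_mem.mpr ⟨(N2_mem.mp hw).1, hc.trans (N2_mem.mp hw).2⟩) hwv
    · exact Or.inl (Or.inl (hall u v had ho))
  have hprE : ∀ v : ℕ, ∃ u : ℕ, v ∈ R → X.Ad c0 u v ∧ om u = om v ∧ X.cl u ≠ X.cl v ∧
      (X.cl u < c1 ∨ X.cl v < c1) := by
    intro v
    by_cases hv : v ∈ R
    · obtain ⟨u, hu⟩ := (Finset.mem_filter.mp hv).2
      exact ⟨u, fun _ => hu⟩
    · exact ⟨0, fun h => absurd h hv⟩
  choose pr hpr using hprE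
  set φ : ℕ → ℕ × (ℕ × ℕ) := fun v =>
    (min (X.cl (pr v)) (X.cl v), (om v, max (X.cl (pr v)) (X.cl v))) with hφ
  have hfib : ∀ y ∈ R.image φ, (R.filter (fun v => φ v = y)).card ≤ 2 * k0 + 1 := by
    intro y hy
    rw [Finset.mem_image] at hy
    obtain ⟨z, hz, rfl⟩ := hy
    obtain ⟨hadz, hoz, hnez, hclz⟩ := hpr z hz
    have hz1 := (N2_mem.mp hadz.1).2
    have hz2 := (N2_mem.mp hadz.2.1).2
    refine card_pair h (om z) (min (X.cl (pr z)) (X.cl z)) (max (X.cl (pr z)) (X.cl z))
      (le_min hz1 hz2) ?_ ?_ _ ?_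
    · rcases lt_or_gt_of_ne hnez with h3 | h3
      · rw [min_eq_left h3.le, max_eq_right h3.le]
        exact h3
      · rw [min_eq_right h3.le, max_eq_left h3.le]
        exact h3
    · rcases hclz with h3 | h3
      · exact lt_of_le_of_lt (min_le_left _ _) h3
      · exact lt_of_le_of_lt (min_le_right _ _) h3
    · intro v hv
      rw [Finset.mem_filter] at hv
      obtain ⟨hvR, hveq⟩ := hv
      obtain ⟨hadv, hov, hnev, hclv⟩ := hpr v hvR
      simp only [hφ, Prod.mk.injEq] at hveq
      obtain ⟨e1, e2, e3⟩ := hveq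
      refine ⟨pr v, hadv, by rw [hov, e2], e2, ?_⟩
      rw [← e1, ← e3]
      rcases le_total (X.cl (pr v)) (X.cl v) with h3 | h3
      · left
        rw [min_eq_left h3, max_eq_right h3]
        exact ⟨rfl, rfl⟩
      · right
        rw [min_eq_right h3, max_eq_left h3]
        exact ⟨rfl, rfl⟩
  have hRc := Finset.card_le_mul_card_image (f := φ) R (2 * k0 + 1) hfib
  have himg : R.image φ ⊆ Finset.range c1 ×ˢ ((Finset.range W ×ˢ Finset.range c1) ∪
      (X.Sc c1).image (fun u => (om u, X.cl u))) := by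
    intro y hy
    rw [Finset.mem_image] at hy
    obtain ⟨z, hz, rfl⟩ := hy
    obtain ⟨hadz, hoz, hnez, hclz⟩ := hpr z hz
    have hzS := (N2_mem.mp hadz.2.1).1
    have hpS := (N2_mem.mp hadz.1).1
    rw [Finset.mem_product]
    constructor
    · rw [Finset.mem_range]
      rcases hclz with h3 | h3
      · exact lt_of_le_of_lt (min_le_left _ _) h3
      · exact lt_of_le_of_lt (min_le_right _ _) h3
    · rw [Finset.mem_union]
      by_cases hb : max (X.cl (pr z)) (X.cl z) < c1
      · left
        rw [Finset.mem_product, Finset.mem_range, Finset.mem_range]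
        exact ⟨hW z hzS, hb⟩
      · right
        push Not at hb
        rw [Finset.mem_image]
        rcases le_total (X.cl (pr z)) (X.cl z) with h3 | h3
        · refine ⟨z, N2_mem.mpr ⟨hzS, ?_⟩, ?_⟩
          · rw [max_eq_right h3] at hb
            exact hb
          · simp only [hφ]
            rw [max_eq_right h3]
        · refine ⟨pr z, N2_mem.mpr ⟨hpS, ?_⟩, ?_⟩
          · rw [max_eq_left h3] at hb
            exact hb
          · simp only [hφ]
            rw [max_eq_left h3, hoz]
  have hT := Finset.card_le_card himg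
  rw [Finset.card_product, Finset.card_range] at hT
  have hU := Finset.card_union_le (Finset.range W ×ˢ Finset.range c1)
    ((X.Sc c1).image (fun u => (om u, X.cl u)))
  rw [Finset.card_product, Finset.card_range, Finset.card_range] at hU
  have hC := card_classes (X := X) hom hW c1
  have hTT : (R.image φ).card ≤ c1 * (W * c1 + (W + (X.E c1).card)) :=
    hT.trans (Nat.mul_le_mul_left _ (hU.trans (Nat.add_le_add_left hC _)))
  have hRR : R.card ≤ c1 * (W * c1 + (W + (X.E c1).card)) * (2 * k0 + 1) := by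
    refine hRc.trans ?_
    rw [mul_comm]
    exact Nat.mul_le_mul_right _ hTT
  have h3 := Finset.card_le_card hcov
  have h4 := Finset.card_union_le (F ∪ X.E c1) R
  have h5 := Finset.card_union_le F (X.E c1)
  omega

end Word

/-- MODULE N3A (size 2). ARITHMETIC. Downward induction (`f j = 0` for `2 ^ (8 * j) > N`): `f j * 2 ^ j ≤ N` for `12 ≤ j`. With `2 ^ (8 * j) ≤ N`: `W = N / 2 ^ (8 * j) + 1 ≤ 2 * N / 2 ^ (8 * j)`,
`f (8 * j) ≤ N / 2 ^ (8 * j)`, so `f j ≤ (N / 2 ^ (8 j)) * 3 * (1 + 64 j (64 j + 1) * 3 * 2 ^ (5 j))` and `3 * (1 + 64 j (64 j + 1) * 3 * 2 ^ (5 j)) * 2 ^ j ≤ 2 ^ (8 j)` for `j ≥ 12`. -/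
theorem arith (f : ℕ → ℕ) (N : ℕ) (h0 : ∀ j, N < 2 ^ (8 * j) → f j = 0)
    (h : ∀ j, 12 ≤ j → f j ≤ (N / 2 ^ (8 * j) + 1) + f (8 * j) +
      64 * j * ((N / 2 ^ (8 * j) + 1) * (64 * j) + ((N / 2 ^ (8 * j) + 1) + f (8 * j))) *
        (2 * 2 ^ (5 * j) + 1)) : f 12 ≤ N := by
  have key : ∀ n j : ℕ, N - j ≤ n → 12 ≤ j → f j * 2 ^ j ≤ N := by
    intro n
    induction n with
    | zero =>
      intro j h1 h2
      have h3 : N < 2 ^ (8 * j) := by
        have h4 : j < 2 ^ j := Nat.lt_two_pow_self
        have h5 : 2 ^ j ≤ 2 ^ (8 * j) := Nat.pow_le_pow_right (by norm_num) (by omega)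
        omega
      rw [h0 j h3]
      simp
    | succ n ih =>
      intro j h1 h2
      by_cases h3 : N < 2 ^ (8 * j)
      · rw [h0 j h3]
        simp
      · push Not at h3
        have h4 := ih (8 * j) (by omega) (by omega)
        have hpos : 0 < 2 ^ (8 * j) := by positivity
        set A := N / 2 ^ (8 * j) with hA
        have hA1 : 1 ≤ A := (Nat.one_le_div_iff hpos).mpr h3
        have hf8 : f (8 * j) ≤ A := (Nat.le_div_iff_mul_le hpos).mpr h4
        have hAN : A * 2 ^ (8 * j) ≤ N := Nat.div_mul_le_self _ _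
        have h5 := h j h2
        have h6 : f j ≤ A * (3 + 192 * j * (128 * j + 3) * 2 ^ (5 * j)) := by
          refine h5.trans ?_
          have e1 : 64 * j * ((A + 1) * (64 * j) + ((A + 1) + f (8 * j))) ≤
              64 * j * (A * (128 * j + 3)) := by
            refine Nat.mul_le_mul_left _ ?_
            have : (A + 1) * (64 * j) ≤ A * (128 * j) := by nlinarith
            calc (A + 1) * (64 * j) + ((A + 1) + f (8 * j)) ≤ A * (128 * j) + A * 3 := by omega
              _ = A * (128 * j + 3) := by ring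
          have e2 : 2 * 2 ^ (5 * j) + 1 ≤ 3 * 2 ^ (5 * j) := by
            have : 1 ≤ 2 ^ (5 * j) := Nat.one_le_two_pow
            omega
          have e3 := Nat.mul_le_mul e1 e2
          calc (A + 1) + f (8 * j) + 64 * j * ((A + 1) * (64 * j) + ((A + 1) + f (8 * j))) *
                (2 * 2 ^ (5 * j) + 1) ≤ A * 3 + 64 * j * (A * (128 * j + 3)) *
                (3 * 2 ^ (5 * j)) := by
                refine Nat.add_le_add ?_ e3
                omega
            _ = A * (3 + 192 * j * (128 * j + 3) * 2 ^ (5 * j)) := by ring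
        have hpoly : 3 + 192 * j * (128 * j + 3) ≤ 2 ^ (2 * j) := by
          obtain ⟨k, rfl⟩ : ∃ k, j = 12 + k := ⟨j - 12, by omega⟩
          clear_value A
          clear h1 h2 h3 h4 hpos hA hA1 hf8 hAN h5 h6 ih h h0
          induction k with
          | zero => norm_num
          | succ k ihk =>
            have e1 : 2 ^ (2 * (12 + (k + 1))) = 4 * 2 ^ (2 * (12 + k)) := by
              rw [show 2 * (12 + (k + 1)) = 2 * (12 + k) + 2 by ring, pow_add]
              norm_num
              ring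
            rw [e1]
            nlinarith
        have h7 : (3 + 192 * j * (128 * j + 3) * 2 ^ (5 * j)) * 2 ^ j ≤ 2 ^ (8 * j) := by
          calc (3 + 192 * j * (128 * j + 3) * 2 ^ (5 * j)) * 2 ^ j ≤
              ((3 + 192 * j * (128 * j + 3)) * 2 ^ (5 * j)) * 2 ^ j := by
                refine Nat.mul_le_mul_right _ ?_
                have : 1 ≤ 2 ^ (5 * j) := Nat.one_le_two_pow
                nlinarith
            _ ≤ (2 ^ (2 * j) * 2 ^ (5 * j)) * 2 ^ j :=
                Nat.mul_le_mul_right _ (Nat.mul_le_mul_right _ hpoly)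
            _ = 2 ^ (8 * j) := by
                rw [← pow_add, ← pow_add]
                congr 1
                ring
        calc f j * 2 ^ j ≤ A * (3 + 192 * j * (128 * j + 3) * 2 ^ (5 * j)) * 2 ^ j :=
              Nat.mul_le_mul_right _ h6
          _ = A * ((3 + 192 * j * (128 * j + 3) * 2 ^ (5 * j)) * 2 ^ j) := by ring
          _ ≤ A * 2 ^ (8 * j) := Nat.mul_le_mul_left _ h7
          _ ≤ N := hAN
  have h1 := key (N - 12) 12 le_rfl le_rfl
  have h2 : f 12 * 1 ≤ f 12 * 2 ^ 12 := Nat.mul_le_mul_left _ (by norm_num)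
  omega

end Pool.Agent.SplDq
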