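import Pool.Agent.SplDq.Defs

set_option autoImplicit false

/-!
# The last left request, dead keys, hidden keys
-/

namespace Pool.Agent.SplDq

open Pool.Agent.SplLog Pool.Agent.SplLs
open scoped Classical

variable {S : Sys} {M s t u v w g p q y a b : ℕ}

/-- **D1.** -/
theorem xl_mono : Monotone (xl S M) := by
  intro a b hab
  unfold xl
  apply Finset.sup_mono
  intro s hs
  simp only [Finset.mem_filter, Finset.mem_range] at hs ⊢
  exact ⟨by omega, hs.2⟩

/-- **D2.** -/
theorem xl_le : xl S M t ≤ M := by
  unfold xl
  apply Finset.sup_le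
  intro s hs
  simp only [Finset.mem_filter, Finset.mem_range] at hs
  omega

/-- **D4.** -/
theorem le_xl (hst : s ≤ t) (hs : s < S.m) (hx : S.X s < M) : S.X s ≤ xl S M t := by
  unfold xl
  apply Finset.le_sup (f := S.X)
  simp only [Finset.mem_filter, Finset.mem_range]
  exact ⟨by omega, hs, hx⟩

/-- **D3.** The last left request at the time of a left request. -/
theorem xl_left (hD : Deq S M) (ht : t < S.m) (hx : S.X t < M) : xl S M t = S.X t := by
  apply le_antisymm _ (le_xl le_rfl ht hx)
  unfold xl
  apply Finset.sup_le
  intro s hs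
  simp only [Finset.mem_filter, Finset.mem_range] at hs
  exact hD.left s t (by omega) ht hs.2.2

/-- Keys smaller than a left request have a small right end afterwards. -/
private theorem dead_aux (hD : Deq S M) (hs : S.X s < M) (hv : v ∈ S.K)
    (hvs : v < S.X s) (t : ℕ) (hst : s < t) (ht : t ≤ S.m) : S.rho t v ≤ S.X s := by
  induction t, hst using Nat.le_induction with
  | base =>
    have hsm : s < S.m := by omega
    have h1 := S.acc s hsm
    have h2 := (S.key v hv).1
    show S.rho (s + 1) v ≤ S.X s
    have ht' : s + 1 ≤ S.m := ht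
    rcases S.lamin (s + 1) ht' v hv (S.X s) (S.req s hsm) hvs with h | h | h
    · omega
    · omega
    · omega
  | succ t hst ih =>
    have h1 := ih (by omega)
    have h2 : ¬ S.E t v := by
      rw [Sys.E_iff (by omega) hv]
      have := hD.left s t (by omega) (by omega) hs
      omega
    rw [(Sys.untouched (by omega) hv h2).2]
    exact h1

/-- **D5.** Keys smaller than a left request are never touched afterwards.
(Time `s + 1`: `X s` is the root (`S.acc`), by `S.lamin` `rho (s+1) v ≤ X s`; later requests are
`≥ X s`: induction, `Sys.untouched`, `Sys.E_iff`.) -/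
theorem dead (hD : Deq S M) (hs : S.X s < M) (hst : s < t) (ht : t < S.m) (hv : v ∈ S.K)
    (hvs : v < S.X s) : ¬ S.E t v := by
  have h1 := dead_aux hD hs hv hvs t hst ht.le
  rw [Sys.E_iff ht hv]
  have := hD.left s t hst.le ht hs
  omega

/-- **D6.** A touched living key `< M` is visible or touched from the right. -/
theorem live (hD : Deq S M) (hE : S.E t v) (hv : v < M) (hx : xl S M t < v) :
    Vs S M t v ∨ Bs S M t v := by
  rcases hE with h | h | h
  · exact Or.inl ⟨h, hv⟩
  · right
    refine ⟨h, hv, ?_, hx⟩
    by_contra h1
    have h2 := xl_left hD h.1 (by omega)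
    have h3 := h.2.2.1
    omega
  · exfalso
    have h1 := h.2.2
    have h2 := le_xl (S := S) (M := M) le_rfl h.1 (by omega)
    omega

/-- **D7.** A hidden key which is not touched from the right stays untouched. -/
theorem hidden (hD : Deq S M) (hv : v ∈ S.K) (hvM : v < M) (hab : a ≤ b) (hb : b ≤ S.m)
    (h : ∀ u, a ≤ u → u < b → xl S M u ≤ S.lam a v ∧ ¬ Bs S M u v) : S.NE v a b := by
  induction b, hab using Nat.le_induction with
  | base =>
    intro u hu1 hu2
    omega
  | succ b hab ih =>
    have h1 := ih (by omega) (fun u h1 h2 => h u h1 (by omega))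
    have h2 := Sys.NE_const hv hab (by omega) h1
    intro u hu1 hu2 hE
    rcases Nat.lt_or_ge u b with h3 | h3
    · exact h1 u hu1 h3 hE
    · have h4 : u = b := by omega
      subst h4
      obtain ⟨h5, h6⟩ := h u hu1 (by omega)
      have h7 := S.lam_lt a (by omega) v hv
      rcases live hD hE hvM (by omega) with h8 | h8
      · have h9 := h8.1.2.2.2
        have h10 := h8.1.2.2.1
        have h11 := xl_left (M := M) hD h8.1.1 (by have := h8.2; omega)
        omega
      · exact h6 h8

end Pool.Agent.SplDq
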