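import Mathlib

set_option autoImplicit false

/-!
# Popping from a search tree: the abstract structure

A tree is accessed at the times `t < m`.  At some times a key is popped from the left (A-times; then
the keys `v` with `V t v` are visible, that is, on the left spine above the popped key), at the
others (B-times) nodes of the right spine are touched (`B t v`).  `x t` is the last key popped at a
time `≤ t`; it is smaller than all keys which are visible at time `t`.  `K t p g`: at the A-time `t`
the visible key `g` is killed by the next smaller visible key `p`.

The structure records what is needed for the proof that the number of kills is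
`O (n + m + θ + ι)`, where `θ` is the number of touches `B t v` and `ι` the number of
irregularities.
-/

namespace Pool.Agent.SplDq

open scoped Classical in
/-- The abstract structure; see the head of the file. -/
structure Pop where
  /-- the keys are at most `n` -/
  n : ℕ
  /-- the number of times -/
  m : ℕ
  /-- the last popped key -/
  x : ℕ → ℕ
  /-- `v` is visible at the A-time `t` -/
  V : ℕ → ℕ → Prop
  /-- the visible key `g` is killed by the visible key `p` -/
  K : ℕ → ℕ → ℕ → Prop
  /-- `v` is touched at the B-time `t` -/
  B : ℕ → ℕ → Prop
  /-- the number of irregularities at time `t` -/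
  io : ℕ → ℕ
  x_mono : Monotone x
  x_le : ∀ t, x t ≤ n
  V_dom : ∀ t v, V t v → t < m ∧ x t < v ∧ v ≤ n
  B_dom : ∀ t v, B t v → t < m ∧ v ≤ n
  B_V : ∀ t v w, B t v → ¬ V t w
  K_V : ∀ t p g, K t p g → V t p ∧ V t g ∧ p < g ∧ ∀ v, V t v → p < v → g ≤ v
  /-- after a kill of `g`, not the largest visible key, all keys of `(p, g]` are hidden until `p` is
  popped -/
  bur : ∀ t p g, K t p g → (∃ w, V t w ∧ g < w) → ∀ s z, t < s → x s ≤ p → p < z → z ≤ g → ¬ V s z
  /-- if `g` is touched at time `b` and `g' > g` is visible later, while `g` is not popped, then up
  to this time `g'` is larger than all visible keys as long as it is not touched -/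
  hid : ∀ b g g' t, B b g → g < g' → V t g' → b < t → x t ≤ g → ∀ s, b ≤ s → s ≤ t →
    (∀ u, b ≤ u → u ≤ s → ¬ B u g') → ∀ v, V s v → v < g'
  /-- if `g` is touched at time `b`, `g1` was killed by `p1` before and not touched since, and `p1` is
  not popped, then a key `g'` between `g` and `g1` as in `hid` is at most `p1` -/
  nest : ∀ b g t1 p1 g1 g' t, B b g → K t1 p1 g1 → t1 < b → x b ≤ p1 →
    (∀ u, t1 < u → u ≤ b → ¬ B u g1) → g < g' → g' < g1 → V t g' → b < t → x t ≤ g → g' ≤ p1
  /-- a killed key which is visible again, without being touched, has lost its killer -/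
  prev : ∀ t1 p g t2, K t1 p g → t1 < t2 → V t2 g → (∀ u, t1 < u → u < t2 → ¬ B u g) → p < x t2
  /-- a key which is not touched is visible earlier, if a smaller key not popped is visible -/
  vis : ∀ t0 p0 v t, V t0 p0 → p0 < v → t0 < t → V t v → x t ≤ p0 →
    (∀ u, t0 < u → u < t → ¬ B u v) → V t0 v
  /-- at all but `io t` kills `(p, g)` the number of visible keys of `[g, w]` shrinks by a constant
  factor, for every `w` -/
  irr : ∀ t, t < m → ((Finset.range (n + 1)).filter (fun g => (∃ p, K t p g) ∧ ∃ w, g ≤ w ∧
      3 * ((Finset.Icc g w).filter (fun v => V t v)).card + 4 <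
        4 * ((Finset.Icc g w).filter (fun v => V t v ∧ ¬ ∃ p, K t p v)).card)).card ≤ io t
  /-- about one half of the visible keys is killed -/
  many : ∀ t, t < m → ((Finset.range (n + 1)).filter (fun v => V t v)).card ≤
    2 * ((Finset.range (n + 1)).filter (fun g => ∃ p, K t p g)).card + 4 + io t

namespace Pop

variable (P : Pop)

open scoped Classical in
/-- the kills, as pairs (time, victim) -/
noncomputable def kills : Finset (ℕ × ℕ) :=
  (Finset.range P.m ×ˢ Finset.range (P.n + 1)).filter (fun q => ∃ p, P.K q.1 p q.2)

open scoped Classical in
/-- the touches, as pairs (time, key) -/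
noncomputable def touches : Finset (ℕ × ℕ) :=
  (Finset.range P.m ×ˢ Finset.range (P.n + 1)).filter (fun q => P.B q.1 q.2)

/-- the number of kills -/
noncomputable def N : ℕ := P.kills.card

/-- the number of touches -/
noncomputable def th : ℕ := P.touches.card

/-- the number of irregularities -/
def iota : ℕ := ∑ t ∈ Finset.range P.m, P.io t

end Pop

end Pool.Agent.SplDq
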