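import Pool.Agent.SplLs.Fct
import Pool.Agent.SplLs.Defs
import Pool.Agent.SplDq.Pop

set_option autoImplicit false

/-!
# Requests which come from both ends: definitions

`Deq S M`: every request `< M` (left request) is at most all later requests, every request `≥ M`
(right request) is at least all later requests.  `xl S M t` is the last left request at a time
`≤ t`.  The keys `< M` are considered; `Vs`, `Ks`, `Bs` are the visible keys, the kills and the
touches from the right, see `Pop`.  `Tn S t`: the nodes above a turn on the right side of the search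
path.
-/

namespace Pool.Agent.SplDq

open Pool.Agent.SplLog Pool.Agent.SplLs
open scoped Classical

/-- The requests come from both ends. -/
structure Deq (S : Sys) (M : ℕ) : Prop where
  left : ∀ i j, i ≤ j → j < S.m → S.X i < M → S.X i ≤ S.X j
  right : ∀ i j, i ≤ j → j < S.m → M ≤ S.X i → S.X j ≤ S.X i

/-- The last left request at a time `≤ t`. -/
noncomputable def xl (S : Sys) (M t : ℕ) : ℕ :=
  ((Finset.range (t + 1)).filter (fun s => s < S.m ∧ S.X s < M)).sup S.X

/-- visible keys -/
def Vs (S : Sys) (M t v : ℕ) : Prop := S.R t v ∧ v < M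

/-- kills among the keys `< M` -/
def Ks (S : Sys) (M t p g : ℕ) : Prop := S.Kl t g p ∧ g < M

/-- touches from the right -/
def Bs (S : Sys) (M t v : ℕ) : Prop := S.L t v ∧ v < M ∧ M ≤ S.X t ∧ xl S M t < v

/-- the nodes above a turn -/
noncomputable def Tn (S : Sys) (t : ℕ) : Finset ℕ :=
  S.K.filter (fun v => S.R t v ∧ ∃ y, S.R t y ∧ S.rho t y = v ∧ S.lam t v ≠ S.lam t y)

/-- the number of nodes of the search path smaller than the request -/
noncomputable def nL (S : Sys) (t : ℕ) : ℕ := (S.K.filter (fun v => S.L t v)).card

/-- irregularities -/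
noncomputable def Io (S : Sys) (M t : ℕ) : ℕ := if t < S.m ∧ S.X t < M then 4 * nL S t else 0

/-- the number of touches of the requests `< M` on the right side -/
noncomputable def fR (S : Sys) (M : ℕ) : ℕ :=
  ∑ t ∈ (Finset.range S.m).filter (fun t => S.X t < M), (S.K.filter (fun v => S.R t v)).card

/-- the number of touches of the requests `< M` on the right side, of the keys `≥ M` -/
noncomputable def fU (S : Sys) (M : ℕ) : ℕ :=
  ∑ t ∈ (Finset.range S.m).filter (fun t => S.X t < M),
    (S.K.filter (fun v => S.R t v ∧ M ≤ v)).card

/-- The keys `≥ M` whose subtree interval begins before `M`. -/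
noncomputable def Gp (S : Sys) (M t : ℕ) : Finset ℕ :=
  S.K.filter (fun v => M ≤ v ∧ S.lam t v < M)

end Pool.Agent.SplDq
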