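import Pool.Agent.SplDq.ToPop
import Pool.Agent.SplLs.Fin

set_option autoImplicit false

/-!
# Splaying requests from both ends is linear
-/

namespace Pool.Agent.SplDq

open BinaryTree Pool.Agent.MP_c42954_lc.Scan Pool.Agent.SplLog Pool.Agent.SplPat Pool.Agent.SplLs

/-- No request lies strictly between two later requests. -/
def EndReq (X : List ℕ) : Prop :=
  ∀ i j k : Fin X.length, i < j → i < k → ¬ (X.get j < X.get i ∧ X.get i < X.get k)

/-- **Z1.**  (`z` = last request; `M = z + 1` if no request after the first request of `z` is smaller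
than `z`, else `M = z`.) -/
theorem exists_cut (S : Sys) (h : ∀ i j k, i < j → j < S.m → i < k → k < S.m →
    ¬ (S.X j < S.X i ∧ S.X i < S.X k)) : ∃ M, M ≤ S.top ∧ Deq S M := by
  classical
  rcases Nat.eq_zero_or_pos S.m with h0 | h0
  · exact ⟨0, Nat.zero_le _, ⟨fun i j _ hj _ => by omega, fun i j _ hj _ => by omega⟩⟩
  obtain ⟨z, hz⟩ : ∃ z, z = S.X (S.m - 1) := ⟨_, rfl⟩
  have hex : ∃ i, i < S.m ∧ S.X i = z := ⟨S.m - 1, by omega, hz.symm⟩
  obtain ⟨f, hf⟩ : ∃ f, f = Nat.find hex := ⟨_, rfl⟩
  have hf1 : f < S.m ∧ S.X f = z := by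
    rw [hf]
    exact Nat.find_spec hex
  have hf2 : ∀ i, i < S.m → S.X i = z → f ≤ i := by
    intro i hi hiz
    rw [hf]
    exact Nat.find_min' hex ⟨hi, hiz⟩
  have hzt : z < S.top := by
    rw [hz]
    exact (S.key _ (S.req _ (by omega))).2
  have hl : ∀ i j, i ≤ j → j < S.m → S.X i < z → S.X i ≤ S.X j := by
    intro i j hij hj hi
    by_contra hc
    have hne : i ≠ j := by
      rintro rfl
      omega
    have hjm : j ≠ S.m - 1 := by
      rintro rfl
      omega
    refine h i j (S.m - 1) (by omega) hj (by omega) (by omega) ⟨by omega, ?_⟩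
    rw [← hz]
    exact hi
  have hr : ∀ i j, i ≤ j → j < S.m → z < S.X i → S.X j ≤ S.X i := by
    intro i j hij hj hi
    by_contra hc
    have hne : i ≠ j := by
      rintro rfl
      omega
    have hjm : i ≠ S.m - 1 := by
      rintro rfl
      omega
    refine h i (S.m - 1) j (by omega) (by omega) (by omega) hj ⟨?_, by omega⟩
    rw [← hz]
    exact hi
  by_cases hA : ∀ j, f < j → j < S.m → z ≤ S.X j
  · refine ⟨z + 1, hzt, ⟨fun i j hij hj hi => ?_, fun i j hij hj hi => hr i j hij hj (by omega)⟩⟩
    rcases Nat.lt_or_ge (S.X i) z with h1 | h1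
    · exact hl i j hij hj h1
    · have h2 : S.X i = z := by omega
      have h3 := hf2 i (by omega) h2
      rcases Nat.eq_or_lt_of_le hij with h4 | h4
      · rw [h4]
      · have := hA j (by omega) hj
        omega
  · push Not at hA
    obtain ⟨j0, hj1, hj2, hj3⟩ := hA
    refine ⟨z, hzt.le, ⟨fun i j hij hj hi => hl i j hij hj hi, fun i j hij hj hi => ?_⟩⟩
    rcases Nat.lt_or_ge z (S.X i) with h1 | h1
    · exact hr i j hij hj h1
    · have h2 : S.X i = z := by omega
      have h3 := hf2 i (by omega) h2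
      by_contra hc
      have hne : i ≠ j := by
        rintro rfl
        omega
      exact h f j0 j hj1 hj2 (by omega) hj ⟨by omega, by omega⟩

/-- **Z2.** -/
theorem run_le : ∃ C : ℕ, ∀ (T : BinaryTree ℕ) (X : ℕ → ℕ) (m : ℕ), IsBST T →
    (∀ t, t < m → X t ∈ inorder T) → (∀ v ∈ inorder T, 1 ≤ v ∧ v ≤ (inorder T).length) →
    (∀ i j k, i < j → j < m → i < k → k < m → ¬ (X j < X i ∧ X i < X k)) →
    ∑ t ∈ Finset.range m, depth (X t) (tr T X t) ≤ C * (m + (inorder T).length) := by
  classical
  obtain ⟨C, hC⟩ := cost_le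
  refine ⟨C, ?_⟩
  intro T X m hb hX hA hend
  have hB : Bd 0 ((inorder T).length + 1) T := by
    intro v hv
    have h1 := hA v hv
    exact ⟨by omega, by omega⟩
  set S := sysOf T X m ((inorder T).length + 1) hb hX hB with hS
  have hT : Thr S := thr_sys hb hX hB
  have hT' : Thr S.mir := thr_mir hb hX hB
  have hpw : (inorder T).Pairwise (· < ·) := hb
  have hnd : (inorder T).Nodup := hpw.imp (fun {a b} hab => Nat.ne_of_lt hab)
  have hcard : S.K.card = (inorder T).length := List.toFinset_card_of_nodup hnd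
  obtain ⟨M, hM, hD⟩ := exists_cut S (fun i j k h1 h2 h3 h4 => hend i j k h1 h2 h3 h4)
  have htop : S.top ≤ S.K.card + 1 := by
    rw [hcard]
    exact le_refl _
  have h1 := hC S M hD hM hT hT' htop
  have h2 : ∑ t ∈ Finset.range m, depth (X t) (tr T X t) ≤
      ∑ t ∈ Finset.range S.m, (S.K.filter (fun v => v ≠ S.X t ∧ S.E t v)).card := by
    apply Finset.sum_le_sum
    intro t ht
    rw [Finset.mem_range] at ht
    refine (depth_le hb hX hB ht).trans (le_of_eq ?_)
    congr 1
  refine (h2.trans h1).trans (Nat.mul_le_mul_left _ ?_)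
  rw [hcard]
  have h3 : S.m = m := rfl
  omega

/-- **Z3.** -/
theorem splay_ends : ∃ C : ℕ, ∀ (T : BinaryTree ℕ) (X : List ℕ), IsBST T →
    (∀ x ∈ X, x ∈ inorder T) → EndReq X →
    splayCost X T ≤ C * (X.length + (inorder T).length) := by
  obtain ⟨C, hC⟩ := run_le
  refine ⟨C + 1, fun T X hb hX hend => ?_⟩
  rcases Nat.eq_zero_or_pos X.length with h0 | h0
  · have : X = [] := List.length_eq_zero_iff.mp h0
    subst this
    simp [splayCost]
  set K := inorder T with hK
  set n := K.length with hnd
  set f : ℕ → ℕ := fun v => 1 + REL_rank K v with hf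
  set X' := X.map f with hX'
  set T' := mapT f T with hT'
  have hlen : X'.length = X.length := List.length_map _
  have hfl : ∀ a ∈ K, ∀ b, a < b → f a < f b := by
    intro a ha b hab
    have := REL_rank_lt K ha hab
    simp only [hf]
    omega
  have hb' : IsBST T' := by
    have h1 : (K.map f).Pairwise (· < ·) := by
      rw [List.pairwise_map]
      have hpw : K.Pairwise (· < ·) := hb
      refine List.Pairwise.imp_of_mem (fun {a b} ha hb' hab => ?_) hpw
      exact hfl a ha b hab
    unfold IsBST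
    rw [hT', mapT_inorder]
    exact h1
  have hmem' : ∀ x ∈ X', x ∈ inorder T' := by
    intro x hx
    rw [hX', List.mem_map] at hx
    obtain ⟨y, hy, rfl⟩ := hx
    rw [hT', mapT_inorder]
    exact List.mem_map_of_mem (hX y hy)
  have hcost : splayCost X' T' = splayCost X T :=
    REL_cost (fun x hx a ha => ⟨fun h => hfl _ hx _ h, fun h => hfl _ ha _ h⟩) X T hb rfl hX
  have hlen' : (inorder T').length = n := by
    rw [hT', mapT_inorder, List.length_map]
  have hrng : ∀ v ∈ inorder T', 1 ≤ v ∧ v ≤ (inorder T').length := by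
    intro v hv
    rw [hlen']
    rw [hT', mapT_inorder, List.mem_map] at hv
    obtain ⟨y, hy, rfl⟩ := hv
    have h1 := REL_rank_len K hy
    simp only [hf]
    omega
  have hend' : ∀ i j k, i < j → j < X'.length → i < k → k < X'.length →
      ¬ (X'.getD j 0 < X'.getD i 0 ∧ X'.getD i 0 < X'.getD k 0) := by
    intro i j k hij hj hik hk
    rw [hlen] at hj hk
    have hi : i < X.length := by omega
    have h2 : ∀ a (ha : a < X.length), X'.getD a 0 = f (X.get ⟨a, ha⟩) := by
      intro a ha
      rw [List.getD_eq_getElem _ 0 (by rw [List.length_map]; exact ha), List.getElem_map]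
      rfl
    rw [h2 i hi, h2 j hj, h2 k hk]
    rintro ⟨h3, h4⟩
    have hmono : ∀ a b, f a < f b → a < b := by
      intro a b hab
      by_contra hc
      have := REL_rank_mono K (not_lt.mp hc)
      simp only [hf] at hab
      omega
    exact hend ⟨i, hi⟩ ⟨j, hj⟩ ⟨k, hk⟩ hij hik ⟨hmono _ _ h3, hmono _ _ h4⟩
  have h5 := hC T' (fun i => X'.getD i 0) X'.length hb' (getD_mem hmem') hrng hend'
  have h6 := cost_eq X' T'
  rw [hcost] at h6
  rw [h6, hlen]
  rw [hlen, hlen'] at h5
  calc X.length + ∑ t ∈ Finset.range X.length,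
        depth (X'.getD t 0) (tr T' (fun s => X'.getD s 0) t)
      ≤ (X.length + n) + C * (X.length + n) := Nat.add_le_add (by omega) h5
    _ = (C + 1) * (X.length + n) := by ring

end Pool.Agent.SplDq
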