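import Pool.Agent.SplDq.NrD

/-! # FAR, part 0: good kills, scales, the reduction F5 -/

set_option autoImplicit false

namespace Pool.Agent.SplDq

/-- The step of the grid at scale `k`. -/
def fh (k : ℕ) : ℕ := 2 ^ (k - 2)

/-- The grid point above `p` at scale `k`: the least multiple of `fh k` which is larger than `p`. -/
def fm (k p : ℕ) : ℕ := (p / fh k + 1) * fh k

/-- MODULE F0A (size 1). -/
theorem fh_bd (k : ℕ) : 0 < fh k ∧ fh k ≤ 2 ^ k ∧ 2 ^ k ≤ 4 * fh k ∧ fh k ∣ 2 ^ (k + 1) ∧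
    2 ^ (k + 1) ≤ 8 * fh k := by
  unfold fh
  have h1 : 2 ^ k ≤ 4 * 2 ^ (k - 2) := by
    have : 4 * 2 ^ (k - 2) = 2 ^ (k - 2 + 2) := by rw [pow_add]; ring
    rw [this]
    exact Nat.pow_le_pow_right (by norm_num) (by omega)
  refine ⟨by positivity, Nat.pow_le_pow_right (by norm_num) (by omega), h1,
    Nat.pow_dvd_pow 2 (by omega), ?_⟩
  rw [pow_succ]
  omega

/-- MODULE F0B (size 1). -/
theorem fm_bd (k p : ℕ) : fh k ∣ fm k p ∧ p < fm k p ∧ fm k p ≤ p + fh k ∧
    fh k ≤ fm k p := by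
  have h0 := (fh_bd k).1
  have h1 := Nat.div_add_mod p (fh k)
  have h2 := Nat.mod_lt p h0
  unfold fm
  generalize fh k = f at *
  have e : (p / f + 1) * f = f * (p / f) + f := by ring
  refine ⟨Dvd.intro_left _ rfl, ?_, ?_, ?_⟩
  · rw [e]; omega
  · rw [e]; omega
  · rw [e]; omega

namespace Pop

variable (P : Pop)

/-- GOOD kills: far, the victim is not the largest visible key, regular, and there is an earlier far
kill of the same victim, not touched in between. -/
structure Good (t p g : ℕ) : Prop where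
  kill : P.K t p g
  far : g - p ≤ p - P.x t
  rt : ∃ w, P.V t w ∧ g < w
  reg : P.Reg t g
  prev : ∃ t' p', t' < t ∧ P.K t' p' g ∧ g - p' ≤ p' - P.x t' ∧
    ∀ u, t' < u → u < t → ¬ P.B u g

open scoped Classical in
/-- The good kills, as pairs (time, victim). -/
noncomputable def goodK : Finset (ℕ × ℕ) :=
  P.kills.filter (fun q => ∃ p, P.Good q.1 p q.2)

/-- The number of good kills. -/
noncomputable def NG : ℕ := P.goodK.card

open scoped Classical in
/-- The times with a good kill of scale `k` over `mu`. -/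
noncomputable def QF (k mu : ℕ) : Finset ℕ :=
  (Finset.range P.m).filter (fun t => ∃ p g, P.Good t p g ∧ Nat.log 2 (g - p) = k ∧ fm k p = mu)

open scoped Classical in
/-- The grid points of scale `k` with good kills. -/
noncomputable def Mu (k : ℕ) : Finset ℕ :=
  (Finset.range (P.n + 1)).filter (fun mu => (P.QF k mu).Nonempty)

/-- The touches of keys of `[mu, mu + 2 ^ (k + 1))`. -/
noncomputable def TF (k mu : ℕ) : Finset (ℕ × ℕ) :=
  P.touches.filter (fun q => mu ≤ q.2 ∧ q.2 < mu + 2 ^ (k + 1))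

variable {P}

/-- MODULE F0C (size 1). `K_V`, `V_dom`. -/
theorem K_dom {t p g : ℕ} (h : P.K t p g) : t < P.m ∧ P.x t < p ∧ p < g ∧ g ≤ P.n ∧
    (t, g) ∈ P.kills := by
  classical
  obtain ⟨h1, h2, h3, -⟩ := P.K_V t p g h
  obtain ⟨a1, a2, -⟩ := P.V_dom t p h1
  obtain ⟨-, -, a3⟩ := P.V_dom t g h2
  refine ⟨a1, a2, h3, a3, ?_⟩
  unfold kills
  rw [Finset.mem_filter, Finset.mem_product, Finset.mem_range, Finset.mem_range]
  exact ⟨⟨a1, by omega⟩, p, h⟩

/-- MODULE F0D (size 1). Arithmetic of a far kill of scale `k`: `fh_bd`, `fm_bd`, `K_dom`,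
`Nat.pow_log_le_self`, `Nat.lt_pow_succ_log_self`. (`g - p < 2 ^ (k + 1)`, `2 ^ k ≤ g - p ≤ p - x`, so `x + fh k ≤ p`.) -/
theorem far_bd {t p g k : ℕ} (h : P.K t p g) (hf : g - p ≤ p - P.x t)
    (hk : Nat.log 2 (g - p) = k) :
    P.x t < fm k p - fh k ∧ fm k p - fh k ≤ p ∧ p < fm k p ∧ fm k p ≤ g ∧
      g < fm k p + 2 ^ (k + 1) ∧ P.x t + 2 ^ (k + 1) ≤ g ∧ fm k p ≤ P.n := by
  obtain ⟨-, h2, h3, h4, -⟩ := K_dom h
  have h5 : 2 ^ k ≤ g - p := by
    rw [← hk]
    exact Nat.pow_log_le_self 2 (by omega)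
  have h6 : g - p < 2 ^ (k + 1) := by
    rw [← hk]
    exact Nat.lt_pow_succ_log_self (by norm_num) _
  obtain ⟨f1, f2, f3, f4, f5⟩ := fh_bd k
  obtain ⟨m1, m2, m3, m4⟩ := fm_bd k p
  have h7 : 2 ^ (k + 1) = 2 * 2 ^ k := by ring
  rw [h7] at h6 ⊢
  refine ⟨?_, by omega, m2, by omega, by omega, by omega, by omega⟩
  omega

open scoped Classical in
/-- MODULE F5A (size 1). Kills of the largest visible key: at most one at a time (injection
`q ↦ q.1` into `range m`: `K_V`). -/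
theorem root_card (P : Pop) :
    (P.kills.filter (fun q => ∀ w, P.V q.1 w → w ≤ q.2)).card ≤ P.m := by
  rw [← Finset.card_range P.m]
  refine Finset.card_le_card_of_injOn (fun q => q.1) ?_ ?_
  · intro q hq
    rw [Finset.mem_coe, Finset.mem_filter] at hq
    unfold kills at hq
    rw [Finset.mem_filter, Finset.mem_product] at hq
    exact hq.1.1.1
  · intro q hq q' hq' he
    rw [Finset.mem_coe, Finset.mem_filter] at hq hq'
    unfold kills at hq hq'
    rw [Finset.mem_filter] at hq hq'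
    obtain ⟨⟨-, p, hp⟩, h1⟩ := hq
    obtain ⟨⟨-, p', hp'⟩, h1'⟩ := hq'
    dsimp only at he
    have a1 := h1 q'.2 (by rw [he]; exact (P.K_V _ _ _ hp').2.1)
    have a2 := h1' q.2 (by rw [← he]; exact (P.K_V _ _ _ hp).2.1)
    exact Prod.ext he (le_antisymm a2 a1)

open scoped Classical in
/-- MODULE F5B (size 1). The irregular victims: `irr`, summed over the times (`Finset.card_sigma` or
`Finset.card_eq_sum_card_fiberwise` for `q ↦ q.1`). -/
theorem irreg_card (P : Pop) :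
    (P.kills.filter (fun q => ¬ P.Reg q.1 q.2)).card ≤ P.iota := by
  have h1 : ∀ q ∈ P.kills.filter (fun q => ¬ P.Reg q.1 q.2), q.1 ∈ Finset.range P.m := by
    intro q hq
    rw [Finset.mem_filter] at hq
    unfold kills at hq
    rw [Finset.mem_filter, Finset.mem_product] at hq
    exact hq.1.1.1
  rw [Finset.card_eq_sum_card_fiberwise h1]
  unfold iota
  refine Finset.sum_le_sum ?_
  intro t ht
  refine le_trans ?_ (P.irr t (Finset.mem_range.mp ht))
  refine Finset.card_le_card_of_injOn (fun q => q.2) ?_ ?_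
  · intro q hq
    rw [Finset.mem_coe, Finset.mem_filter, Finset.mem_filter] at hq
    obtain ⟨⟨hk, hr⟩, he⟩ := hq
    unfold kills at hk
    rw [Finset.mem_filter, Finset.mem_product] at hk
    obtain ⟨⟨-, hn⟩, p, hp⟩ := hk
    rw [he] at hp hr
    rw [Finset.mem_coe, Finset.mem_filter]
    refine ⟨hn, ⟨p, hp⟩, ?_⟩
    unfold Reg at hr
    push Not at hr
    obtain ⟨w, hw, hw2⟩ := hr
    refine ⟨w, hw, ?_⟩
    simpa only [not_exists] using hw2
  · intro q hq q' hq' he
    rw [Finset.mem_coe, Finset.mem_filter] at hq hq'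
    exact Prod.ext (hq.2.trans hq'.2.symm) he

open scoped Classical in
/-- MODULE F5C (size 2). The kills of `g` without an earlier kill of `g` after the last touch of `g`: injection into
`touches ∪ ({P.m} ×ˢ Icc 1 n)`: `(t, g) ↦ (b, g)`, `b` = the last touch of `g` before `t`, or `(P.m, g)` if there is none. (If `(t1, g)`, `(t2, g)`, `t1 < t2`, have the same image then `g` is not
touched in `(t1, t2)`: by `B_V` also not at `t1`.) -/
theorem first_card (P : Pop) :
    (P.kills.filter (fun q => ∀ t' p', t' < q.1 → P.K t' p' q.2 →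
      ∃ u, t' < u ∧ u < q.1 ∧ P.B u q.2)).card ≤ P.th + P.n := by
  have hb : ∀ q : ℕ × ℕ, ∃ b : ℕ, ((b = P.m ∧ ∀ u < q.1, ¬ P.B u q.2) ∨
      (b < q.1 ∧ P.B b q.2 ∧ ∀ u, b < u → u < q.1 → ¬ P.B u q.2)) := by
    intro q
    by_cases h : ∃ u < q.1, P.B u q.2
    · obtain ⟨u, hu, hu'⟩ := h
      have hne : ((Finset.range q.1).filter (fun u => P.B u q.2)).Nonempty :=
        ⟨u, by rw [Finset.mem_filter, Finset.mem_range]; exact ⟨hu, hu'⟩⟩
      have h1 := Finset.max'_mem _ hne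
      rw [Finset.mem_filter, Finset.mem_range] at h1
      refine ⟨_, Or.inr ⟨h1.1, h1.2, ?_⟩⟩
      intro v hv hv' hB
      have h2 := Finset.le_max' ((Finset.range q.1).filter (fun u => P.B u q.2)) v
        (by rw [Finset.mem_filter, Finset.mem_range]; exact ⟨hv', hB⟩)
      omega
    · exact ⟨P.m, Or.inl ⟨rfl, fun u hu hB => h ⟨u, hu, hB⟩⟩⟩
  choose b hb using hb
  have hcard : (P.touches ∪ ({P.m} ×ˢ Finset.Icc 1 P.n)).card ≤ P.th + P.n := by
    refine (Finset.card_union_le _ _).trans ?_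
    rw [Finset.card_product, Finset.card_singleton, Nat.card_Icc]
    unfold th
    omega
  refine le_trans (Finset.card_le_card_of_injOn (fun q => (b q, q.2)) ?_ ?_) hcard
  · intro q hq
    rw [Finset.mem_coe, Finset.mem_filter] at hq
    obtain ⟨hk, -⟩ := hq
    unfold kills at hk
    rw [Finset.mem_filter, Finset.mem_product, Finset.mem_range, Finset.mem_range] at hk
    obtain ⟨⟨h1, h2⟩, p, hp⟩ := hk
    have h3 := K_dom hp
    rw [Finset.mem_coe, Finset.mem_union]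
    rcases hb q with ⟨h4, -⟩ | ⟨h4, h5, -⟩
    · right
      rw [Finset.mem_product, Finset.mem_singleton, Finset.mem_Icc]
      exact ⟨h4, by dsimp only; omega, by dsimp only; omega⟩
    · left
      unfold touches
      rw [Finset.mem_filter, Finset.mem_product, Finset.mem_range, Finset.mem_range]
      exact ⟨⟨by dsimp only; omega, by dsimp only; omega⟩, h5⟩
  · have key : ∀ q q' : ℕ × ℕ, q ∈ P.kills → q'.1 < P.m + 1 →
        (∀ t' p', t' < q'.1 → P.K t' p' q'.2 → ∃ u, t' < u ∧ u < q'.1 ∧ P.B u q'.2) →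
        q.2 = q'.2 → b q = b q' → ¬ q.1 < q'.1 := by
      intro q q' hk hm hf h2 h3 hlt
      unfold kills at hk
      rw [Finset.mem_filter] at hk
      obtain ⟨-, p, hp⟩ := hk
      rw [h2] at hp
      obtain ⟨u, hu1, hu2, hu3⟩ := hf q.1 p hlt hp
      have hV := (P.K_V _ _ _ hp).2.1
      have hm' := (P.V_dom _ _ hV).1
      rcases hb q' with ⟨h4, h5⟩ | ⟨h4, h5, h6⟩
      · exact h5 u hu2 hu3
      · rcases hb q with ⟨h7, h8⟩ | ⟨h7, h8, h9⟩
        · omega
        · rw [h3] at h7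
          rcases Nat.lt_or_ge (b q') u with h10 | h10
          · exact h6 u h10 hu2 hu3
          · omega
    intro q hq q' hq' he
    rw [Finset.mem_coe, Finset.mem_filter] at hq hq'
    obtain ⟨e1, e2⟩ := Prod.mk.inj he
    have hm : ∀ q ∈ P.kills, q.1 < P.m + 1 := by
      intro q hk
      unfold kills at hk
      rw [Finset.mem_filter, Finset.mem_product, Finset.mem_range] at hk
      omega
    have k1 := key q q' hq.1 (hm q' hq'.1) hq'.2 e2 e1
    have k2 := key q' q hq'.1 (hm q hq.1) hq.2 e2.symm e1.symm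
    exact Prod.ext (by omega) e2

open scoped Classical in
/-- MODULE F5D (size 1). The kills whose previous kill `(t', g)` is near: injection
`(t, g) ↦ (t', g)` into `nearK`. -/
theorem prevnear_card (P : Pop) :
    (P.kills.filter (fun q => ∃ t' p', t' < q.1 ∧ P.K t' p' q.2 ∧ p' - P.x t' < q.2 - p' ∧
      ∀ u, t' < u → u < q.1 → ¬ ∃ p'', P.K u p'' q.2)).card ≤ P.NN := by
  have hc : ∀ q : ℕ × ℕ, ∃ t' : ℕ, q ∈ P.kills.filter (fun q => ∃ t' p', t' < q.1 ∧
      P.K t' p' q.2 ∧ p' - P.x t' < q.2 - p' ∧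
      ∀ u, t' < u → u < q.1 → ¬ ∃ p'', P.K u p'' q.2) → ∃ p', t' < q.1 ∧
      P.K t' p' q.2 ∧ p' - P.x t' < q.2 - p' ∧
      ∀ u, t' < u → u < q.1 → ¬ ∃ p'', P.K u p'' q.2 := by
    intro q
    by_cases h : q ∈ P.kills.filter (fun q => ∃ t' p', t' < q.1 ∧
      P.K t' p' q.2 ∧ p' - P.x t' < q.2 - p' ∧
      ∀ u, t' < u → u < q.1 → ¬ ∃ p'', P.K u p'' q.2)
    · obtain ⟨t', p', h1⟩ := (Finset.mem_filter.mp h).2
      exact ⟨t', fun _ => ⟨p', h1⟩⟩
    · exact ⟨0, fun h' => absurd h' h⟩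
  choose b hb using hc
  unfold NN
  refine Finset.card_le_card_of_injOn (fun q => (b q, q.2)) ?_ ?_
  · intro q hq
    obtain ⟨p', h1, h2, h3, -⟩ := hb q hq
    have h4 := K_dom h2
    rw [Finset.mem_coe]
    unfold nearK
    rw [Finset.mem_filter]
    exact ⟨h4.2.2.2.2, p', h2, h3⟩
  · intro q hq q' hq' he
    obtain ⟨e1, e2⟩ := Prod.mk.inj he
    obtain ⟨p1, a1, a2, a3, a4⟩ := hb q hq
    obtain ⟨p2, b1, b2, b3, b4⟩ := hb q' hq'
    have hk : ∀ q : ℕ × ℕ, q ∈ P.kills.filter (fun q => ∃ t' p', t' < q.1 ∧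
      P.K t' p' q.2 ∧ p' - P.x t' < q.2 - p' ∧
      ∀ u, t' < u → u < q.1 → ¬ ∃ p'', P.K u p'' q.2) → ∃ p, P.K q.1 p q.2 := by
      intro q hq
      have := (Finset.mem_filter.mp hq).1
      unfold kills at this
      exact (Finset.mem_filter.mp this).2
    refine Prod.ext ?_ e2
    rcases Nat.lt_trichotomy q.1 q'.1 with h | h | h
    · exfalso
      refine b4 q.1 (by omega) h ?_
      obtain ⟨p, hp⟩ := hk q hq
      exact ⟨p, by rw [← e2]; exact hp⟩
    · exact h
    · exfalso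
      refine a4 q'.1 (by omega) h ?_
      obtain ⟨p, hp⟩ := hk q' hq'
      exact ⟨p, by rw [e2]; exact hp⟩

/-- MODULE F5 (size 2). THE REDUCTION. Every kill is near, or belongs to one of the sets of F5A - F5D, or is good: if it
is not of type F5C there is an earlier kill `t'` of the same victim without touch in between; take the
last one; if it is near then F5D. (`Finset.card_le_card`, `Finset.card_union_le`.) -/
theorem reduce (P : Pop) : P.N ≤ 2 * P.NN + P.m + P.iota + P.th + P.n + P.NG := by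
  classical
  have hsub : P.kills ⊆ P.nearK ∪ (P.kills.filter (fun q => ∀ w, P.V q.1 w → w ≤ q.2) ∪
      (P.kills.filter (fun q => ¬ P.Reg q.1 q.2) ∪
      (P.kills.filter (fun q => ∀ t' p', t' < q.1 → P.K t' p' q.2 →
        ∃ u, t' < u ∧ u < q.1 ∧ P.B u q.2) ∪
      (P.kills.filter (fun q => ∃ t' p', t' < q.1 ∧ P.K t' p' q.2 ∧ p' - P.x t' < q.2 - p' ∧
        ∀ u, t' < u → u < q.1 → ¬ ∃ p'', P.K u p'' q.2) ∪ P.goodK)))) := by
    intro q hq
    have hq' := hq
    unfold kills at hq'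
    rw [Finset.mem_filter] at hq'
    obtain ⟨-, p, hp⟩ := hq'
    rw [Finset.mem_union]
    by_cases h1 : p - P.x q.1 < q.2 - p
    · left
      unfold nearK
      rw [Finset.mem_filter]
      exact ⟨hq, p, hp, h1⟩
    right
    rw [Finset.mem_union]
    by_cases h2 : ∀ w, P.V q.1 w → w ≤ q.2
    · left
      rw [Finset.mem_filter]
      exact ⟨hq, h2⟩
    right
    rw [Finset.mem_union]
    by_cases h3 : P.Reg q.1 q.2
    swap
    · left
      rw [Finset.mem_filter]
      exact ⟨hq, h3⟩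
    right
    rw [Finset.mem_union]
    by_cases h4 : ∀ t' p', t' < q.1 → P.K t' p' q.2 → ∃ u, t' < u ∧ u < q.1 ∧ P.B u q.2
    · left
      rw [Finset.mem_filter]
      exact ⟨hq, h4⟩
    right
    rw [Finset.mem_union]
    push Not at h4
    obtain ⟨t0, p0, h5, h6, h7⟩ := h4
    have hne : ((Finset.range q.1).filter (fun t' => ∃ p', P.K t' p' q.2)).Nonempty :=
      ⟨t0, by rw [Finset.mem_filter, Finset.mem_range]; exact ⟨h5, p0, h6⟩⟩
    obtain ⟨t1, ht1, hmax⟩ : ∃ t1 ∈ (Finset.range q.1).filter (fun t' => ∃ p', P.K t' p' q.2),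
        ∀ t ∈ (Finset.range q.1).filter (fun t' => ∃ p', P.K t' p' q.2), t ≤ t1 :=
      ⟨_, Finset.max'_mem _ hne, fun t ht => Finset.le_max' _ t ht⟩
    have h8 := hmax t0 (by rw [Finset.mem_filter, Finset.mem_range]; exact ⟨h5, p0, h6⟩)
    rw [Finset.mem_filter, Finset.mem_range] at ht1
    obtain ⟨h9, p1, h10⟩ := ht1
    by_cases h11 : p1 - P.x t1 < q.2 - p1
    · left
      rw [Finset.mem_filter]
      refine ⟨hq, t1, p1, h9, h10, h11, ?_⟩
      intro u hu hu' hk
      have := hmax u (by rw [Finset.mem_filter, Finset.mem_range]; exact ⟨hu', hk⟩)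
      omega
    right
    unfold goodK
    rw [Finset.mem_filter]
    push Not at h2
    obtain ⟨w, hw, hw2⟩ := h2
    exact ⟨hq, p, hp, by omega, ⟨w, hw, hw2⟩, h3, t1, p1, h9, h10, by omega,
      fun u hu hu' => h7 u (by omega) hu'⟩
  have hc := Finset.card_le_card hsub
  have c1 := Finset.card_union_le P.nearK (P.kills.filter (fun q => ∀ w, P.V q.1 w → w ≤ q.2) ∪
      (P.kills.filter (fun q => ¬ P.Reg q.1 q.2) ∪
      (P.kills.filter (fun q => ∀ t' p', t' < q.1 → P.K t' p' q.2 →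
        ∃ u, t' < u ∧ u < q.1 ∧ P.B u q.2) ∪
      (P.kills.filter (fun q => ∃ t' p', t' < q.1 ∧ P.K t' p' q.2 ∧ p' - P.x t' < q.2 - p' ∧
        ∀ u, t' < u → u < q.1 → ¬ ∃ p'', P.K u p'' q.2) ∪ P.goodK))))
  have c2 := Finset.card_union_le (P.kills.filter (fun q => ∀ w, P.V q.1 w → w ≤ q.2))
      (P.kills.filter (fun q => ¬ P.Reg q.1 q.2) ∪
      (P.kills.filter (fun q => ∀ t' p', t' < q.1 → P.K t' p' q.2 →
        ∃ u, t' < u ∧ u < q.1 ∧ P.B u q.2) ∪
      (P.kills.filter (fun q => ∃ t' p', t' < q.1 ∧ P.K t' p' q.2 ∧ p' - P.x t' < q.2 - p' ∧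
        ∀ u, t' < u → u < q.1 → ¬ ∃ p'', P.K u p'' q.2) ∪ P.goodK)))
  have c3 := Finset.card_union_le (P.kills.filter (fun q => ¬ P.Reg q.1 q.2))
      (P.kills.filter (fun q => ∀ t' p', t' < q.1 → P.K t' p' q.2 →
        ∃ u, t' < u ∧ u < q.1 ∧ P.B u q.2) ∪
      (P.kills.filter (fun q => ∃ t' p', t' < q.1 ∧ P.K t' p' q.2 ∧ p' - P.x t' < q.2 - p' ∧
        ∀ u, t' < u → u < q.1 → ¬ ∃ p'', P.K u p'' q.2) ∪ P.goodK))
  have c4 := Finset.card_union_le (P.kills.filter (fun q => ∀ t' p', t' < q.1 → P.K t' p' q.2 →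
        ∃ u, t' < u ∧ u < q.1 ∧ P.B u q.2))
      (P.kills.filter (fun q => ∃ t' p', t' < q.1 ∧ P.K t' p' q.2 ∧ p' - P.x t' < q.2 - p' ∧
        ∀ u, t' < u → u < q.1 → ¬ ∃ p'', P.K u p'' q.2) ∪ P.goodK)
  have c5 := Finset.card_union_le (P.kills.filter (fun q => ∃ t' p', t' < q.1 ∧
        P.K t' p' q.2 ∧ p' - P.x t' < q.2 - p' ∧
        ∀ u, t' < u → u < q.1 → ¬ ∃ p'', P.K u p'' q.2)) P.goodK
  have d1 := root_card P
  have d2 := irreg_card P
  have d3 := first_card P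
  have d4 := prevnear_card P
  unfold N NG
  have d5 : P.NN = P.nearK.card := rfl
  omega

open scoped Classical in
/-- MODULE F4A (size 1). `q ↦ (k, fm k p, q.1)`; for one `(k, mu)` the kill at a time `t` is unique
(`K_mu`, `far_bd`). -/
theorem NG_le (P : Pop) :
    P.NG ≤ ∑ k ∈ Finset.range (Nat.log 2 P.n + 1), ∑ mu ∈ P.Mu k, (P.QF k mu).card := by
  have hc : ∀ q : ℕ × ℕ, ∃ p : ℕ, q ∈ P.goodK → P.Good q.1 p q.2 := by
    intro q
    by_cases h : q ∈ P.goodK
    · obtain ⟨p, hp⟩ := (Finset.mem_filter.mp h).2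
      exact ⟨p, fun _ => hp⟩
    · exact ⟨0, fun h' => absurd h' h⟩
  choose p hp using hc
  have e : ∑ k ∈ Finset.range (Nat.log 2 P.n + 1), ∑ mu ∈ P.Mu k, (P.QF k mu).card =
      ((Finset.range (Nat.log 2 P.n + 1)).sigma
        (fun k => (P.Mu k).sigma (fun mu => P.QF k mu))).card := by
    rw [Finset.card_sigma]
    refine Finset.sum_congr rfl ?_
    intro k _
    rw [Finset.card_sigma]
  rw [e]
  unfold NG
  refine Finset.card_le_card_of_injOn
    (fun q => (⟨Nat.log 2 (q.2 - p q), ⟨fm (Nat.log 2 (q.2 - p q)) (p q), q.1⟩⟩ :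
      (_ : ℕ) × (_ : ℕ) × ℕ)) ?_ ?_
  · intro q hq
    have hg := hp q hq
    have h1 := K_dom hg.kill
    have h2 := far_bd hg.kill hg.far rfl
    have hQ : q.1 ∈ P.QF (Nat.log 2 (q.2 - p q)) (fm (Nat.log 2 (q.2 - p q)) (p q)) := by
      unfold QF
      rw [Finset.mem_filter, Finset.mem_range]
      exact ⟨h1.1, p q, q.2, hg, rfl, rfl⟩
    rw [Finset.mem_coe, Finset.mem_sigma, Finset.mem_sigma]
    refine ⟨?_, ?_, hQ⟩
    · rw [Finset.mem_range, Nat.lt_succ_iff]
      show Nat.log 2 (q.2 - p q) ≤ Nat.log 2 P.n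
      exact Nat.log_mono_right (show q.2 - p q ≤ P.n by omega)
    · unfold Mu
      rw [Finset.mem_filter, Finset.mem_range]
      exact ⟨by dsimp only; omega, ⟨q.1, hQ⟩⟩
  · intro q hq q' hq' he
    have hg := hp q hq
    have hg' := hp q' hq'
    have h2 := far_bd hg.kill hg.far rfl
    have h2' := far_bd hg'.kill hg'.far rfl
    simp only [Sigma.mk.injEq, heq_eq_eq] at he
    obtain ⟨e1, e2, e3⟩ := he
    have hk := hg.kill
    have hk' := hg'.kill
    rw [← e3] at hk'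
    have := P.K_mu hk hk' h2.2.2.1 h2.2.2.2.1 (by rw [e2]; exact h2'.2.2.1)
      (by rw [e2]; exact h2'.2.2.2.1)
    exact Prod.ext e3 this.2

private theorem Mu_mem {P : Pop} {k mu : ℕ} (h : mu ∈ P.Mu k) :
    fh k ∣ mu ∧ mu ≤ P.n ∧ fh k ≤ mu := by
  classical
  unfold Mu at h
  rw [Finset.mem_filter, Finset.mem_range] at h
  obtain ⟨h1, t, ht⟩ := h
  unfold QF at ht
  rw [Finset.mem_filter] at ht
  obtain ⟨-, p, g, -, -, e⟩ := ht
  obtain ⟨m1, m2, m3, m4⟩ := fm_bd k p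
  rw [e] at m1 m4
  exact ⟨m1, by omega, m4⟩

/-- MODULE F4B (size 1). The grid points are multiples of `fh k`, positive and `≤ n`. -/
theorem Mu_card (P : Pop) (k : ℕ) : 2 ^ k * (P.Mu k).card ≤ 4 * P.n := by
  obtain ⟨f1, f2, f3, f4, f5⟩ := fh_bd k
  have hc : (P.Mu k).card ≤ P.n / fh k := by
    have : P.n / fh k = (Finset.Icc 1 (P.n / fh k)).card := by
      rw [Nat.card_Icc, Nat.add_sub_cancel]
    rw [this]
    refine Finset.card_le_card_of_injOn (fun mu => mu / fh k) ?_ ?_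
    · intro mu hmu
      obtain ⟨h1, h2, h3⟩ := Mu_mem hmu
      rw [Finset.mem_coe, Finset.mem_Icc]
      exact ⟨Nat.div_pos h3 f1, Nat.div_le_div_right h2⟩
    · intro mu hmu mu' hmu' he
      obtain ⟨h1, -, -⟩ := Mu_mem hmu
      obtain ⟨h1', -, -⟩ := Mu_mem hmu'
      dsimp only at he
      rw [← Nat.div_mul_cancel h1, he, Nat.div_mul_cancel h1']
  calc 2 ^ k * (P.Mu k).card ≤ (4 * fh k) * (P.n / fh k) := Nat.mul_le_mul f3 hc
    _ = 4 * (fh k * (P.n / fh k)) := by ring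
    _ ≤ 4 * P.n := Nat.mul_le_mul_left _ (Nat.mul_div_le _ _)

/-- MODULE F4C (size 1). Every touch belongs to at most `8` grid points (`fh_bd`; the grid points are
multiples of `fh k`). -/
theorem TF_sum (P : Pop) (k : ℕ) : ∑ mu ∈ P.Mu k, (P.TF k mu).card ≤ 8 * P.th := by
  classical
  obtain ⟨f1, f2, f3, f4, f5⟩ := fh_bd k
  have e : ∑ mu ∈ P.Mu k, (P.TF k mu).card =
      ∑ q ∈ P.touches, ((P.Mu k).filter (fun mu => mu ≤ q.2 ∧ q.2 < mu + 2 ^ (k + 1))).card := by
    unfold TF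
    simp only [Finset.card_filter]
    exact Finset.sum_comm
  rw [e]
  unfold th
  rw [mul_comm, ← smul_eq_mul, ← Finset.sum_const]
  refine Finset.sum_le_sum ?_
  intro q _
  have hI : (Finset.Icc (q.2 / fh k - 7) (q.2 / fh k)).card ≤ 8 := by
    rw [Nat.card_Icc]
    omega
  refine le_trans (Finset.card_le_card_of_injOn (fun mu => mu / fh k) ?_ ?_) hI
  · intro mu hmu
    rw [Finset.mem_coe, Finset.mem_filter] at hmu
    obtain ⟨h0, h4, h5⟩ := hmu
    obtain ⟨h1, h2, h3⟩ := Mu_mem h0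
    rw [Finset.mem_coe, Finset.mem_Icc]
    refine ⟨?_, Nat.div_le_div_right h4⟩
    have h6 : q.2 < mu + 8 * fh k := by omega
    have h7 : q.2 / fh k < mu / fh k + 8 := by
      rw [Nat.div_lt_iff_lt_mul f1, Nat.add_mul, Nat.div_mul_cancel h1]
      exact h6
    show q.2 / fh k - 7 ≤ mu / fh k
    generalize q.2 / fh k = A at *
    generalize mu / fh k = B at *
    omega
  · intro mu hmu mu' hmu' he
    rw [Finset.mem_coe, Finset.mem_filter] at hmu hmu'
    obtain ⟨h1, -, -⟩ := Mu_mem hmu.1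
    obtain ⟨h1', -, -⟩ := Mu_mem hmu'.1
    dsimp only at he
    rw [← Nat.div_mul_cancel h1, he, Nat.div_mul_cancel h1']

end Pop

end Pool.Agent.SplDq
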