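import Pool.Agent.SplDq.FrD

/-! # FAR, part 1: leaders and lazy leaders of one grid point -/

set_option autoImplicit false

namespace Pool.Agent.SplDq

namespace Pop

variable (P : Pop)

/-- LAZY RECORD: the victim `g` of a good kill at time `s` (scale `k`, grid point `mu`); `b` is the last
touch of `g` before `s`; `(tm, pm)` is an earlier far kill of `g` after `b`; `gq > g` is the victim of
a later kill (time `tq`) and is not touched during `[b, s)`. -/
structure Lzy (k mu s b tm pm g gq tq : ℕ) : Prop where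
  Vs : P.V s g
  xs : P.x s + 2 ^ (k + 1) ≤ g
  g1 : mu ≤ g
  g2 : g < mu + 2 ^ (k + 1)
  bs : b < s
  Bb : P.B b g
  un : ∀ u, b < u → u < s → ¬ P.B u g
  Km : P.K tm pm g
  ts : tm < s
  far : g - pm ≤ pm - P.x tm
  unm : ∀ u, tm < u → u < s → ¬ P.B u g
  q1 : g < gq
  q2 : gq < mu + 2 ^ (k + 1)
  Vq : P.V tq gq
  sq : s < tq
  xq : P.x tq < mu
  unq : ∀ u, b ≤ u → u < s → ¬ P.B u gq

variable {P}

/-- MODULE F1A (size 1). By choice, `far_bd`, `K_mu`. -/
theorem QF_fun (P : Pop) (k mu : ℕ) : ∃ p g : ℕ → ℕ, ∀ t ∈ P.QF k mu,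
    P.Good t (p t) (g t) ∧ Nat.log 2 (g t - p t) = k ∧ fm k (p t) = mu := by
  classical
  have h : ∀ t, ∃ p g, t ∈ P.QF k mu →
      P.Good t p g ∧ Nat.log 2 (g - p) = k ∧ fm k p = mu := by
    intro t
    by_cases ht : t ∈ P.QF k mu
    · obtain ⟨_, p, g, h⟩ := Finset.mem_filter.1 ht
      exact ⟨p, g, fun _ => h⟩
    · exact ⟨0, 0, fun h => absurd h ht⟩
  choose p g h using h
  exact ⟨p, g, fun t ht => h t ht⟩

/-- MODULE F1B (size 1). Pure. `D` a finite set of times, `bb s` for `s ∈ D`, pairs `(s, t)`, `s < t`, with a touch of `g t` in `[bb s, s)`; the intervals are disjoint; so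
the pairs inject into `T` (`(s, t) ↦ (u, g t)`); there are `d (d - 1) / 2` of them. -/
theorem pairs_inj (D : Finset ℕ) (bb g : ℕ → ℕ) (T : Finset (ℕ × ℕ)) (D' : Finset ℕ)
    (hD' : D' ⊆ D) (h1 : ∀ s ∈ D, ∀ t ∈ D, s < t → s < bb t ∧ g s < g t)
    (h2 : ∀ s ∈ D', ∀ t ∈ D, s < t → ∃ u, bb s ≤ u ∧ u < s ∧ (u, g t) ∈ T) :
    D'.card * (D'.card - 1) ≤ 2 * T.card := by
  classical
  have hu : ∀ s t, ∃ u, s ∈ D' → t ∈ D → s < t → bb s ≤ u ∧ u < s ∧ (u, g t) ∈ T := by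
    intro s t
    by_cases h : s ∈ D' ∧ t ∈ D ∧ s < t
    · obtain ⟨u, hu⟩ := h2 s h.1 t h.2.1 h.2.2
      exact ⟨u, fun _ _ _ => hu⟩
    · exact ⟨0, fun a b c => absurd ⟨a, b, c⟩ h⟩
  choose u hu using hu
  let f : ℕ × ℕ → ℕ × ℕ := fun q => (u (min q.1 q.2) (max q.1 q.2), g (max q.1 q.2))
  have hmm : ∀ q ∈ D'.offDiag, min q.1 q.2 ∈ D' ∧ max q.1 q.2 ∈ D' ∧
      min q.1 q.2 < max q.1 q.2 := by
    intro q hq
    obtain ⟨q1, q2, q3⟩ := Finset.mem_offDiag.1 hq
    rcases lt_or_gt_of_ne q3 with h | h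
    · rw [min_eq_left h.le, max_eq_right h.le]; exact ⟨q1, q2, h⟩
    · rw [min_eq_right h.le, max_eq_left h.le]; exact ⟨q2, q1, h⟩
  have hginj : ∀ s ∈ D, ∀ t ∈ D, g s = g t → s = t := by
    intro s hs t ht hst
    rcases lt_trichotomy s t with h | h | h
    · have := (h1 s hs t ht h).2; omega
    · exact h
    · have := (h1 t ht s hs h).2; omega
  have hcard := Finset.card_le_mul_card_image (f := f) D'.offDiag 2 (by
    intro a ha
    obtain ⟨q0, hq0, rfl⟩ := Finset.mem_image.1 ha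
    have hsub : (D'.offDiag.filter (fun x => f x = f q0)) ⊆ {q0, (q0.2, q0.1)} := by
      intro q hq
      obtain ⟨hq, hf⟩ := Finset.mem_filter.1 hq
      obtain ⟨a1, a2, a3⟩ := hmm q hq
      obtain ⟨b1, b2, b3⟩ := hmm q0 hq0
      have hmax : max q.1 q.2 = max q0.1 q0.2 :=
        hginj _ (hD' a2) _ (hD' b2) (congrArg Prod.snd hf)
      have hmin : min q.1 q.2 = min q0.1 q0.2 := by
        have e1 := hu _ _ a1 (hD' a2) a3
        have e2 := hu _ _ b1 (hD' b2) b3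
        have e3 : u (min q.1 q.2) (max q.1 q.2) = u (min q0.1 q0.2) (max q0.1 q0.2) :=
          congrArg Prod.fst hf
        rcases lt_trichotomy (min q.1 q.2) (min q0.1 q0.2) with h | h | h
        · have := (h1 _ (hD' a1) _ (hD' b1) h).1; omega
        · exact h
        · have := (h1 _ (hD' b1) _ (hD' a1) h).1; omega
      rw [Finset.mem_insert, Finset.mem_singleton]
      obtain ⟨x, y⟩ := q
      obtain ⟨x0, y0⟩ := q0
      simp only [Prod.mk.injEq] at *
      omega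
    exact (Finset.card_le_card hsub).trans Finset.card_le_two)
  have himg : D'.offDiag.image f ⊆ T := by
    intro a ha
    obtain ⟨q, hq, rfl⟩ := Finset.mem_image.1 ha
    obtain ⟨a1, a2, a3⟩ := hmm q hq
    exact (hu _ _ a1 (hD' a2) a3).2.2
  have h3 := Finset.card_le_card himg
  rw [Finset.offDiag_card] at hcard
  have h4 : D'.card * (D'.card - 1) = D'.card * D'.card - D'.card := by
    rw [Nat.mul_sub, mul_one]
  rw [h4]
  omega

/-- MODULE F1 (size 3). LEADERS OF ONE GRID POINT. `runs` for `Q = QF k mu` (`QF_fun`, `far_bd`, `c = mu - fh k`, `z = 2 ^ (k + 1)`: the keys `g s, g t` are in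
`[mu, mu + 2 ^ (k + 1))`) gives `D`. If `Q` is empty everything is trivial. For `s ∈ D`, not the minimum of `D`: `bb s` = the last touch of `g s` before `s`; all `s' ∈ D`, `s' < s`, are `< bb s`
(there is a touch in `(s', s)`). `Λ` = the `s ∈ D`, not the minimum, for which some `t ∈ D`, `s < t`, is not touched in `[bb s, s)`. `pairs_inj` for `D' = D \ ({min} ∪ Λ)`. -/
theorem leaders_k (P : Pop) (k mu : ℕ) : ∃ D Λ : Finset ℕ, Λ ⊆ P.QF k mu ∧
    (P.QF k mu).card ≤ (3 * k + 7) * D.card ∧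
    (∀ j, 2 ^ j * D.card ≤ 2 ^ j * (Λ.card + 2) + 4 ^ j + 2 * (P.TF k mu).card) ∧
    ∃ b tm pm g gq tq : ℕ → ℕ,
      (∀ s ∈ Λ, P.Lzy k mu s (b s) (tm s) (pm s) (g s) (gq s) (tq s)) ∧
      ∀ s' ∈ Λ, ∀ s ∈ Λ, s' < s → s' < b s := by
  classical
  obtain ⟨p, g, hpg⟩ := QF_fun P k mu
  have hbd : ∀ t ∈ P.QF k mu, P.x t < mu - fh k ∧ mu - fh k ≤ p t ∧ p t < mu ∧ mu ≤ g t ∧
      g t < mu + 2 ^ (k + 1) ∧ P.x t + 2 ^ (k + 1) ≤ g t ∧ mu ≤ P.n := by
    intro t ht
    obtain ⟨h1, h2, h3⟩ := hpg t ht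
    have := far_bd h1.kill h1.far h2
    rwa [h3] at this
  obtain ⟨hmono, D, hDQ, hcard, hB⟩ := P.runs (P.QF k mu) p g (mu - fh k) mu (2 ^ (k + 1))
    (fun t ht => (hpg t ht).1.kill) (fun t ht => (hbd t ht).1)
    (fun t ht => ⟨(hbd t ht).2.1, (hbd t ht).2.2.1, (hbd t ht).2.2.2.1⟩)
    (fun t ht => (hpg t ht).1.rt) (fun t ht => (hpg t ht).1.reg)
    (fun s hs t ht => by
      refine (Finset.card_filter_le _ _).trans ?_
      rw [Nat.card_Icc]
      have h1 := hbd s hs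
      have h2 := hbd t ht
      omega)
  rw [Nat.log_pow (by norm_num)] at hcard
  have hbex : ∀ s, ∃ b, s ∈ D → (∃ s' ∈ D, s' < s) → b < s ∧ P.B b (g s) ∧
      (∀ u, b < u → u < s → ¬ P.B u (g s)) ∧ ∀ s' ∈ D, s' < s → s' < b := by
    intro s
    by_cases h : s ∈ D ∧ ∃ s' ∈ D, s' < s
    · obtain ⟨hs, s0, hs0, hs0s⟩ := h
      set F := (Finset.range s).filter (fun b => P.B b (g s)) with hF
      have hne : F.Nonempty := by
        obtain ⟨b, hb1, hb2, hb3⟩ := hB s0 hs0 s hs hs0s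
        exact ⟨b, Finset.mem_filter.2 ⟨Finset.mem_range.2 hb2, hb3⟩⟩
      have hmem := Finset.max'_mem F hne
      obtain ⟨hm1, hm2⟩ := Finset.mem_filter.1 hmem
      refine ⟨F.max' hne, fun _ _ => ⟨Finset.mem_range.1 hm1, hm2, ?_, ?_⟩⟩
      · intro u hu1 hu2 hu3
        have := Finset.le_max' F u (Finset.mem_filter.2 ⟨Finset.mem_range.2 hu2, hu3⟩)
        omega
      · intro s' hs' hlt
        obtain ⟨b, hb1, hb2, hb3⟩ := hB s' hs' s hs hlt
        have := Finset.le_max' F b (Finset.mem_filter.2 ⟨Finset.mem_range.2 hb2, hb3⟩)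
        omega
    · exact ⟨0, fun a b => absurd ⟨a, b⟩ h⟩
  choose bb hbb using hbex
  rcases Finset.eq_empty_or_nonempty D with hD0 | hDne
  · refine ⟨D, ∅, by simp, by linarith [hcard], ?_, bb, bb, bb, bb, bb, bb, by simp, by simp⟩
    intro j
    rw [hD0]
    simp
  set m0 := D.min' hDne with hm0
  have hm0D : m0 ∈ D := Finset.min'_mem D hDne
  set D1 := D.erase m0 with hD1
  have hD1D : D1 ⊆ D := Finset.erase_subset _ _
  have hlt0 : ∀ s ∈ D1, m0 < s := by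
    intro s hs
    have h1 := Finset.min'_le D s (hD1D hs)
    have h2 := (Finset.mem_erase.1 hs).1
    omega
  have hb1 : ∀ s ∈ D1, bb s < s ∧ P.B (bb s) (g s) ∧
      (∀ u, bb s < u → u < s → ¬ P.B u (g s)) ∧ ∀ s' ∈ D, s' < s → s' < bb s :=
    fun s hs => hbb s (hD1D hs) ⟨m0, hm0D, hlt0 s hs⟩
  set Λ := D1.filter (fun s => ∃ t ∈ D, s < t ∧ ∀ u, bb s ≤ u → u < s → ¬ P.B u (g t)) with hΛ
  have hΛD1 : Λ ⊆ D1 := Finset.filter_subset _ _
  have hpairs := pairs_inj D1 bb g (P.TF k mu) (D1 \ Λ) Finset.sdiff_subset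
    (fun s hs t ht hst => ⟨(hb1 t ht).2.2.2 s (hD1D hs) hst,
      hmono s (hDQ (hD1D hs)) t (hDQ (hD1D ht)) hst⟩)
    (fun s hs t ht hst => by
      obtain ⟨hs1, hs2⟩ := Finset.mem_sdiff.1 hs
      by_contra hcon
      apply hs2
      rw [hΛ, Finset.mem_filter]
      refine ⟨hs1, t, hD1D ht, hst, fun u hu1 hu2 hBu => hcon ⟨u, hu1, hu2, ?_⟩⟩
      have hd := P.B_dom _ _ hBu
      have h1 := hbd t (hDQ (hD1D ht))
      rw [TF, Finset.mem_filter]
      refine ⟨?_, h1.2.2.2.1, h1.2.2.2.2.1⟩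
      rw [touches, Finset.mem_filter, Finset.mem_product, Finset.mem_range, Finset.mem_range]
      exact ⟨⟨hd.1, by show g t < P.n + 1; omega⟩, hBu⟩)
  have hrec : ∀ s, ∃ tm pm tq, s ∈ Λ → P.Lzy k mu s (bb s) tm pm (g s) (g tq) tq := by
    intro s
    by_cases hs : s ∈ Λ
    · obtain ⟨hs1, t, ht, hst, hun⟩ := Finset.mem_filter.1 hs
      have hsQ := hDQ (hD1D hs1)
      have htQ := hDQ ht
      obtain ⟨hG, _, _⟩ := hpg s hsQ
      obtain ⟨tm, pm, h1, h2, h3, h4⟩ := hG.prev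
      obtain ⟨c1, c2, c3, c4⟩ := hb1 s hs1
      have e1 := hbd s hsQ
      have e2 := hbd t htQ
      exact ⟨tm, pm, t, fun _ =>
        { Vs := (P.K_V _ _ _ hG.kill).2.1
          xs := e1.2.2.2.2.2.1
          g1 := e1.2.2.2.1
          g2 := e1.2.2.2.2.1
          bs := c1
          Bb := c2
          un := c3
          Km := h2
          ts := h1
          far := h3
          unm := h4
          q1 := hmono s hsQ t htQ hst
          q2 := e2.2.2.2.2.1
          Vq := (P.K_V _ _ _ (hpg t htQ).1.kill).2.1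
          sq := hst
          xq := by omega
          unq := hun }⟩
    · exact ⟨0, 0, 0, fun h => absurd h hs⟩
  choose tm pm tq hrec using hrec
  refine ⟨D, Λ, hΛD1.trans (hD1D.trans hDQ), by linarith [hcard], ?_, bb, tm, pm, g,
    fun s => g (tq s), tq, fun s hs => hrec s hs,
    fun s' hs' s hs hlt => (hb1 s (hΛD1 hs)).2.2.2 s' (hD1D (hΛD1 hs')) hlt⟩
  intro j
  have hc1 : D1.card + 1 = D.card := Finset.card_erase_add_one hm0D
  have hc2 : (D1 \ Λ).card + Λ.card = D1.card := Finset.card_sdiff_add_card_eq_card hΛD1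
  set d := (D1 \ Λ).card with hd
  have hDc : D.card = d + Λ.card + 1 := by omega
  have key : 2 ^ j * d ≤ 2 ^ j + 4 ^ j + 2 * (P.TF k mu).card := by
    have h4 : (4 : ℕ) ^ j = 2 ^ j * 2 ^ j := by
      rw [← mul_pow]; norm_num
    rcases Nat.lt_or_ge (2 ^ j) d with h | h
    · have h5 : 2 ^ j * (d - 1) ≤ d * (d - 1) := Nat.mul_le_mul_right _ h.le
      have hdpos : 0 < d := lt_of_le_of_lt (Nat.zero_le _) h
      have h6 : 2 ^ j * d = 2 ^ j * (d - 1) + 2 ^ j := by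
        obtain ⟨e, he⟩ : ∃ e, d = e + 1 := ⟨d - 1, by omega⟩
        rw [he]; simp; ring
      rw [h6]
      have h7 : 2 ^ j * (d - 1) ≤ 2 * (P.TF k mu).card := h5.trans hpairs
      linarith [Nat.zero_le (4 ^ j)]
    · have h5 : 2 ^ j * d ≤ 2 ^ j * 2 ^ j := Nat.mul_le_mul_left _ h
      linarith [Nat.zero_le (2 ^ j)]
  rw [hDc]
  nlinarith [key]

end Pop

end Pool.Agent.SplDq
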