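import Pool.Agent.SplDq.FrL

/-! # FAR, part 2: the packing of the lazy leaders -/

set_option autoImplicit false

namespace Pool.Agent.SplDq

namespace Pop

variable {P : Pop}

/-- MODULE F2A (size 1). `prev tm pm g s`; `b < tm` (`unm`, `B_V` at `tm`), `e = g - pm > g - x s ≥ 2 ^ (k + 1)`; `x tm + e ≤ pm` (`far`, `K_dom`). -/
theorem Lzy.basic {k mu s b tm pm g gq tq : ℕ} (h : P.Lzy k mu s b tm pm g gq tq) :
    pm < P.x s ∧ b < tm ∧ 2 ^ (k + 1) < g - pm ∧ P.x tm + (g - pm) ≤ pm ∧ pm < g ∧ g ≤ P.n ∧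
      pm < mu := by
  obtain ⟨hVpm, hVg, hpg, -⟩ := P.K_V _ _ _ h.Km
  have h1 : pm < P.x s := P.prev tm pm g s h.Km h.ts h.Vs h.unm
  have h2 : b < tm := by
    rcases lt_trichotomy b tm with h3 | h3 | h3
    · exact h3
    · exfalso
      have h4 := h.Bb
      rw [h3] at h4
      exact P.B_V _ _ _ h4 hVg
    · exact absurd h.Bb (h.unm b h3 h.bs)
  have h5 := h.xs
  have h6 := h.far
  have h7 := (P.V_dom _ _ hVpm).2.1
  have h8 := (P.V_dom _ _ hVg).2.2
  have h9 : P.x s ≤ P.x tq := P.x_mono h.sq.le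
  have h10 := h.xq
  exact ⟨h1, h2, by omega, by omega, hpg, h8, by omega⟩

/-- MODULE F2B (size 1). Two lazy records of the same grid point, `s' < b`: `pm' < x s' ≤ x tm` and `x tm + (g - pm) ≤ pm`. -/
theorem Lzy.same {k mu s b tm pm g gq tq s' b' tm' pm' g' gq' tq' : ℕ}
    (h : P.Lzy k mu s b tm pm g gq tq) (h' : P.Lzy k mu s' b' tm' pm' g' gq' tq')
    (hs : s' < b) : pm' + (g - pm) ≤ pm := by
  obtain ⟨-, hb, -, h4, -, -, -⟩ := h.basic
  obtain ⟨h5, -, -, -, -, -, -⟩ := h'.basic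
  have h6 : P.x s' ≤ P.x tm := P.x_mono (by omega)
  omega

/-- MODULE F2C (size 2). Different grid points `mu + 2 ^ (k + 1) ≤ mu'`: the key intervals `[x tm, pm)`, `[x tm', pm')` are disjoint, or `mu ≤ pm'`. Proof. Suppose `x tm' < pm` and `x tm < pm'` (not disjoint). (1) `tm' < s`: otherwise
`x s ≤ x tm' < pm < x s`. (2) `tm'` is not in `[b, s)`: `hid b g gq tq` at `tm'` and `V tm' g'` give `g' < gq < mu + 2 ^ (k + 1) ≤ mu' ≤ g'`. (3) so `tm' < b`; `x b ≤ x tm < pm'`; `b < s'` (otherwise `pm' < x s' ≤ x b < pm'`);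
`nest b g tm' pm' g' gq tq` gives `gq ≤ pm'`. -/
theorem Lzy.cross {k mu mu' s b tm pm g gq tq s' b' tm' pm' g' gq' tq' : ℕ}
    (h : P.Lzy k mu s b tm pm g gq tq) (h' : P.Lzy k mu' s' b' tm' pm' g' gq' tq')
    (hm : mu + 2 ^ (k + 1) ≤ mu') :
    pm ≤ P.x tm' ∨ pm' ≤ P.x tm ∨ mu ≤ pm' := by
  by_contra hcon
  push Not at hcon
  obtain ⟨c1, c2, c3⟩ := hcon
  obtain ⟨a1, a2, a3, a4, a5, a6, a7⟩ := h.basic
  obtain ⟨b1, b2, b3, b4, b5, b6, b7⟩ := h'.basic
  obtain ⟨-, hVg', -, -⟩ := P.K_V _ _ _ h'.Km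
  have hq2 := h.q2
  have hq1 := h.q1
  have hg1 := h.g1
  have hg1' := h'.g1
  have hxq := h.xq
  have hbs := h.bs
  have hsq := h.sq
  have e1 : tm' < s := by
    by_contra hc
    have := P.x_mono (not_lt.1 hc)
    omega
  have e2 : tm' < b := by
    by_contra hc
    have hc' : b ≤ tm' := not_lt.1 hc
    have := P.hid b g gq tq h.Bb hq1 h.Vq (hbs.trans hsq) (by omega) tm' hc' (by omega)
      (fun u hu1 hu2 => h.unq u hu1 (lt_of_le_of_lt hu2 e1)) g' hVg'
    omega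
  have e3 : P.x b ≤ P.x tm := P.x_mono a2.le
  have e4 : b < s' := by
    by_contra hc
    have := P.x_mono (not_lt.1 hc)
    omega
  have e5 := P.nest b g tm' pm' g' gq tq h.Bb h'.Km e2 (by omega)
    (fun u hu1 hu2 => h'.unm u hu1 (by omega)) hq1 (by omega) h.Vq (hbs.trans hsq) (by omega)
  omega

/-- MODULE F2D (size 1). Different grid points, the same `K = log2 (g - pm) ≥ k + 2`, `mu' ≤ mu + 2 ^ (K - 1)`: the third case of
`cross` is impossible: `pm' = g' - (g' - pm') < mu' + 2 ^ (k + 1) - 2 ^ K ≤ mu' - 2 ^ (K - 1) ≤ mu`; in the other cases `basic`. -/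
theorem Lzy.sep {k K mu mu' s b tm pm g gq tq s' b' tm' pm' g' gq' tq' : ℕ}
    (h : P.Lzy k mu s b tm pm g gq tq) (h' : P.Lzy k mu' s' b' tm' pm' g' gq' tq')
    (hm : mu + 2 ^ (k + 1) ≤ mu') (hK : Nat.log 2 (g - pm) = K) (hK' : Nat.log 2 (g' - pm') = K)
    (hk : k + 2 ≤ K) (hb : mu' ≤ mu + 2 ^ (K - 1)) :
    pm + 2 ^ K ≤ pm' ∨ pm' + 2 ^ K ≤ pm := by
  obtain ⟨a1, a2, a3, a4, a5, a6, a7⟩ := h.basic
  obtain ⟨b1, b2, b3, b4, b5, b6, b7⟩ := h'.basic
  have hK1 : 2 ^ K ≤ g - pm := by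
    rw [← hK]
    exact Nat.pow_log_le_self 2 (by omega)
  have hK2 : 2 ^ K ≤ g' - pm' := by
    rw [← hK']
    exact Nat.pow_log_le_self 2 (by omega)
  have hg2' := h'.g2
  have hp1 : 2 ^ (k + 1) ≤ 2 ^ (K - 1) := Nat.pow_le_pow_right (by norm_num) (by omega)
  have hp2 : 2 ^ K = 2 ^ (K - 1) + 2 ^ (K - 1) := by
    obtain ⟨K', rfl⟩ : ∃ K', K = K' + 1 := ⟨K - 1, by omega⟩
    rw [Nat.add_sub_cancel, pow_succ]
    ring
  rcases h.cross h' hm with h1 | h1 | h1
  · left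
    omega
  · right
    omega
  · omega

end Pop

/-- MODULE F2E (size 1). PURE. -/
theorem two_card {α : Type*} (S : Finset α) (f : α → ℕ) (H β : ℕ) (hH : 0 < H)
    (h : ∀ x ∈ S, ∀ y ∈ S, x ≠ y → f x + H ≤ f y ∨ f y + H ≤ f x)
    (hr : ∀ x ∈ S, f x < β ∧ β < f x + 2 * H) : S.card ≤ 2 := by
  by_contra hcon
  push Not at hcon
  obtain ⟨x, hx, y, hy, z, hz, hxy, hxz, hyz⟩ := Finset.two_lt_card.1 hcon
  have h1 := h x hx y hy hxy
  have h2 := h x hx z hz hxz
  have h3 := h y hy z hz hyz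
  have h4 := hr x hx
  have h5 := hr y hy
  have h6 := hr z hz
  omega

namespace Pop

variable {P : Pop}

/-- A finite family of lazy records of scale `k`, indexed by pairs (grid point, time). -/
structure Fam (P : Pop) (k : ℕ) (R : Finset (ℕ × ℕ)) (b tm pm g gq tq : ℕ × ℕ → ℕ) : Prop where
  lzy : ∀ q ∈ R, P.Lzy k q.1 q.2 (b q) (tm q) (pm q) (g q) (gq q) (tq q)
  ord : ∀ q ∈ R, ∀ q' ∈ R, q'.1 = q.1 → q'.2 < q.2 → q'.2 < b q
  grid : ∀ q ∈ R, fh k ∣ q.1 ∧ 0 < q.1 ∧ q.1 ≤ P.n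

variable {k : ℕ} {R : Finset (ℕ × ℕ)} {b tm pm g gq tq : ℕ × ℕ → ℕ}

private theorem F3A_same {k mu mu' s b tm pm g gq tq s' b' tm' pm' g' gq' tq' : ℕ}
    (h : P.Lzy k mu s b tm pm g gq tq) (h' : P.Lzy k mu' s' b' tm' pm' g' gq' tq')
    (hs : s' < b) : pm' + (g - pm) ≤ pm := by
  obtain ⟨-, hb, -, h4, -, -, -⟩ := h.basic
  obtain ⟨h5, -, -, -, -, -, -⟩ := h'.basic
  have h6 : P.x s' ≤ P.x tm := P.x_mono (by omega)
  omega

/-- MODULE F3A (size 1). One grid point, `K = k + 1`: `two_card` for `f = pm`, `H = 2 ^ (k + 1)`, `β = mu`: `pm < mu` (`basic`) and `mu ≤ g < pm + 2 ^ (k + 2)`; `Lzy.same` (two different `q` with the same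
`q.1` differ in `q.2`; `ord`). -/
theorem Fam.fiber0 (h : P.Fam k R b tm pm g gq tq) (mu : ℕ) :
    (R.filter (fun q => Nat.log 2 (g q - pm q) = k + 1 ∧ q.1 = mu)).card ≤ 2 := by
  refine two_card _ pm (2 ^ (k + 1)) mu (by positivity) ?_ ?_
  · intro q hq q' hq' hne
    rw [Finset.mem_filter] at hq hq'
    obtain ⟨hq0, hqK, hq1⟩ := hq
    obtain ⟨hq0', hqK', hq1'⟩ := hq'
    have e1 := h.lzy q hq0
    have e2 := h.lzy q' hq0'
    obtain ⟨a1, a2, a3, a4, a5, a6, a7⟩ := e1.basic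
    obtain ⟨b1, b2, b3, b4, b5, b6, b7⟩ := e2.basic
    have hne2 : q.2 ≠ q'.2 := by
      intro hc
      exact hne (Prod.ext (hq1.trans hq1'.symm) hc)
    rcases lt_or_gt_of_ne hne2 with hlt | hlt
    · left
      have e3 := h.ord q' hq0' q hq0 (hq1.trans hq1'.symm) hlt
      have e4 := F3A_same e2 e1 e3
      omega
    · right
      have e3 := h.ord q hq0 q' hq0' (hq1'.trans hq1.symm) hlt
      have e4 := F3A_same e1 e2 e3
      omega
  · intro q hq
    rw [Finset.mem_filter] at hq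
    obtain ⟨hq0, hqK, hq1⟩ := hq
    have e1 := h.lzy q hq0
    obtain ⟨a1, a2, a3, a4, a5, a6, a7⟩ := e1.basic
    have e2 := e1.g1
    have e3 : g q - pm q < 2 ^ (k + 1 + 1) := by
      rw [← hqK]
      exact Nat.lt_pow_succ_log_self (by norm_num) _
    rw [pow_succ] at e3
    rw [hq1] at a7 e2
    omega

private theorem F3B_mod {a b M : ℕ} (h : a % M = b % M) (hab : a < b) : a + M ≤ b := by
  have h1 : M ∣ b - a := (Nat.modEq_iff_dvd' hab.le).1 h
  have h2 := Nat.le_of_dvd (by omega) h1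
  omega

/-- MODULE F3B (size 2). `K ≥ k + 2`, one class modulo `2 ^ (k + 1)`, one block of length `2 ^ (K - 1)`: `two_card` for `f = pm`,
`H = 2 ^ K`, the bound `β * 2 ^ (K - 1)`: `pm ≤ g - 2 ^ K < (β + 1) * 2 ^ (K - 1) + 2 ^ (k + 1) - 2 ^ K ≤ β * 2 ^ (K - 1)` and `β * 2 ^ (K - 1) ≤ mu ≤ g < pm + 2 ^ (K + 1)`. Pairs: the same grid point: `Lzy.same`; different ones: `mu < mu'` and
`mu % 2 ^ (k + 1) = mu' % 2 ^ (k + 1)` give `mu + 2 ^ (k + 1) ≤ mu'`: `Lzy.sep`. -/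
theorem Fam.fiber (h : P.Fam k R b tm pm g gq tq) {K : ℕ} (hK : k + 2 ≤ K) (a β : ℕ) :
    (R.filter (fun q => Nat.log 2 (g q - pm q) = K ∧ q.1 % 2 ^ (k + 1) = a ∧
      q.1 / 2 ^ (K - 1) = β)).card ≤ 2 := by
  have hp1 : 2 ^ (k + 1) ≤ 2 ^ (K - 1) := Nat.pow_le_pow_right (by norm_num) (by omega)
  have hp2 : 2 ^ K = 2 ^ (K - 1) + 2 ^ (K - 1) := by
    obtain ⟨K', rfl⟩ : ∃ K', K = K' + 1 := ⟨K - 1, by omega⟩
    rw [Nat.add_sub_cancel, pow_succ]
    ring
  have hblock : ∀ q : ℕ × ℕ, q.1 / 2 ^ (K - 1) = β →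
      β * 2 ^ (K - 1) ≤ q.1 ∧ q.1 < β * 2 ^ (K - 1) + 2 ^ (K - 1) := by
    intro q hq
    constructor
    · rw [← hq]
      exact Nat.div_mul_le_self _ _
    · rw [← hq]
      have := Nat.lt_div_mul_add (a := q.1) (b := 2 ^ (K - 1)) (by positivity)
      exact this
  refine two_card _ pm (2 ^ K) (β * 2 ^ (K - 1)) (by positivity) ?_ ?_
  · intro q hq q' hq' hne
    rw [Finset.mem_filter] at hq hq'
    obtain ⟨hq0, hqK, hq1, hq2⟩ := hq
    obtain ⟨hq0', hqK', hq1', hq2'⟩ := hq'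
    have e1 := h.lzy q hq0
    have e2 := h.lzy q' hq0'
    obtain ⟨a1, a2, a3, a4, a5, a6, a7⟩ := e1.basic
    obtain ⟨b1, b2, b3, b4, b5, b6, b7⟩ := e2.basic
    have hK1 : 2 ^ K ≤ g q - pm q := by
      rw [← hqK]
      exact Nat.pow_log_le_self 2 (by omega)
    have hK2 : 2 ^ K ≤ g q' - pm q' := by
      rw [← hqK']
      exact Nat.pow_log_le_self 2 (by omega)
    obtain ⟨c1, c2⟩ := hblock q hq2
    obtain ⟨c3, c4⟩ := hblock q' hq2'
    by_cases hqq : q.1 = q'.1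
    · have hne2 : q.2 ≠ q'.2 := by
        intro hc
        exact hne (Prod.ext hqq hc)
      rcases lt_or_gt_of_ne hne2 with hlt | hlt
      · left
        have e3 := h.ord q' hq0' q hq0 hqq hlt
        have e4 := F3A_same e2 e1 e3
        omega
      · right
        have e3 := h.ord q hq0 q' hq0' hqq.symm hlt
        have e4 := F3A_same e1 e2 e3
        omega
    · have hmod : q.1 % 2 ^ (k + 1) = q'.1 % 2 ^ (k + 1) := hq1.trans hq1'.symm
      rcases lt_or_gt_of_ne hqq with hlt | hlt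
      · have e3 : q.1 + 2 ^ (k + 1) ≤ q'.1 := F3B_mod hmod hlt
        exact e1.sep e2 e3 hqK hqK' hK (by omega)
      · have e3 : q'.1 + 2 ^ (k + 1) ≤ q.1 := F3B_mod hmod.symm hlt
        exact (e2.sep e1 e3 hqK' hqK hK (by omega)).symm
  · intro q hq
    rw [Finset.mem_filter] at hq
    obtain ⟨hq0, hqK, hq1, hq2⟩ := hq
    have e1 := h.lzy q hq0
    obtain ⟨a1, a2, a3, a4, a5, a6, a7⟩ := e1.basic
    have e2 := e1.g1
    have e4 := e1.g2
    have hK1 : 2 ^ K ≤ g q - pm q := by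
      rw [← hqK]
      exact Nat.pow_log_le_self 2 (by omega)
    have e3 : g q - pm q < 2 ^ (K + 1) := by
      rw [← hqK]
      exact Nat.lt_pow_succ_log_self (by norm_num) _
    rw [pow_succ] at e3
    obtain ⟨c1, c2⟩ := hblock q hq2
    omega

/-- MODULE F3C (size 1). At most `8` values of `mu % 2 ^ (k + 1)` (multiples of `fh k`; `fh_bd`), at most `n / 2 ^ (K - 1) + 1` values of `mu / 2 ^ (K - 1)`;
`2 ^ K * (16 * (n / 2 ^ (K - 1) + 1)) ≤ 16 * (2 * n + 2 ^ K) ≤ 48 * n`: `2 ^ K ≤ g - pm ≤ n` if the set is not empty. -/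
theorem Fam.level (h : P.Fam k R b tm pm g gq tq) {K : ℕ} (hK : k + 2 ≤ K) :
    2 ^ K * (R.filter (fun q => Nat.log 2 (g q - pm q) = K)).card ≤ 48 * P.n := by
  classical
  rcases (R.filter (fun q => Nat.log 2 (g q - pm q) = K)).eq_empty_or_nonempty with he | ⟨q0, hq0⟩
  · rw [he]
    simp
  have hn : 2 ^ K ≤ P.n := by
    rw [Finset.mem_filter] at hq0
    obtain ⟨a1, a2, a3, a4, a5, a6, a7⟩ := (h.lzy q0 hq0.1).basic
    have : 2 ^ K ≤ g q0 - pm q0 := by
      rw [← hq0.2]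
      exact Nat.pow_log_le_self 2 (by omega)
    omega
  obtain ⟨f1, f2, f3, f4, f5⟩ := fh_bd k
  set S := R.filter (fun q => Nat.log 2 (g q - pm q) = K) with hS
  have hcard : S.card ≤ 2 * (S.image (fun q => (q.1 % 2 ^ (k + 1), q.1 / 2 ^ (K - 1)))).card := by
    refine Finset.card_le_mul_card_image S 2 ?_
    rintro ⟨a, β⟩ -
    refine le_trans (Finset.card_le_card ?_) (h.fiber hK a β)
    intro q hq
    rw [Finset.mem_filter, hS, Finset.mem_filter] at hq
    rw [Finset.mem_filter]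
    have h1 := congrArg Prod.fst hq.2
    have h2 := congrArg Prod.snd hq.2
    exact ⟨hq.1.1, hq.1.2, h1, h2⟩
  have hsub : S.image (fun q => (q.1 % 2 ^ (k + 1), q.1 / 2 ^ (K - 1))) ⊆
      ((Finset.range 8).image (fun i => i * fh k)) ×ˢ
        (Finset.range (P.n / 2 ^ (K - 1) + 1)) := by
    intro y hy
    rw [Finset.mem_image] at hy
    obtain ⟨q, hq, rfl⟩ := hy
    rw [hS, Finset.mem_filter] at hq
    obtain ⟨g1, g2, g3⟩ := h.grid q hq.1
    rw [Finset.mem_product]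
    constructor
    · rw [Finset.mem_image]
      have hd : fh k ∣ q.1 % 2 ^ (k + 1) := (Nat.dvd_mod_iff f4).2 g1
      obtain ⟨i, hi⟩ := hd
      refine ⟨i, ?_, ?_⟩
      · rw [Finset.mem_range]
        have hlt : q.1 % 2 ^ (k + 1) < 2 ^ (k + 1) := Nat.mod_lt _ (by positivity)
        rw [hi] at hlt
        by_contra hc
        have : 8 * fh k ≤ fh k * i := by
          rw [mul_comm (fh k) i]
          exact Nat.mul_le_mul_right _ (not_lt.1 hc)
        omega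
      · rw [hi, mul_comm]
    · rw [Finset.mem_range]
      exact Nat.lt_succ_of_le (Nat.div_le_div_right g3)
  have hc2 : (S.image (fun q => (q.1 % 2 ^ (k + 1), q.1 / 2 ^ (K - 1)))).card ≤
      8 * (P.n / 2 ^ (K - 1) + 1) := by
    refine (Finset.card_le_card hsub).trans ?_
    rw [Finset.card_product, Finset.card_range]
    refine Nat.mul_le_mul_right _ ?_
    exact Finset.card_image_le.trans (le_of_eq (Finset.card_range 8))
  have hp2 : 2 ^ K = 2 * 2 ^ (K - 1) := by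
    obtain ⟨K', rfl⟩ : ∃ K', K = K' + 1 := ⟨K - 1, by omega⟩
    rw [Nat.add_sub_cancel, pow_succ]
    ring
  have hdm : 2 ^ (K - 1) * (P.n / 2 ^ (K - 1)) ≤ P.n := Nat.mul_div_le _ _
  calc 2 ^ K * S.card ≤ 2 ^ K * (2 * (8 * (P.n / 2 ^ (K - 1) + 1))) :=
        Nat.mul_le_mul_left _ (hcard.trans (Nat.mul_le_mul_left _ hc2))
    _ = 32 * (2 ^ (K - 1) * (P.n / 2 ^ (K - 1))) + 16 * 2 ^ K := by
        rw [hp2]
        ring
    _ ≤ 32 * P.n + 16 * P.n := by
        refine Nat.add_le_add (Nat.mul_le_mul_left _ hdm) (Nat.mul_le_mul_left _ hn)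
    _ = 48 * P.n := by ring

/-- MODULE F3D (size 1). `fiber0` summed over the grid points: multiples of `fh k`, positive, `≤ n`. -/
theorem Fam.level0 (h : P.Fam k R b tm pm g gq tq) :
    2 ^ k * (R.filter (fun q => Nat.log 2 (g q - pm q) = k + 1)).card ≤ 8 * P.n := by
  classical
  obtain ⟨f1, f2, f3, f4, f5⟩ := fh_bd k
  set S := R.filter (fun q => Nat.log 2 (g q - pm q) = k + 1) with hS
  have hcard : S.card ≤ 2 * (S.image (fun q => q.1)).card := by
    refine Finset.card_le_mul_card_image S 2 ?_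
    intro mu _
    refine le_trans (Finset.card_le_card ?_) (h.fiber0 mu)
    intro q hq
    rw [Finset.mem_filter, hS, Finset.mem_filter] at hq
    rw [Finset.mem_filter]
    exact ⟨hq.1.1, hq.1.2, hq.2⟩
  have hsub : S.image (fun q => q.1) ⊆
      (Finset.Icc 1 (P.n / fh k)).image (fun i => i * fh k) := by
    intro y hy
    rw [Finset.mem_image] at hy
    obtain ⟨q, hq, rfl⟩ := hy
    rw [hS, Finset.mem_filter] at hq
    obtain ⟨g1, g2, g3⟩ := h.grid q hq.1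
    obtain ⟨i, hi⟩ := g1
    rw [Finset.mem_image]
    refine ⟨i, ?_, ?_⟩
    · rw [Finset.mem_Icc]
      constructor
      · rcases Nat.eq_zero_or_pos i with h0 | h0
        · rw [h0, mul_zero] at hi
          omega
        · exact h0
      · rw [Nat.le_div_iff_mul_le f1, mul_comm, ← hi]
        exact g3
    · rw [hi, mul_comm]
  have hc2 : (S.image (fun q => q.1)).card ≤ P.n / fh k := by
    refine (Finset.card_le_card hsub).trans (Finset.card_image_le.trans ?_)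
    rw [Nat.card_Icc, Nat.add_sub_cancel]
  have hdm : fh k * (P.n / fh k) ≤ P.n := Nat.mul_div_le _ _
  calc 2 ^ k * S.card ≤ (4 * fh k) * (2 * (P.n / fh k)) :=
        Nat.mul_le_mul f3 (hcard.trans (Nat.mul_le_mul_left _ hc2))
    _ = 8 * (fh k * (P.n / fh k)) := by ring
    _ ≤ 8 * P.n := Nat.mul_le_mul_left _ hdm

/-- MODULE F3E (size 1). PURE. `2 ^ K * a K ≤ X` for `K ≥ L`: `2 ^ L * ∑ a K ≤ 2 * X` (`a K * 2 ^ (K - L)` ...; or induction on `r`: `2 ^ (L + r) * ∑_{i ≤ r} a (L + i) ≤ ...`). -/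
theorem geom_sum (a : ℕ → ℕ) (X L : ℕ) (h : ∀ K, L ≤ K → 2 ^ K * a K ≤ X) (r : ℕ) :
    2 ^ L * ∑ i ∈ Finset.range r, a (L + i) ≤ 2 * X := by
  have key : 2 ^ (L + r) * ∑ i ∈ Finset.range r, a (L + i) + 2 * X ≤ 2 ^ (r + 1) * X := by
    induction r with
    | zero => simp
    | succ r ih =>
      rw [Finset.sum_range_succ]
      have h1 := h (L + r) (Nat.le_add_right _ _)
      calc 2 ^ (L + (r + 1)) * (∑ i ∈ Finset.range r, a (L + i) + a (L + r)) + 2 * X
          = 2 * (2 ^ (L + r) * ∑ i ∈ Finset.range r, a (L + i) + 2 * X) +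
            2 * (2 ^ (L + r) * a (L + r)) - 2 * X := by
            have e : 2 ^ (L + (r + 1)) * (∑ i ∈ Finset.range r, a (L + i) + a (L + r)) =
              2 * (2 ^ (L + r) * ∑ i ∈ Finset.range r, a (L + i)) +
                2 * (2 ^ (L + r) * a (L + r)) := by
              rw [← add_assoc, pow_succ]
              ring
            rw [e]
            omega
        _ ≤ 2 * (2 ^ (r + 1) * X) + 2 * X - 2 * X := by omega
        _ = 2 ^ (r + 1 + 1) * X := by
            rw [Nat.add_sub_cancel, pow_succ 2 (r + 1)]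
            ring
  have h1 : 2 ^ r * (2 ^ L * ∑ i ∈ Finset.range r, a (L + i)) ≤ 2 ^ r * (2 * X) := by
    calc 2 ^ r * (2 ^ L * ∑ i ∈ Finset.range r, a (L + i))
        = 2 ^ (L + r) * ∑ i ∈ Finset.range r, a (L + i) := by
          rw [pow_add]
          ring
      _ ≤ 2 ^ (r + 1) * X := by omega
      _ = 2 ^ r * (2 * X) := by
          rw [pow_succ]
          ring
  exact Nat.le_of_mul_le_mul_left h1 (by positivity)

/-- MODULE F3 (size 1). THE LAZY LEADERS. `level0`, `level`, `geom_sum` for `L = k + 2` (`X = 48 * n`: `2 ^ (k + 2) * ∑ ≤ 96 * n`); `2 ^ (k + 1) < g - pm ≤ n` (`basic`), so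
`k + 1 ≤ log2 (g - pm) ≤ log2 n`. -/
theorem Fam.card (h : P.Fam k R b tm pm g gq tq) : 2 ^ k * R.card ≤ 32 * P.n := by
  classical
  set A : ℕ → Finset (ℕ × ℕ) := fun K => R.filter (fun q => Nat.log 2 (g q - pm q) = K) with hA
  have hsub : R ⊆ A (k + 1) ∪ (Finset.range (Nat.log 2 P.n + 1)).biUnion (fun i => A (k + 2 + i)) := by
    intro q hq
    obtain ⟨a1, a2, a3, a4, a5, a6, a7⟩ := (h.lzy q hq).basic
    have e1 : k + 1 ≤ Nat.log 2 (g q - pm q) := by
      refine (Nat.le_log_iff_pow_le (by norm_num) (by omega)).2 (by omega)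
    have e2 : Nat.log 2 (g q - pm q) ≤ Nat.log 2 P.n := Nat.log_mono_right (by omega)
    rw [Finset.mem_union]
    by_cases hk : Nat.log 2 (g q - pm q) = k + 1
    · left
      rw [hA, Finset.mem_filter]
      exact ⟨hq, hk⟩
    · right
      rw [Finset.mem_biUnion]
      refine ⟨Nat.log 2 (g q - pm q) - (k + 2), ?_, ?_⟩
      · rw [Finset.mem_range]
        omega
      · rw [hA, Finset.mem_filter]
        exact ⟨hq, by omega⟩
  have h1 : R.card ≤ (A (k + 1)).card +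
      ∑ i ∈ Finset.range (Nat.log 2 P.n + 1), (A (k + 2 + i)).card :=
    (Finset.card_le_card hsub).trans ((Finset.card_union_le _ _).trans
      (Nat.add_le_add_left Finset.card_biUnion_le _))
  have h2 : 2 ^ k * (A (k + 1)).card ≤ 8 * P.n := h.level0
  have h3 := geom_sum (fun K => (A K).card) (48 * P.n) (k + 2) (fun K hK => h.level hK)
    (Nat.log 2 P.n + 1)
  have h4 : 2 ^ k * ∑ i ∈ Finset.range (Nat.log 2 P.n + 1), (A (k + 2 + i)).card ≤ 24 * P.n := by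
    have e1 : 2 ^ (k + 2) * ∑ i ∈ Finset.range (Nat.log 2 P.n + 1), (A (k + 2 + i)).card =
        4 * (2 ^ k * ∑ i ∈ Finset.range (Nat.log 2 P.n + 1), (A (k + 2 + i)).card) := by
      rw [pow_add]
      ring
    have e2 : 2 ^ (k + 2) * ∑ i ∈ Finset.range (Nat.log 2 P.n + 1), (A (k + 2 + i)).card ≤
        2 * (48 * P.n) := h3
    rw [e1] at e2
    omega
  calc 2 ^ k * R.card ≤ 2 ^ k * ((A (k + 1)).card +
        ∑ i ∈ Finset.range (Nat.log 2 P.n + 1), (A (k + 2 + i)).card) :=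
        Nat.mul_le_mul_left _ h1
    _ = 2 ^ k * (A (k + 1)).card +
        2 ^ k * ∑ i ∈ Finset.range (Nat.log 2 P.n + 1), (A (k + 2 + i)).card := by ring
    _ ≤ 8 * P.n + 24 * P.n := Nat.add_le_add h2 h4
    _ = 32 * P.n := by ring

end Pop

end Pool.Agent.SplDq
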