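import Pool.Agent.SplDq.FrP

/-! # FAR, part 3: the sum -/

set_option autoImplicit false

namespace Pool.Agent.SplDq

/-- MODULE F4D (size 1). PURE. `∑_k (3 k + 7) / 2 ^ (k / 2) ≤ 58` in the form needed: induction on `r` for
`∑_{k < r} (3 k + 7) * a k ≤ (58 - (6 r + 28) / 2 ^ (r / 2)) * X` over the rationals, or pairs `k = 2 i, 2 i + 1`. -/
theorem sum58 (a : ℕ → ℕ) (X : ℕ) (h : ∀ k, 2 ^ (k / 2) * a k ≤ X) (r : ℕ) :
    ∑ k ∈ Finset.range r, (3 * k + 7) * a k ≤ 58 * X := by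
  have key : ∀ i : ℕ, 2 ^ i * ∑ k ∈ Finset.range (2 * i), (3 * k + 7) * a k + (24 * i + 58) * X ≤
      58 * 2 ^ i * X := by
    intro i
    induction i with
    | zero => simp
    | succ i ih =>
      have h1 := h (2 * i)
      have h2 := h (2 * i + 1)
      rw [show 2 * i / 2 = i by omega] at h1
      rw [show (2 * i + 1) / 2 = i by omega] at h2
      rw [show 2 * (i + 1) = 2 * i + 1 + 1 by ring, Finset.sum_range_succ, Finset.sum_range_succ,
        pow_succ]
      generalize ∑ k ∈ Finset.range (2 * i), (3 * k + 7) * a k = S at *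
      generalize a (2 * i) = u at *
      generalize a (2 * i + 1) = v at *
      generalize 2 ^ i = E at *
      have h3 := Nat.mul_le_mul_left (2 * (6 * i + 7)) h1
      have h4 := Nat.mul_le_mul_left (2 * (6 * i + 10)) h2
      nlinarith
  have h1 := key r
  have h2 : ∑ k ∈ Finset.range r, (3 * k + 7) * a k ≤
      ∑ k ∈ Finset.range (2 * r), (3 * k + 7) * a k :=
    Finset.sum_le_sum_of_subset (Finset.range_mono (by omega))
  refine h2.trans ?_
  have h3 : 2 ^ r * ∑ k ∈ Finset.range (2 * r), (3 * k + 7) * a k ≤ 2 ^ r * (58 * X) := by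
    have : 58 * 2 ^ r * X = 2 ^ r * (58 * X) := by ring
    rw [← this]
    omega
  exact Nat.le_of_mul_le_mul_left h3 (by positivity)

namespace Pop

/-- MODULE F4E (size 2). One scale. `leaders_k` for all `mu ∈ Mu k`; the pairs `(mu, s)`, `s ∈ Λ mu`, form a family (`Fam`), so `2 ^ k * ∑ |Λ| ≤ 32 * n`; `Mu_card`, `TF_sum`; `j = k / 2`, `4 ^ j ≤ 2 ^ k ≤ 2 * 4 ^ j`:
`2 ^ j 2 ^ k ∑ |D| ≤ 2 ^ j 32 n + (2 * 2 ^ j + 4 ^ j) 4 n + 16 * 2 ^ k th`, so `2 ^ k ∑ |D| ≤ 2 ^ j * 44 * (n + th)`. -/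
theorem scale_card (P : Pop) (k : ℕ) : ∃ D : ℕ → ℕ,
    (∀ mu ∈ P.Mu k, (P.QF k mu).card ≤ (3 * k + 7) * D mu) ∧
      2 ^ (k / 2) * ∑ mu ∈ P.Mu k, D mu ≤ 44 * (P.n + P.th) := by
  classical
  choose D Λ hΛ hQ hj b tm pm g gq tq hrec hord using fun mu => leaders_k P k mu
  refine ⟨fun mu => (D mu).card, fun mu _ => hQ mu, ?_⟩
  set j := k / 2 with hjdef
  set R : Finset (ℕ × ℕ) := (P.Mu k ×ˢ Finset.range P.m).filter (fun q => q.2 ∈ Λ q.1) with hR
  have hFam : P.Fam k R (fun q => b q.1 q.2) (fun q => tm q.1 q.2) (fun q => pm q.1 q.2)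
      (fun q => g q.1 q.2) (fun q => gq q.1 q.2) (fun q => tq q.1 q.2) :=
    { lzy := fun q hq => hrec q.1 q.2 (Finset.mem_filter.1 hq).2
      ord := fun q hq q' hq' h1 h2 => by
        have h3 := (Finset.mem_filter.1 hq').2
        rw [h1] at h3
        exact hord q.1 q'.2 h3 q.2 (Finset.mem_filter.1 hq).2 h2
      grid := fun q hq => by
        have h1 := (Finset.mem_product.1 (Finset.mem_filter.1 hq).1).1
        rw [Mu, Finset.mem_filter, Finset.mem_range] at h1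
        obtain ⟨h2, t, ht⟩ := h1
        obtain ⟨_, p, g, hG, hk, hm⟩ := Finset.mem_filter.1 ht
        have h3 := fm_bd k p
        rw [hm] at h3
        have h4 := fh_bd k
        exact ⟨h3.1, by omega, by omega⟩ }
  have hSL : ∑ mu ∈ P.Mu k, (Λ mu).card ≤ R.card := by
    rw [Finset.card_eq_sum_card_fiberwise (s := R) (t := P.Mu k) (f := Prod.fst)
      (fun q hq => (Finset.mem_product.1 (Finset.mem_filter.1 hq).1).1)]
    apply Finset.sum_le_sum
    intro mu hmu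
    apply Finset.card_le_card_of_injOn (fun s => (mu, s))
    · intro s hs
      have hs' : s ∈ Λ mu := hs
      have h1 := Finset.mem_filter.1 (hΛ mu hs')
      rw [Finset.mem_coe, Finset.mem_filter, hR, Finset.mem_filter, Finset.mem_product]
      exact ⟨⟨⟨hmu, h1.1⟩, hs'⟩, rfl⟩
    · intro s _ s' _ h
      exact congrArg Prod.snd h
  have e1 : 2 ^ k * ∑ mu ∈ P.Mu k, (Λ mu).card ≤ 32 * P.n :=
    (Nat.mul_le_mul_left _ hSL).trans hFam.card
  have e2 := P.Mu_card k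
  have e3 := P.TF_sum k
  have e4 : 2 ^ j * ∑ mu ∈ P.Mu k, (D mu).card ≤
      2 ^ j * ∑ mu ∈ P.Mu k, (Λ mu).card + (2 ^ j * 2 + 4 ^ j) * (P.Mu k).card +
        2 * ∑ mu ∈ P.Mu k, (P.TF k mu).card := by
    have h0 : (2 ^ j * 2 + 4 ^ j) * (P.Mu k).card =
        ∑ mu ∈ P.Mu k, (2 ^ j * 2 + 4 ^ j) := by
      rw [Finset.sum_const, smul_eq_mul, mul_comm]
    rw [Finset.mul_sum, Finset.mul_sum, Finset.mul_sum, h0, ← Finset.sum_add_distrib,
      ← Finset.sum_add_distrib]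
    apply Finset.sum_le_sum
    intro mu _
    have := hj mu j
    calc 2 ^ j * (D mu).card ≤ 2 ^ j * ((Λ mu).card + 2) + 4 ^ j + 2 * (P.TF k mu).card := this
      _ = _ := by ring
  have ha : (4 : ℕ) ^ j = 2 ^ j * 2 ^ j := by
    rw [← mul_pow]; norm_num
  have hK1 : 2 ^ j * 2 ^ j ≤ 2 ^ k := by
    rw [← pow_add]
    exact Nat.pow_le_pow_right (by norm_num) (by omega)
  have hK2 : 2 ^ k ≤ 2 * (2 ^ j * 2 ^ j) := by
    rw [← pow_add, ← pow_succ']
    exact Nat.pow_le_pow_right (by norm_num) (by omega)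
  have hapos : 0 < 2 ^ j := by positivity
  rw [ha] at e4
  set a := 2 ^ j
  set K := 2 ^ k
  set SD := ∑ mu ∈ P.Mu k, (D mu).card
  set SΛ := ∑ mu ∈ P.Mu k, (Λ mu).card
  set M := (P.Mu k).card
  set ST := ∑ mu ∈ P.Mu k, (P.TF k mu).card
  set n := P.n
  set th := P.th
  have f1 : a * (K * SD) ≤ a * (32 * n) + (a * 2 + a * a) * (4 * n) + 2 * (K * (8 * th)) := by
    calc a * (K * SD) = K * (a * SD) := by ring
      _ ≤ K * (a * SΛ + (a * 2 + a * a) * M + 2 * ST) := Nat.mul_le_mul_left _ e4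
      _ = a * (K * SΛ) + (a * 2 + a * a) * (K * M) + 2 * (K * ST) := by ring
      _ ≤ a * (32 * n) + (a * 2 + a * a) * (4 * n) + 2 * (K * (8 * th)) := by gcongr
  have f2 : a * (K * SD) ≤ a * (40 * n + a * (4 * n) + a * (32 * th)) := by
    calc a * (K * SD) ≤ a * (32 * n) + (a * 2 + a * a) * (4 * n) + 2 * (K * (8 * th)) := f1
      _ ≤ a * (32 * n) + (a * 2 + a * a) * (4 * n) + 2 * ((2 * (a * a)) * (8 * th)) := by gcongr
      _ = a * (40 * n + a * (4 * n) + a * (32 * th)) := by ring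
  have f3 : K * SD ≤ 40 * n + a * (4 * n) + a * (32 * th) := Nat.le_of_mul_le_mul_left f2 hapos
  have f4 : a * (a * SD) ≤ a * (44 * (n + th)) := by
    calc a * (a * SD) = (a * a) * SD := by ring
      _ ≤ K * SD := Nat.mul_le_mul_right _ hK1
      _ ≤ 40 * n + a * (4 * n) + a * (32 * th) := f3
      _ ≤ a * (40 * n) + a * (4 * n) + a * (44 * th) := by
          have g1 : 40 * n ≤ a * (40 * n) := Nat.le_mul_of_pos_left _ hapos
          have g2 : a * (32 * th) ≤ a * (44 * th) := Nat.mul_le_mul_left _ (by omega)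
          omega
      _ = a * (44 * (n + th)) := by ring
  exact Nat.le_of_mul_le_mul_left f4 hapos

/-- F4. THE GOOD KILLS. -/
theorem NG_card (P : Pop) : P.NG ≤ 2552 * (P.n + P.th) := by
  classical
  choose D hD1 hD2 using P.scale_card
  refine P.NG_le.trans ?_
  calc ∑ k ∈ Finset.range (Nat.log 2 P.n + 1), ∑ mu ∈ P.Mu k, (P.QF k mu).card
      ≤ ∑ k ∈ Finset.range (Nat.log 2 P.n + 1), (3 * k + 7) * ∑ mu ∈ P.Mu k, D k mu := by
        apply Finset.sum_le_sum
        intro k _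
        rw [Finset.mul_sum]
        exact Finset.sum_le_sum (fun mu hmu => hD1 k mu hmu)
    _ ≤ 58 * (44 * (P.n + P.th)) := sum58 _ _ hD2 _
    _ = 2552 * (P.n + P.th) := by ring

end Pop

end Pool.Agent.SplDq
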