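import Pool.Agent.SplDq.NrF

/-! # NEAR, part 4: the long near kills and the sum -/

set_option autoImplicit false

namespace Pool.Agent.SplDq

namespace Pop

variable {P : Pop}

private theorem N5A_succ {t p g g' : ℕ} (h : P.K t p g) (h' : P.K t p g') : g = g' := by
  obtain ⟨h1, h2, h3, h4⟩ := P.K_V t p g h
  obtain ⟨h1', h2', h3', h4'⟩ := P.K_V t p g' h'
  exact le_antisymm (h4 g' h2' h3') (h4' g h2 h3)

/-- Near kills at one time: at most as many victims as classes. -/
private theorem N5A_inj {t p p' g g' : ℕ} (h : P.K t p g) (hn : p - P.x t < g - p)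
    (h' : P.K t p' g') (hn' : p' - P.x t < g' - p') (hc : P.cls t p = P.cls t p') : g = g' := by
  rcases lt_trichotomy p p' with h1 | h1 | h1
  · have := cls_lt h hn h' h1
    omega
  · subst h1
    exact N5A_succ h h'
  · have := cls_lt h' hn' h h1
    omega

open scoped Classical in
private theorem N5A_card (t : ℕ) (A : Finset ℕ) (T : Finset ℕ)
    (h : ∀ g ∈ A, ∃ p, P.K t p g ∧ p - P.x t < g - p ∧ P.cls t p ∈ T) : A.card ≤ T.card := by
  have hch : ∀ g : ℕ, ∃ p, g ∈ A → P.K t p g ∧ p - P.x t < g - p ∧ P.cls t p ∈ T := by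
    intro g
    by_cases hg : g ∈ A
    · obtain ⟨p, hp⟩ := h g hg
      exact ⟨p, fun _ => hp⟩
    · exact ⟨0, fun h => absurd h hg⟩
  choose pk hpk using hch
  apply Finset.card_le_card_of_injOn (fun g => P.cls t (pk g))
  · intro g hg
    exact (hpk g hg).2.2
  · intro g hg g' hg' heq
    have h1 := hpk g hg
    have h2 := hpk g' hg'
    exact N5A_inj h1.1 h1.2.1 h2.1 h2.2.1 heq

open scoped Classical in
/-- MODULE N5A (size 2). LONG near kills at one time. Let `s` be the number of visible keys; the classes are pairwise different (`cls_lt`) and `cls ^ 2 < vab ≤ s`, so there are at most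
`sqrt s + 1` of them; `200 * (sqrt s + 1) ≤ s + 10200`, `s ≤ 2 * kills + 4 + io` (`many`). -/
theorem long_card (t : ℕ) (ht : t < P.m) :
    100 * ((Finset.range (P.n + 1)).filter (fun g => ∃ p, P.K t p g ∧ p - P.x t < g - p ∧
      P.cls t p ^ 2 < P.vab t p)).card ≤
      ((Finset.range (P.n + 1)).filter (fun g => ∃ p, P.K t p g)).card + P.io t + 5200 := by
  have hmany := P.many t ht
  obtain ⟨s, hs⟩ : ∃ s, s = ((Finset.range (P.n + 1)).filter (fun v => P.V t v)).card := ⟨_, rfl⟩
  rw [← hs] at hmany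
  have h1 : ((Finset.range (P.n + 1)).filter (fun g => ∃ p, P.K t p g ∧ p - P.x t < g - p ∧
      P.cls t p ^ 2 < P.vab t p)).card ≤ (Finset.range (Nat.sqrt s + 1)).card := by
    apply N5A_card t
    intro g hg
    rw [Finset.mem_filter] at hg
    obtain ⟨-, p, h1, h2, h3⟩ := hg
    refine ⟨p, h1, h2, ?_⟩
    rw [Finset.mem_range]
    apply Nat.lt_succ_of_le
    rw [Nat.le_sqrt']
    have h4 : P.vab t p ≤ s := by
      rw [hs]
      unfold vab
      apply Finset.card_le_card
      intro v hv
      rw [Finset.mem_filter] at hv ⊢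
      exact ⟨hv.1, hv.2.1⟩
    omega
  rw [Finset.card_range] at h1
  have h2 := Nat.sqrt_le' s
  obtain ⟨w, hw⟩ : ∃ w, w = Nat.sqrt s := ⟨_, rfl⟩
  rw [← hw] at h1 h2
  have h3 : 200 * w ≤ w ^ 2 + 10000 := by
    have : (0 : ℤ) ≤ ((w : ℤ) - 100) ^ 2 := sq_nonneg _
    zify
    nlinarith
  omega

open scoped Classical in
/-- MODULE N5B (size 1). The near kills at one time which are not short near kills of class `≥ 96`: the root victim (at most one), the irregular victims (`irr`), the long near kills, those of class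
`< 96` (`cls_lt`: at most `96`). -/
theorem rest_card (t : ℕ) (ht : t < P.m) :
    ((Finset.range (P.n + 1)).filter (fun g => (∃ p, P.K t p g ∧ p - P.x t < g - p) ∧
      ¬ ∃ p, P.Sh t p g ∧ 96 ≤ P.cls t p)).card ≤
      1 + P.io t + ((Finset.range (P.n + 1)).filter (fun g => ∃ p, P.K t p g ∧
        p - P.x t < g - p ∧ P.cls t p ^ 2 < P.vab t p)).card + 96 := by
  have hirr := P.irr t ht
  set A1 := (Finset.range (P.n + 1)).filter (fun g => (∃ p, P.K t p g) ∧ ¬ ∃ w, P.V t w ∧ g < w)
    with hA1
  set A2 := (Finset.range (P.n + 1)).filter (fun g => (∃ p, P.K t p g) ∧ ∃ w, g ≤ w ∧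
      3 * ((Finset.Icc g w).filter (fun v => P.V t v)).card + 4 <
        4 * ((Finset.Icc g w).filter (fun v => P.V t v ∧ ¬ ∃ p, P.K t p v)).card) with hA2
  set A3 := (Finset.range (P.n + 1)).filter (fun g => ∃ p, P.K t p g ∧
        p - P.x t < g - p ∧ P.cls t p ^ 2 < P.vab t p) with hA3
  set A4 := (Finset.range (P.n + 1)).filter (fun g => ∃ p, P.K t p g ∧ p - P.x t < g - p ∧
    P.cls t p ∈ Finset.range 96) with hA4
  have c1 : A1.card ≤ 1 := by
    rw [Finset.card_le_one]
    intro g hg g' hg'
    rw [hA1, Finset.mem_filter] at hg hg'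
    obtain ⟨-, ⟨p, hp⟩, h2⟩ := hg
    obtain ⟨-, ⟨p', hp'⟩, h2'⟩ := hg'
    rcases lt_trichotomy g g' with h | h | h
    · exact absurd ⟨g', (P.K_V t p' g' hp').2.1, h⟩ h2
    · exact h
    · exact absurd ⟨g, (P.K_V t p g hp).2.1, h⟩ h2'
  have c4 : A4.card ≤ (Finset.range 96).card := by
    apply N5A_card t
    intro g hg
    rw [hA4, Finset.mem_filter] at hg
    exact hg.2
  rw [Finset.card_range] at c4
  have hsub : (Finset.range (P.n + 1)).filter (fun g => (∃ p, P.K t p g ∧ p - P.x t < g - p) ∧
      ¬ ∃ p, P.Sh t p g ∧ 96 ≤ P.cls t p) ⊆ ((A1 ∪ A2) ∪ A3) ∪ A4 := by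
    intro g hg
    rw [Finset.mem_filter] at hg
    obtain ⟨h0, ⟨p, hK, hn⟩, hno⟩ := hg
    by_cases c : ∃ w, P.V t w ∧ g < w
    · by_cases r : P.Reg t g
      · by_cases sh : P.vab t p ≤ P.cls t p ^ 2
        · have hSh : P.Sh t p g := ⟨hK, hn, c, r, sh⟩
          have hlt : P.cls t p < 96 := by
            by_contra hcon
            exact hno ⟨p, hSh, by omega⟩
          apply Finset.mem_union_right
          rw [hA4, Finset.mem_filter]
          exact ⟨h0, p, hK, hn, Finset.mem_range.mpr hlt⟩
        · apply Finset.mem_union_left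
          apply Finset.mem_union_right
          rw [hA3, Finset.mem_filter]
          exact ⟨h0, p, hK, hn, by omega⟩
      · apply Finset.mem_union_left
        apply Finset.mem_union_left
        apply Finset.mem_union_right
        rw [hA2, Finset.mem_filter]
        refine ⟨h0, ⟨p, hK⟩, ?_⟩
        unfold Reg at r
        rw [not_forall] at r
        obtain ⟨w, hw⟩ := r
        rw [Classical.not_imp, not_le] at hw
        exact ⟨w, hw.1, hw.2⟩
    · apply Finset.mem_union_left
      apply Finset.mem_union_left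
      apply Finset.mem_union_left
      rw [hA1, Finset.mem_filter]
      exact ⟨h0, ⟨p, hK⟩, c⟩
  have h1 := Finset.card_le_card hsub
  have h2 := Finset.card_union_le ((A1 ∪ A2) ∪ A3) A4
  have h3 := Finset.card_union_le (A1 ∪ A2) A3
  have h4 := Finset.card_union_le A1 A2
  omega

open scoped Classical in
private theorem N6_sum (R : ℕ → ℕ → Prop) (hR : ∀ t g, R t g → ∃ p, P.K t p g) :
    (P.kills.filter (fun q => R q.1 q.2)).card =
      ∑ t ∈ Finset.range P.m, ((Finset.range (P.n + 1)).filter (fun g => R t g)).card := by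
  have e : P.kills.filter (fun q => R q.1 q.2)
      = (Finset.range P.m ×ˢ Finset.range (P.n + 1)).filter (fun q => R q.1 q.2) := by
    unfold kills
    rw [Finset.filter_filter]
    apply Finset.filter_congr
    intro q _
    exact ⟨fun h => h.2, fun h => ⟨hR _ _ h, h⟩⟩
  rw [e, Finset.card_filter, Finset.sum_product]
  apply Finset.sum_congr rfl
  intro t _
  rw [Finset.card_filter]

open scoped Classical in
private theorem N6_split (t : ℕ) :
    ((Finset.range (P.n + 1)).filter (fun g => ∃ p, P.K t p g ∧ p - P.x t < g - p)).card ≤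
      ((Finset.range (P.n + 1)).filter (fun g => ∃ p, P.Sh t p g ∧ 96 ≤ P.cls t p)).card +
      ((Finset.range (P.n + 1)).filter (fun g => (∃ p, P.K t p g ∧ p - P.x t < g - p) ∧
      ¬ ∃ p, P.Sh t p g ∧ 96 ≤ P.cls t p)).card := by
  refine le_trans (Finset.card_le_card ?_) (Finset.card_union_le _ _)
  intro g hg
  rw [Finset.mem_filter] at hg
  rw [Finset.mem_union, Finset.mem_filter, Finset.mem_filter]
  by_cases h : ∃ p, P.Sh t p g ∧ 96 ≤ P.cls t p
  · exact Or.inl ⟨hg.1, h⟩
  · exact Or.inr ⟨hg.1, hg.2, h⟩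

/-- MODULE N6 (size 2). THE NEAR KILLS. Sum of `rest_card` and `long_card` over the times (`Finset.card_filter`, `Finset.sum_product`), `card_sh`, `fam_card`. -/
theorem near_main (P : Pop) : 100 * P.NN ≤ P.N + 30000 * (P.n + P.m + P.th + P.iota) := by
  classical
  have hNN : P.NN = ∑ t ∈ Finset.range P.m, ((Finset.range (P.n + 1)).filter
      (fun g => ∃ p, P.K t p g ∧ p - P.x t < g - p)).card := by
    unfold NN nearK
    exact N6_sum (P := P) (fun t g => ∃ p, P.K t p g ∧ p - P.x t < g - p)
      (fun t g ⟨p, h, _⟩ => ⟨p, h⟩)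
  have hN : P.N = ∑ t ∈ Finset.range P.m, ((Finset.range (P.n + 1)).filter
      (fun g => ∃ p, P.K t p g)).card := by
    have h1 := N6_sum (P := P) (fun t g => ∃ p, P.K t p g) (fun t g h => h)
    have h2 : P.kills.filter (fun q => ∃ p, P.K q.1 p q.2) = P.kills := by
      apply Finset.filter_true_of_mem
      intro q hq
      unfold kills at hq
      exact (Finset.mem_filter.mp hq).2
    rw [h2] at h1
    exact h1
  have hsh : ∑ t ∈ Finset.range P.m, ((Finset.range (P.n + 1)).filter
      (fun g => ∃ p, P.Sh t p g ∧ 96 ≤ P.cls t p)).card ≤ 64 * (P.m + (P.m + P.n + P.th)) := by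
    rw [← N6_sum (P := P) (fun t g => ∃ p, P.Sh t p g ∧ 96 ≤ P.cls t p)
      (fun t g ⟨p, h, _⟩ => ⟨p, h.kill⟩)]
    refine card_sh.trans ?_
    have h1 : ∀ r ∈ Finset.range 4, ∑ q ∈ Finset.range 16, ((P.wd r q).Sc 96).card
        ≤ 16 * (P.m + (P.m + P.n + P.th)) := by
      intro r _
      have := Finset.sum_le_card_nsmul (Finset.range 16) (fun q => ((P.wd r q).Sc 96).card)
        (P.m + (P.m + P.n + P.th)) (fun q _ => fam_card r q)
      simpa using this
    have h2 := Finset.sum_le_card_nsmul (Finset.range 4) _ _ h1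
    simp only [Finset.card_range, smul_eq_mul] at h2
    omega
  have hterm : ∀ t ∈ Finset.range P.m,
      100 * ((Finset.range (P.n + 1)).filter
        (fun g => ∃ p, P.K t p g ∧ p - P.x t < g - p)).card ≤
      100 * ((Finset.range (P.n + 1)).filter
        (fun g => ∃ p, P.Sh t p g ∧ 96 ≤ P.cls t p)).card +
      (((Finset.range (P.n + 1)).filter (fun g => ∃ p, P.K t p g)).card + 101 * P.io t
        + 14900) := by
    intro t ht
    have ht := Finset.mem_range.mp ht
    have h1 := N6_split (P := P) t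
    have h2 := rest_card (P := P) t ht
    have h3 := long_card (P := P) t ht
    omega
  have hsum := Finset.sum_le_sum hterm
  rw [← Finset.mul_sum, Finset.sum_add_distrib, ← Finset.mul_sum, Finset.sum_add_distrib,
    Finset.sum_add_distrib, ← Finset.mul_sum, ← hNN, ← hN] at hsum
  simp only [Finset.sum_const, Finset.card_range, smul_eq_mul] at hsum
  have hio : P.iota = ∑ t ∈ Finset.range P.m, P.io t := rfl
  rw [← hio] at hsum
  omega

end Pop

end Pool.Agent.SplDq
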