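import Pool.Agent.SplDq.FrS
import Pool.Agent.SplDq.NrL

set_option autoImplicit false

/-! # The main theorem of the abstract part -/

namespace Pool.Agent.SplDq

/-- **The number of kills is linear.** -/
theorem pop_main : ∃ C : ℕ, ∀ P : Pop, P.N ≤ C * (P.n + P.m + P.th + P.iota) := by
  refine ⟨4000, fun P => ?_⟩
  have h1 := P.near_main
  have h2 := P.reduce
  have h3 := P.NG_card
  omega

end Pool.Agent.SplDq
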