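import Pool.Agent.SplDq.Pot

set_option autoImplicit false

/-!
# The mirror image
-/

namespace Pool.Agent.SplDq

open Pool.Agent.SplLog Pool.Agent.SplLs
open scoped Classical

variable {S : Sys} {M s t u v w g p q y a b : ℕ}

/-- Sets which correspond to each other in the mirror have the same size. -/
private theorem MD_card {P P' : ℕ → Prop} (h : ∀ u ∈ S.K, P' (S.top - u) ↔ P u) :
    (S.mir.K.filter P').card = (S.K.filter P).card := by
  have e : S.mir.K.filter P' = (S.K.filter P).image (fun u => S.top - u) := by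
    ext v
    rw [Finset.mem_image, Finset.mem_filter]
    constructor
    · rintro ⟨h1, h2⟩
      obtain ⟨u, hu, rfl⟩ := Sys.mir_mem.1 h1
      exact ⟨u, Finset.mem_filter.2 ⟨hu, (h u hu).1 h2⟩, rfl⟩
    · rintro ⟨u, hu, rfl⟩
      rw [Finset.mem_filter] at hu
      exact ⟨Sys.mir_mem.2 ⟨u, hu.1, rfl⟩, (h u hu.1).2 hu.2⟩
  rw [e, Finset.card_image_of_injOn]
  intro u hu u' hu' he
  rw [Finset.mem_coe, Finset.mem_filter] at hu hu'
  have h1 := S.key u hu.1
  have h2 := S.key u' hu'.1
  simp only at he
  omega

/-- **M1.** -/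
theorem Deq.mir (hD : Deq S M) (hM : M ≤ S.top) : Deq S.mir (S.top + 1 - M) := by
  constructor
  · intro i j hij hj hi
    have hj' : j < S.m := hj
    have h1 := S.key _ (S.req i (lt_of_le_of_lt hij hj'))
    have h2 := S.key _ (S.req j hj')
    change S.top - S.X i < _ at hi
    change S.top - S.X i ≤ S.top - S.X j
    have := hD.right i j hij hj' (by omega)
    omega
  · intro i j hij hj hi
    have hj' : j < S.m := hj
    have h1 := S.key _ (S.req i (lt_of_le_of_lt hij hj'))
    have h2 := S.key _ (S.req j hj')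
    change _ ≤ S.top - S.X i at hi
    change S.top - S.X j ≤ S.top - S.X i
    have := hD.left i j hij hj' (by omega)
    omega

/-- **M2.** The touches from the right. -/
theorem touch_le (hM : M ≤ S.top) :
    (((Finset.range S.m) ×ˢ (Finset.range (S.top + 1))).filter (fun q => Bs S M q.1 q.2)).card ≤
      fU S.mir (S.top + 1 - M) := by
  have e : fU S.mir (S.top + 1 - M) =
      (((Finset.range S.m).filter (fun t => S.mir.X t < S.top + 1 - M)).sigma
        (fun t => S.mir.K.filter (fun v => S.mir.R t v ∧ S.top + 1 - M ≤ v))).card := by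
    rw [Finset.card_sigma]
    rfl
  rw [e]
  apply Finset.card_le_card_of_injOn (fun q => (⟨q.1, S.top - q.2⟩ : Σ _ : ℕ, ℕ))
  · intro q hq
    rw [Finset.mem_coe, Finset.mem_filter] at hq
    obtain ⟨hq1, hL, hq2, hq3, hq4⟩ := hq
    have hK := hL.2.1
    have hk := S.key _ hK
    have hx := S.key _ (S.req _ hL.1)
    rw [Finset.mem_coe, Finset.mem_sigma]
    refine ⟨?_, ?_⟩
    · rw [Finset.mem_filter, Finset.mem_range]
      refine ⟨hL.1, ?_⟩
      change S.top - S.X q.1 < _
      omega
    · rw [Finset.mem_filter]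
      refine ⟨Sys.mir_mem.2 ⟨q.2, hK, rfl⟩, (Sys.mir_R hK).2 hL, ?_⟩
      change _ ≤ S.top - q.2
      omega
  · intro q hq q' hq' he
    rw [Finset.mem_coe, Finset.mem_filter] at hq hq'
    have h1 := S.key _ hq.2.1.2.1
    have h2 := S.key _ hq'.2.1.2.1
    simp only [Sigma.mk.injEq, heq_eq_eq] at he
    exact Prod.ext he.1 (by omega)

/-- **M3.** -/
theorem cost_split (hD : Deq S M) (hM : M ≤ S.top) :
    ∑ t ∈ Finset.range S.m, (S.K.filter (fun v => v ≠ S.X t ∧ S.E t v)).card ≤
      fR S M + fR S.mir (S.top + 1 - M) + 2 * S.K.card := by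
  have hR : ∀ t, (S.mir.K.filter (fun v => S.mir.R t v)).card =
      (S.K.filter (fun v => S.L t v)).card := by
    intro t
    apply MD_card
    intro u hu
    exact Sys.mir_R hu
  have hL : ∀ t, (S.mir.K.filter (fun v => S.mir.L t v)).card =
      (S.K.filter (fun v => S.R t v)).card := by
    intro t
    apply MD_card
    intro u hu
    exact Sys.mir_L hu
  have hK : S.mir.K.card = S.K.card := by
    change (S.K.image (fun v => S.top - v)).card = _
    apply Finset.card_image_of_injOn
    intro u hu u' hu' he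
    have h1 := S.key u hu
    have h2 := S.key u' hu'
    simp only at he
    omega
  have hmem : ∀ t, t < S.m → (S.mir.X t < S.top + 1 - M ↔ ¬ S.X t < M) := by
    intro t ht
    have h1 := S.key _ (S.req t ht)
    change S.top - S.X t < _ ↔ _
    omega
  have hs1 := sum_nL hD
  have hs2 := sum_nL (hD.mir hM)
  rw [hK] at hs2
  have hfilt : (Finset.range S.mir.m).filter (fun t => S.mir.X t < S.top + 1 - M) =
      (Finset.range S.m).filter (fun t => ¬ S.X t < M) := by
    change (Finset.range S.m).filter _ = _
    apply Finset.filter_congr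
    intro t ht
    exact hmem t (Finset.mem_range.1 ht)
  have h1 : fR S.mir (S.top + 1 - M) =
      ∑ t ∈ (Finset.range S.m).filter (fun t => ¬ S.X t < M), nL S t := by
    unfold fR
    rw [hfilt]
    apply Finset.sum_congr rfl
    intro t _
    exact hR t
  have h2 : ∑ t ∈ (Finset.range S.m).filter (fun t => ¬ S.X t < M),
      (S.K.filter (fun v => S.R t v)).card ≤ S.K.card := by
    rw [hfilt] at hs2
    refine le_trans (le_of_eq ?_) hs2
    apply Finset.sum_congr rfl
    intro t _
    exact (hL t).symm
  have h3 : ∀ t ∈ Finset.range S.m, (S.K.filter (fun v => v ≠ S.X t ∧ S.E t v)).card ≤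
      (S.K.filter (fun v => S.R t v)).card + nL S t := by
    intro t _
    unfold nL
    refine le_trans (Finset.card_le_card ?_) (Finset.card_union_le _ _)
    intro v hv
    rw [Finset.mem_filter] at hv
    rw [Finset.mem_union, Finset.mem_filter, Finset.mem_filter]
    rcases hv.2.2 with h | h | h
    · exact Or.inl ⟨hv.1, h⟩
    · exact Or.inr ⟨hv.1, h⟩
    · exact absurd h.2.2 hv.2.1
  refine (Finset.sum_le_sum h3).trans ?_
  rw [← Finset.sum_filter_add_sum_filter_not (Finset.range S.m) (fun t => S.X t < M),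
    Finset.sum_add_distrib, Finset.sum_add_distrib]
  have h4 : ∑ t ∈ (Finset.range S.m).filter (fun t => S.X t < M),
      (S.K.filter (fun v => S.R t v)).card = fR S M := rfl
  rw [h4, h1]
  omega

end Pool.Agent.SplDq
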