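import Pool.Agent.SplDq.NrD

/-! # NEAR, part 1: the alternation lemma -/

set_option autoImplicit false

namespace Pool.Agent.SplDq

/-- MODULE N1A (size 2). PURE. Every pair `r < s` of `J` gives a touch `(b, g s)` with `b` between `α r` and all `β i`, `i > r`. The map `(r, s) ↦ (b (min r s) (max r s), g (max r s))` from
`J.offDiag` to `T` has fibres of at most `4` elements: `g` determines `max r s`; if `r1 < r2 < r3` are smaller elements with the same `b` then `b < β r2 ≤ α r3 < b`. (`Finset.offDiag_card`,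
`Finset.card_le_mul_card_image_of_maps_to`.) -/
theorem pairs_card (J : Finset ℕ) (α β g : ℕ → ℕ) (T : Finset (ℕ × ℕ))
    (h2 : ∀ i ∈ J, ∀ j ∈ J, i < j → β i ≤ α j) (hg : ∀ i ∈ J, ∀ j ∈ J, i < j → g i < g j)
    (h : ∀ r ∈ J, ∀ s ∈ J, r < s → ∃ b, α r < b ∧ (∀ i ∈ J, r < i → b < β i) ∧ (b, g s) ∈ T) :
    J.card * (J.card - 1) ≤ 4 * T.card := by
  classical
  choose! b hb1 hb2 hb3 using h
  set Q : Finset (ℕ × ℕ) := (J ×ˢ J).filter (fun q => q.1 < q.2) with hQ
  have hoff : J.offDiag ⊆ Q ∪ Q.image Prod.swap := by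
    intro q hq
    rw [Finset.mem_offDiag] at hq
    obtain ⟨q1, q2, q3⟩ := hq
    rw [Finset.mem_union, Finset.mem_image]
    rcases lt_or_gt_of_ne q3 with hlt | hlt
    · left
      rw [hQ, Finset.mem_filter, Finset.mem_product]
      exact ⟨⟨q1, q2⟩, hlt⟩
    · right
      refine ⟨(q.2, q.1), ?_, rfl⟩
      rw [hQ, Finset.mem_filter, Finset.mem_product]
      exact ⟨⟨q2, q1⟩, hlt⟩
  have hcard : J.card * (J.card - 1) ≤ Q.card + Q.card := by
    have e : J.card * (J.card - 1) = J.offDiag.card := by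
      rw [Finset.offDiag_card, Nat.mul_sub, mul_one]
    rw [e]
    calc J.offDiag.card ≤ (Q ∪ Q.image Prod.swap).card := Finset.card_le_card hoff
      _ ≤ Q.card + (Q.image Prod.swap).card := Finset.card_union_le _ _
      _ ≤ Q.card + Q.card := by
        have := Finset.card_image_le (s := Q) (f := Prod.swap)
        omega
  have hgi : ∀ i ∈ J, ∀ j ∈ J, g i = g j → i = j := by
    intro i hi j hj hij
    rcases lt_trichotomy i j with hlt | heq | hlt
    · have := hg i hi j hj hlt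
      omega
    · exact heq
    · have := hg j hj i hi hlt
      omega
  have hfib : ∀ y ∈ T, (Q.filter (fun q => (b q.1 q.2, g q.2) = y)).card ≤ 2 := by
    intro y _
    set F := Q.filter (fun q => (b q.1 q.2, g q.2) = y) with hF
    have hmem : ∀ q ∈ F, q.1 ∈ J ∧ q.2 ∈ J ∧ q.1 < q.2 ∧ b q.1 q.2 = y.1 ∧ g q.2 = y.2 := by
      intro q hq
      rw [hF, Finset.mem_filter, hQ, Finset.mem_filter, Finset.mem_product] at hq
      refine ⟨hq.1.1.1, hq.1.1.2, hq.1.2, ?_, ?_⟩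
      · rw [← hq.2]
      · rw [← hq.2]
    have hinj : Set.InjOn Prod.fst (F : Set (ℕ × ℕ)) := by
      intro q hq q' hq' he
      have h1 := hmem q hq
      have h2' := hmem q' hq'
      have : q.2 = q'.2 := hgi _ h1.2.1 _ h2'.2.1 (by rw [h1.2.2.2.2, h2'.2.2.2.2])
      exact Prod.ext he this
    rw [← Finset.card_image_of_injOn hinj]
    set R := F.image Prod.fst with hR
    rcases R.eq_empty_or_nonempty with h0 | h0
    · rw [h0]
      simp
    have hmid : ∀ r1 ∈ R, ∀ r2 ∈ R, ∀ r3 ∈ R, r1 < r2 → r2 < r3 → False := by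
      intro r1 m1 r2 m2 r3 m3 l12 l23
      rw [hR, Finset.mem_image] at m1 m2 m3
      obtain ⟨q1, f1, rfl⟩ := m1
      obtain ⟨q2, f2, rfl⟩ := m2
      obtain ⟨q3, f3, rfl⟩ := m3
      have k1 := hmem q1 f1
      have k2 := hmem q2 f2
      have k3 := hmem q3 f3
      have z1 := hb2 q1.1 k1.1 q1.2 k1.2.1 k1.2.2.1 q2.1 k2.1 l12
      have z2 := h2 q2.1 k2.1 q3.1 k3.1 l23
      have z3 := hb1 q3.1 k3.1 q3.2 k3.2.1 k3.2.2.1
      rw [k1.2.2.2.1] at z1
      rw [k3.2.2.2.1] at z3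
      omega
    have hsub : R ⊆ {R.min' h0, R.max' h0} := by
      intro r hr
      rw [Finset.mem_insert, Finset.mem_singleton]
      by_contra hcon
      push Not at hcon
      exact hmid _ (R.min'_mem h0) r hr _ (R.max'_mem h0)
        (lt_of_le_of_ne (R.min'_le r hr) (Ne.symm hcon.1))
        (lt_of_le_of_ne (R.le_max' r hr) hcon.2)
    exact (Finset.card_le_card hsub).trans Finset.card_le_two
  have hmaps : ∀ q ∈ Q, (b q.1 q.2, g q.2) ∈ T := by
    intro q hq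
    rw [hQ, Finset.mem_filter, Finset.mem_product] at hq
    exact hb3 q.1 hq.1.1 q.2 hq.1.2 hq.2
  have hfin := Finset.card_le_mul_card_image_of_maps_to hmaps 2 hfib
  omega

namespace Pop

variable {P : Pop}

open scoped Classical in
/-- MODULE N1B (size 1). `runs` with an index set `I` instead of a set of times: `α` is injective on `I`, apply `runs` to `I.image α` (`Function.invFunOn`). -/
theorem runs_idx (I : Finset ℕ) (α p g : ℕ → ℕ) (c mu z : ℕ)
    (hα : ∀ i ∈ I, ∀ j ∈ I, i < j → α i < α j) (hK : ∀ i ∈ I, P.K (α i) (p i) (g i))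
    (hx : ∀ i ∈ I, P.x (α i) < c) (hp : ∀ i ∈ I, c ≤ p i ∧ p i < mu ∧ mu ≤ g i)
    (hr : ∀ i ∈ I, ∃ w, P.V (α i) w ∧ g i < w) (hreg : ∀ i ∈ I, P.Reg (α i) (g i))
    (hz : ∀ i ∈ I, P.vab (α i) (p i) ≤ z) :
    (∀ i ∈ I, ∀ j ∈ I, i < j → g i < g j) ∧
      ∃ J, J ⊆ I ∧ I.card ≤ (3 * Nat.log 2 z + 4) * J.card ∧
        ∀ i ∈ J, ∀ j ∈ J, i < j → ∃ b, α i < b ∧ b < α j ∧ P.B b (g j) := by
  have hex : ∀ t, t ∈ I.image α → ∃ i, i ∈ I ∧ α i = t := fun t ht => by
    obtain ⟨i, hi, rfl⟩ := Finset.mem_image.1 ht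
    exact ⟨i, hi, rfl⟩
  choose! ι hι using hex
  have hinj : ∀ i ∈ I, ∀ j ∈ I, α i = α j → i = j := by
    intro i hi j hj h
    rcases lt_trichotomy i j with h1 | h1 | h1
    · have := hα i hi j hj h1
      omega
    · exact h1
    · have := hα j hj i hi h1
      omega
  have hια : ∀ i ∈ I, ι (α i) = i := by
    intro i hi
    obtain ⟨h1, h2⟩ := hι (α i) (Finset.mem_image_of_mem α hi)
    exact hinj _ h1 _ hi h2
  have hlt : ∀ i ∈ I, ∀ j ∈ I, α i < α j → i < j := by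
    intro i hi j hj h
    rcases lt_trichotomy i j with h1 | h1 | h1
    · exact h1
    · rw [h1] at h
      omega
    · have := hα j hj i hi h1
      omega
  obtain ⟨hg, D, hDQ, hcard, hD⟩ := P.runs (I.image α) (fun t => p (ι t)) (fun t => g (ι t)) c mu z
    (fun t ht => by
      obtain ⟨h1, h2⟩ := hι t ht
      have h3 := hK (ι t) h1
      rw [h2] at h3
      exact h3)
    (fun t ht => by
      obtain ⟨h1, h2⟩ := hι t ht
      have h3 := hx (ι t) h1
      rw [h2] at h3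
      exact h3)
    (fun t ht => hp (ι t) (hι t ht).1)
    (fun t ht => by
      obtain ⟨h1, h2⟩ := hι t ht
      have h3 := hr (ι t) h1
      rw [h2] at h3
      exact h3)
    (fun t ht => by
      obtain ⟨h1, h2⟩ := hι t ht
      have h3 := hreg (ι t) h1
      rw [h2] at h3
      exact h3)
    (fun s hs t ht => by
      obtain ⟨h1, h2⟩ := hι s hs
      have h3 := hz (ι s) h1
      rw [h2] at h3
      refine le_trans (Finset.card_le_card ?_) h3
      intro v hv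
      rw [Finset.mem_filter, Finset.mem_Icc] at hv
      rw [Finset.mem_filter, Finset.mem_range]
      have h4 := P.V_dom s v hv.2
      have h5 := P.K_V _ _ _ (hK (ι s) h1)
      exact ⟨by omega, hv.2, by omega⟩)
  refine ⟨fun i hi j hj hij => ?_, D.image ι, ?_, ?_, ?_⟩
  · have h1 := hg (α i) (Finset.mem_image_of_mem α hi) (α j) (Finset.mem_image_of_mem α hj)
      (hα i hi j hj hij)
    simp only [hια i hi, hια j hj] at h1
    exact h1
  · intro i hi
    obtain ⟨t, ht, rfl⟩ := Finset.mem_image.1 hi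
    exact (hι t (hDQ ht)).1
  · have h1 : (I.image α).card = I.card := by
      apply Finset.card_image_of_injOn
      intro i hi j hj h
      exact hinj i hi j hj h
    have h2 : (D.image ι).card = D.card := by
      apply Finset.card_image_of_injOn
      intro s hs t ht h
      have h3 := (hι s (hDQ hs)).2
      have h4 := (hι t (hDQ ht)).2
      have h5 : ι s = ι t := h
      rw [← h3, ← h4, h5]
    rw [h2, ← h1]
    exact hcard
  · intro i hi j hj hij
    obtain ⟨s, hs, rfl⟩ := Finset.mem_image.1 hi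
    obtain ⟨t, ht, rfl⟩ := Finset.mem_image.1 hj
    have h3 := hι s (hDQ hs)
    have h4 := hι t (hDQ ht)
    have h5 : s < t := by
      have h6 := hα _ h3.1 _ h4.1 hij
      rw [h3.2, h4.2] at h6
      exact h6
    obtain ⟨b, h6, h7, h8⟩ := hD s hs t ht h5
    exact ⟨b, by rw [h3.2]; exact h6, by rw [h4.2]; exact h7, h8⟩

/-- MODULE N1C (size 2). `J` = the leaders, below the last index `N`: `v = ga`. `q = pb N`: (i) `ga i < q` for `i < N` (`bur` for `z = q` at the times `α i < β N`; `x (β N) ≤ x (α e) < c ≤ pa i`,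
`pa i < mu ≤ c' ≤ q`); (ii) `q ≤ pb i` (`bur` at the times `β i < β N`: otherwise `pb i < q < mu' ≤ gb i`). So `ga s < gb i` for all `s, i` in `J`. The touch `b` of `ga r'`, `r' = min {i ∈ J | r < i}`,
in `(α r, α r')` (`hJ`). If `s ≠ r'`: `hid b (ga r') (ga s) (α s)` at the time `β r' ≤ α s`: `gb r'` is visible and not smaller than `ga s`, so `ga s` is touched at some time in `[b, β r']`, not at `β r'`
(`B_V`). -/
theorem touch (J : Finset ℕ) (N e : ℕ) (α β pa ga pb gb : ℕ → ℕ) {c mu c' mu' : ℕ}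
    (hN : ∀ i ∈ J, i ≤ N) (h1 : ∀ i ∈ J, α i < β i) (h1N : α N < β N) (hNe : β N ≤ α e)
    (h2 : ∀ i ∈ J, ∀ j ∈ J, i < j → β i ≤ α j) (h2N : ∀ i ∈ J, i < N → β i ≤ α N)
    (ha : ∀ i ∈ J, P.K (α i) (pa i) (ga i)) (hb : ∀ i ∈ J, P.K (β i) (pb i) (gb i))
    (hbN : P.K (β N) (pb N) (gb N))
    (ra : ∀ i ∈ J, ∃ w, P.V (α i) w ∧ ga i < w) (rb : ∀ i ∈ J, ∃ w, P.V (β i) w ∧ gb i < w)
    (xa : ∀ i ∈ J, P.x (α i) < c) (xe : P.x (α e) < c)
    (sa : ∀ i ∈ J, c ≤ pa i ∧ pa i < mu ∧ mu ≤ ga i)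
    (sb : ∀ i ∈ J, c' ≤ pb i ∧ pb i < mu' ∧ mu' ≤ gb i) (sbN : c' ≤ pb N ∧ pb N < mu')
    (hc : mu ≤ c') (hg : ∀ i ∈ J, ∀ j ∈ J, i < j → ga i < ga j)
    (hJ : ∀ i ∈ J, ∀ j ∈ J, i < j → ∃ b, α i < b ∧ b < α j ∧ P.B b (ga j)) :
    ∀ r ∈ J, ∀ s ∈ J, r < s →
      ∃ b, α r < b ∧ (∀ i ∈ J, r < i → b < β i) ∧ P.B b (ga s) := by
  classical
  intro r hr s hs hrs
  have hxN : P.x (β N) < c := lt_of_le_of_lt (P.x_mono hNe) xe
  have hαN : ∀ i ∈ J, α i < β N := by
    intro i hi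
    rcases (hN i hi).lt_or_eq with h | h
    · have e1 := h1 i hi
      have e2 := h2N i hi h
      omega
    · rw [h]
      exact h1N
  have hβN : ∀ i ∈ J, i < N → β i < β N := by
    intro i hi h
    have e2 := h2N i hi h
    omega
  obtain ⟨hVq, -, -, -⟩ := P.K_V _ _ _ hbN
  -- (i)
  have hi1 : ∀ i ∈ J, ga i < pb N := by
    intro i hi
    by_contra hcon
    have e1 := sa i hi
    exact P.bur (α i) (pa i) (ga i) (ha i hi) (ra i hi) (β N) (pb N) (hαN i hi) (by omega)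
      (by omega) (by omega) hVq
  -- (ii)
  have hi2 : ∀ i ∈ J, pb N ≤ pb i := by
    intro i hi
    rcases (hN i hi).lt_or_eq with h | h
    · by_contra hcon
      have e1 := sa i hi
      have e2 := sb i hi
      exact P.bur (β i) (pb i) (gb i) (hb i hi) (rb i hi) (β N) (pb N) (hβN i hi h) (by omega)
        (by omega) (by omega) hVq
    · rw [h]
  have hgb : ∀ i ∈ J, ∀ j ∈ J, ga i < gb j := by
    intro i hi j hj
    have e1 := hi1 i hi
    have e2 := hi2 j hj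
    obtain ⟨-, -, e3, -⟩ := P.K_V _ _ _ (hb j hj)
    omega
  -- the successor of r
  have hne : (J.filter (fun i => r < i)).Nonempty := ⟨s, Finset.mem_filter.2 ⟨hs, hrs⟩⟩
  obtain ⟨r', hr'⟩ : ∃ r', r' = (J.filter (fun i => r < i)).min' hne := ⟨_, rfl⟩
  have hr'1 : r' ∈ J ∧ r < r' := by
    rw [hr']
    exact Finset.mem_filter.1 (Finset.min'_mem _ hne)
  have hr'2 : ∀ i ∈ J, r < i → r' ≤ i := by
    intro i hi hri
    rw [hr']
    exact Finset.min'_le _ _ (Finset.mem_filter.2 ⟨hi, hri⟩)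
  have hβ' : ∀ i ∈ J, r < i → β r' ≤ β i := by
    intro i hi hri
    rcases (hr'2 i hi hri).lt_or_eq with h | h
    · have e1 := h2 r' hr'1.1 i hi h
      have e2 := h1 i hi
      omega
    · rw [h]
  obtain ⟨b, hb1, hb2, hb3⟩ := hJ r hr r' hr'1.1 hr'1.2
  have hαβ := h1 r' hr'1.1
  rcases (hr'2 s hs hrs).lt_or_eq with h | h
  · -- s ≠ r'
    have e1 := h2 r' hr'1.1 s hs h
    obtain ⟨-, hVs, e4, -⟩ := P.K_V _ _ _ (ha s hs)
    obtain ⟨-, hVb, -, -⟩ := P.K_V _ _ _ (hb r' hr'1.1)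
    have e2 : ∃ u, b ≤ u ∧ u ≤ β r' ∧ P.B u (ga s) := by
      by_contra hcon
      push Not at hcon
      have e3 := P.hid b (ga r') (ga s) (α s) hb3 (hg r' hr'1.1 s hs h) hVs (by omega) (by
        have e5 := xa s hs
        have e6 := sa r' hr'1.1
        omega) (β r') (by omega) e1 (fun u h1 h2 => hcon u h1 h2) (gb r') hVb
      have e5 := hgb s hs r' hr'1.1
      omega
    obtain ⟨u, hu1, hu2, hu3⟩ := e2
    have hu4 : u ≠ β r' := fun h => P.B_V _ _ _ (h ▸ hu3) hVb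
    refine ⟨u, by omega, fun i hi hri => ?_, hu3⟩
    have e3 := hβ' i hi hri
    omega
  · rw [← h]
    refine ⟨b, hb1, fun i hi hri => ?_, hb3⟩
    have e3 := hβ' i hi hri
    omega

/-- MODULE N1D (size 1). THE ALTERNATION LEMMA. `G = ∅` or one element: `M = 0`. Otherwise `e = max G`, `I = G.erase e`, `N = max I`, `J ⊆ I` from `runs_idx`, `touch`, `pairs_card` for
`T = P.tbs lo hi`. -/
theorem alt (G : Finset ℕ) (α β pa ga pb gb : ℕ → ℕ) {c mu c' mu' z lo hi : ℕ}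
    (h1 : ∀ i ∈ G, α i < β i) (h2 : ∀ i ∈ G, ∀ j ∈ G, i < j → β i ≤ α j)
    (hlo : ∀ i ∈ G, lo ≤ α i) (hhi : ∀ i ∈ G, β i ≤ hi)
    (ha : ∀ i ∈ G, P.K (α i) (pa i) (ga i)) (hb : ∀ i ∈ G, P.K (β i) (pb i) (gb i))
    (ra : ∀ i ∈ G, ∃ w, P.V (α i) w ∧ ga i < w) (rb : ∀ i ∈ G, ∃ w, P.V (β i) w ∧ gb i < w)
    (hreg : ∀ i ∈ G, P.Reg (α i) (ga i)) (xa : ∀ i ∈ G, P.x (α i) < c)
    (sa : ∀ i ∈ G, c ≤ pa i ∧ pa i < mu ∧ mu ≤ ga i)
    (sb : ∀ i ∈ G, c' ≤ pb i ∧ pb i < mu' ∧ mu' ≤ gb i) (hc : mu ≤ c')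
    (hz : ∀ i ∈ G, P.vab (α i) (pa i) ≤ z) :
    ∃ M, G.card ≤ (3 * Nat.log 2 z + 4) * M + 1 ∧ M * (M - 1) ≤ 4 * (P.tbs lo hi).card := by
  classical
  rcases G.eq_empty_or_nonempty with h0 | hne
  · refine ⟨0, ?_, ?_⟩
    · rw [h0]
      simp
    · simp
  have hα : ∀ i ∈ G, ∀ j ∈ G, i < j → α i < α j := by
    intro i hi j hj hij
    have e1 := h1 i hi
    have e2 := h2 i hi j hj hij
    omega
  obtain ⟨e, he⟩ : ∃ e, e = G.max' hne := ⟨_, rfl⟩
  have he1 : e ∈ G := by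
    rw [he]
    exact Finset.max'_mem _ _
  have he2 : ∀ i ∈ G, i ≤ e := fun i hi => by
    rw [he]
    exact Finset.le_max' _ _ hi
  have hcG : G.card = (G.erase e).card + 1 := (Finset.card_erase_add_one he1).symm
  rcases (G.erase e).eq_empty_or_nonempty with h0 | hne'
  · refine ⟨0, ?_, ?_⟩
    · rw [hcG, h0]
      simp
    · simp
  obtain ⟨N, hN⟩ : ∃ N, N = (G.erase e).max' hne' := ⟨_, rfl⟩
  have hN1 : N ∈ G.erase e := by
    rw [hN]
    exact Finset.max'_mem _ _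
  have hN2 : ∀ i ∈ G.erase e, i ≤ N := fun i hi => by
    rw [hN]
    exact Finset.le_max' _ _ hi
  have hsub : ∀ i ∈ G.erase e, i ∈ G := fun i hi => Finset.mem_of_mem_erase hi
  have hNe : N < e := lt_of_le_of_ne (he2 N (hsub N hN1)) (Finset.ne_of_mem_erase hN1)
  obtain ⟨hg, J, hJI, hcard, hJ⟩ := runs_idx (P := P) (G.erase e) α pa ga c mu z
    (fun i hi j hj => hα i (hsub i hi) j (hsub j hj)) (fun i hi => ha i (hsub i hi))
    (fun i hi => xa i (hsub i hi)) (fun i hi => sa i (hsub i hi)) (fun i hi => ra i (hsub i hi))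
    (fun i hi => hreg i (hsub i hi)) (fun i hi => hz i (hsub i hi))
  have hJG : ∀ i ∈ J, i ∈ G := fun i hi => hsub i (hJI hi)
  have ht := touch (P := P) J N e α β pa ga pb gb (c := c) (mu := mu) (c' := c') (mu' := mu')
    (fun i hi => hN2 i (hJI hi)) (fun i hi => h1 i (hJG i hi)) (h1 N (hsub N hN1))
    (h2 N (hsub N hN1) e he1 hNe) (fun i hi j hj => h2 i (hJG i hi) j (hJG j hj))
    (fun i hi h => h2 i (hJG i hi) N (hsub N hN1) h) (fun i hi => ha i (hJG i hi))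
    (fun i hi => hb i (hJG i hi)) (hb N (hsub N hN1)) (fun i hi => ra i (hJG i hi))
    (fun i hi => rb i (hJG i hi)) (fun i hi => xa i (hJG i hi)) (xa e he1)
    (fun i hi => sa i (hJG i hi)) (fun i hi => sb i (hJG i hi))
    ⟨(sb N (hsub N hN1)).1, (sb N (hsub N hN1)).2.1⟩ hc
    (fun i hi j hj => hg i (hJI hi) j (hJI hj)) hJ
  refine ⟨J.card, ?_, ?_⟩
  · rw [hcG]
    omega
  · refine pairs_card J α β ga (P.tbs lo hi) (fun i hi j hj => h2 i (hJG i hi) j (hJG j hj))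
      (fun i hi j hj => hg i (hJI hi) j (hJI hj)) ?_
    intro r hr s hs hrs
    obtain ⟨b, hb1, hb2, hb3⟩ := ht r hr s hs hrs
    refine ⟨b, hb1, hb2, ?_⟩
    have e1 := P.B_dom b (ga s) hb3
    have e2 := hlo r (hJG r hr)
    have e3 := hhi s (hJG s hs)
    have e4 := hb2 s hs hrs
    unfold tbs touches
    rw [Finset.mem_filter, Finset.mem_filter, Finset.mem_product, Finset.mem_range,
      Finset.mem_range]
    exact ⟨⟨⟨e1.1, by show ga s < P.n + 1; omega⟩, hb3⟩, by show lo < b; omega,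
      by show b < hi; omega⟩

end Pop

end Pool.Agent.SplDq
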