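import Pool.Agent.SplDq.Base

/-! # NEAR, part 0: classes, symbols, the potential `Phi` -/

set_option autoImplicit false

namespace Pool.Agent.SplDq

/-- The grid point above `p`, in units of `2 ^ (i - 2)`: `nu i p * 2 ^ (i - 2)` is the least multiple of `2 ^ (i - 2)` which is larger than `p`. -/
def nu (i p : ℕ) : ℕ := p / 2 ^ (i - 2) + 1

namespace Pop

variable (P : Pop)

/-- The class of a kill by `p` at time `t`. -/
def cls (t p : ℕ) : ℕ := Nat.log 2 (p - P.x t)

open scoped Classical in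
/-- The number of visible keys above `p`. -/
noncomputable def vab (t p : ℕ) : ℕ :=
  ((Finset.range (P.n + 1)).filter (fun v => P.V t v ∧ p < v)).card

/-- SHORT NEAR KILLS: near, the victim is not the largest visible key, regular, few visible keys above `p`. -/
structure Sh (t p g : ℕ) : Prop where
  kill : P.K t p g
  near : p - P.x t < g - p
  rt : ∃ w, P.V t w ∧ g < w
  reg : P.Reg t g
  short : P.vab t p ≤ P.cls t p ^ 2

open scoped Classical in
/-- The near kills, as pairs (time, victim). -/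
noncomputable def nearK : Finset (ℕ × ℕ) :=
  P.kills.filter (fun q => ∃ p, P.K q.1 p q.2 ∧ p - P.x q.1 < q.2 - p)

/-- The number of near kills. -/
noncomputable def NN : ℕ := P.nearK.card

/-- The number of touches before time `t`. -/
noncomputable def tc (t : ℕ) : ℕ := (P.touches.filter (fun q => q.1 < t)).card

/-- The potential of time. -/
noncomputable def Phi (t : ℕ) : ℕ := t + P.x t + P.tc t

/-- The touches strictly between two times. -/
noncomputable def tbs (lo hi : ℕ) : Finset (ℕ × ℕ) :=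
  P.touches.filter (fun q => lo < q.1 ∧ q.1 < hi)

variable {P}

/-- MODULE N0A (size 1). Near kills at one time have different classes: `g ≤ p'` (`K_lt`), so `p' - x ≥ g - x > 2 * (p - x)`. -/
theorem cls_lt {t p g p' g' : ℕ} (h : P.K t p g) (hn : p - P.x t < g - p) (h' : P.K t p' g')
    (hp : p < p') : P.cls t p < P.cls t p' := by
  have hV := (P.K_V t p g h).1
  have hx := (P.V_dom t p hV).2.1
  have hg : g ≤ p' := P.K_lt h h' hp
  have h1 : 2 * (p - P.x t) ≤ p' - P.x t := by omega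
  have h2 : Nat.log 2 ((p - P.x t) * 2) = Nat.log 2 (p - P.x t) + 1 :=
    Nat.log_mul_base (by norm_num) (by omega)
  have h3 : Nat.log 2 ((p - P.x t) * 2) ≤ Nat.log 2 (p' - P.x t) :=
    Nat.log_mono_right (by omega)
  unfold cls
  omega

/-- MODULE N0B (size 1). `K_V`, `V_dom`, `Nat.pow_log_le_self`, `Nat.lt_pow_succ_log_self`. -/
theorem cls_bd {t p g : ℕ} (h : P.K t p g) : 2 ^ P.cls t p ≤ p - P.x t ∧
    p - P.x t < 2 ^ (P.cls t p + 1) ∧ P.cls t p ≤ Nat.log 2 P.n := by
  have hV := (P.K_V t p g h).1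
  have hx := P.V_dom t p hV
  unfold cls
  refine ⟨Nat.pow_log_le_self 2 (by omega), Nat.lt_pow_succ_log_self (by norm_num) _,
    Nat.log_mono_right (by omega)⟩

private theorem N0C_tc_mono (P : Pop) {s t : ℕ} (h : s ≤ t) : P.tc s ≤ P.tc t := by
  unfold tc
  apply Finset.card_le_card
  intro q hq
  rw [Finset.mem_filter] at hq ⊢
  exact ⟨hq.1, lt_of_lt_of_le hq.2 h⟩

/-- MODULE N0C (size 1). -/
theorem Phi_strict : StrictMono P.Phi := by
  apply strictMono_nat_of_lt_succ
  intro t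
  have h1 := P.x_mono (Nat.le_succ t)
  have h2 := N0C_tc_mono P (Nat.le_succ t)
  unfold Phi
  simp only [Nat.succ_eq_add_one] at h1 h2
  omega

/-- MODULE N0D (size 1). -/
theorem Phi_le {t : ℕ} (h : t ≤ P.m) : P.Phi t ≤ P.m + P.n + P.th := by
  have h1 := P.x_le t
  have h2 : P.tc t ≤ P.th := Finset.card_le_card (Finset.filter_subset _ _)
  unfold Phi
  omega

/-- MODULE N0E (size 1). In a window of scale `c0` the last popped key moves by less than `2 ^ c0`, and there are less than `2 ^ c0` touches. (`tc hi - tc lo` is the number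
of touches in `[lo, hi)`.) -/
theorem win {c0 lo hi : ℕ} (h : lo ≤ hi) (hw : P.Phi lo / 2 ^ c0 = P.Phi hi / 2 ^ c0) :
    P.x hi < P.x lo + 2 ^ c0 ∧ (P.tbs lo hi).card < 2 ^ c0 := by
  have h1 : P.Phi hi < P.Phi lo + 2 ^ c0 := by
    have hpos : 0 < 2 ^ c0 := by positivity
    have a1 := Nat.div_add_mod (P.Phi lo) (2 ^ c0)
    have a2 := Nat.div_add_mod (P.Phi hi) (2 ^ c0)
    have a3 := Nat.mod_lt (P.Phi hi) hpos
    rw [← hw] at a2
    omega
  have h2 := P.x_mono h
  have h3 := N0C_tc_mono P h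
  have h4 : (P.tbs lo hi).card + P.tc lo ≤ P.tc hi := by
    unfold tc tbs
    rw [← Finset.card_union_of_disjoint]
    · apply Finset.card_le_card
      intro q hq
      rw [Finset.mem_union, Finset.mem_filter, Finset.mem_filter] at hq
      rw [Finset.mem_filter]
      rcases hq with hq | hq
      · exact ⟨hq.1, hq.2.2⟩
      · exact ⟨hq.1, lt_of_lt_of_le hq.2 h⟩
    · rw [Finset.disjoint_left]
      intro q hq hq'
      rw [Finset.mem_filter] at hq hq'
      omega
  unfold Phi at h1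
  omega

/-- MODULE N0F (size 1). The symbol. -/
theorem sym {t p g i : ℕ} (h : P.K t p g) (hn : p - P.x t < g - p) (hi : P.cls t p = i)
    (h2 : 2 ≤ i) :
    (nu i p - 1) * 2 ^ (i - 2) ≤ p ∧ p < nu i p * 2 ^ (i - 2) ∧ nu i p * 2 ^ (i - 2) ≤ g ∧
      P.x t + 4 * 2 ^ (i - 2) < nu i p * 2 ^ (i - 2) ∧
      nu i p * 2 ^ (i - 2) < P.x t + 9 * 2 ^ (i - 2) ∧
      (nu i p - 1) * 2 ^ (i - 2) + 2 ^ (i - 2) = nu i p * 2 ^ (i - 2) := by
  obtain ⟨b1, b2, -⟩ := cls_bd h
  rw [hi] at b1 b2
  have hV := (P.K_V t p g h)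
  have hx := P.V_dom t p hV.1
  have e1 : 2 ^ i = 4 * 2 ^ (i - 2) := by
    obtain ⟨j, rfl⟩ := Nat.exists_eq_add_of_le h2
    have : 2 + j - 2 = j := by omega
    rw [this, pow_add]
    norm_num
  have e2 : 2 ^ (i + 1) = 8 * 2 ^ (i - 2) := by
    rw [pow_succ, e1]
    ring
  have hpos : 0 < 2 ^ (i - 2) := by positivity
  have a1 := Nat.div_add_mod p (2 ^ (i - 2))
  have a2 := Nat.mod_lt p hpos
  have a3 : (p / 2 ^ (i - 2) + 1 - 1) * 2 ^ (i - 2) = 2 ^ (i - 2) * (p / 2 ^ (i - 2)) := by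
    rw [Nat.add_sub_cancel, mul_comm]
  have a4 : (p / 2 ^ (i - 2) + 1) * 2 ^ (i - 2) =
      2 ^ (i - 2) * (p / 2 ^ (i - 2)) + 2 ^ (i - 2) := by
    ring
  unfold nu
  rw [a3, a4]
  rw [e1] at b1
  rw [e2] at b2
  generalize 2 ^ (i - 2) * (p / 2 ^ (i - 2)) = A at *
  generalize 2 ^ (i - 2) = B at *
  refine ⟨by omega, by omega, by omega, by omega, by omega, by omega⟩

private theorem N0G_aux (P : Pop) {c0 s t p g p' g' i : ℕ} (hst : s ≤ t)
    (hw : P.Phi s / 2 ^ c0 = P.Phi t / 2 ^ c0) (hc : c0 ≤ i)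
    (h2 : 2 ≤ i) (h : P.K s p g) (hn : p - P.x s < g - p) (hi : P.cls s p = i)
    (h' : P.K t p' g') (hn' : p' - P.x t < g' - p') (hi' : P.cls t p' = i)
    (hm : nu i p % 16 = nu i p' % 16) : nu i p = nu i p' := by
  obtain ⟨-, -, -, a1, a2, -⟩ := sym h hn hi h2
  obtain ⟨-, -, -, b1, b2, -⟩ := sym h' hn' hi' h2
  have w1 := (win hst hw).1
  have w2 := P.x_mono hst
  have e1 : 2 ^ i = 4 * 2 ^ (i - 2) := by
    obtain ⟨j, rfl⟩ := Nat.exists_eq_add_of_le h2
    have : 2 + j - 2 = j := by omega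
    rw [this, pow_add]
    norm_num
  have e2 : 2 ^ c0 ≤ 2 ^ i := Nat.pow_le_pow_right (by norm_num) hc
  have hpos : 0 < 2 ^ (i - 2) := by positivity
  generalize hB : 2 ^ (i - 2) = B at *
  have c1 : nu i p' * B < (nu i p + 16) * B := by
    rw [add_mul]
    omega
  have c2 : nu i p * B < (nu i p' + 16) * B := by
    rw [add_mul]
    omega
  have d1 := lt_of_mul_lt_mul_right c1 (Nat.zero_le B)
  have d2 := lt_of_mul_lt_mul_right c2 (Nat.zero_le B)
  omega

/-- MODULE N0G (size 1). In a window of scale `c0 ≤ i` all near kills of class `i` of one family have the same symbol: the grid points differ by less than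
`16 * 2 ^ (i - 2)` (`sym`, `win`; one of the two times is the smaller one), and `nu` is the same modulo `16`. -/
theorem same {c0 s t p g p' g' i : ℕ} (hw : P.Phi s / 2 ^ c0 = P.Phi t / 2 ^ c0) (hc : c0 ≤ i)
    (h2 : 2 ≤ i) (h : P.K s p g) (hn : p - P.x s < g - p) (hi : P.cls s p = i)
    (h' : P.K t p' g') (hn' : p' - P.x t < g' - p') (hi' : P.cls t p' = i)
    (hm : nu i p % 16 = nu i p' % 16) : nu i p = nu i p' := by
  rcases le_total s t with hst | hst
  · exact N0G_aux P hst hw hc h2 h hn hi h' hn' hi' hm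
  · exact (N0G_aux P hst hw.symm hc h2 h' hn' hi' h hn hi hm.symm).symm

end Pop

end Pool.Agent.SplDq
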