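import Pool.Agent.SplDq.NrA
import Pool.Agent.SplDq.Cnt

/-! # NEAR, part 3: the short near kills -/

set_option autoImplicit false

namespace Pool.Agent.SplDq

/-- MODULE N4A (size 1). ARITHMETIC: `(64 j) ^ 2 < 2 ^ (12 + 2 j)` and `81 + 12 * j ≤ 2 ^ j`. -/
theorem arithR (j : ℕ) (hj : 12 ≤ j) :
    (3 * Nat.log 2 ((64 * j) ^ 2) + 4) * 2 ^ (4 * j + 1) + 1 ≤ 2 ^ (5 * j) := by
  have h1 : (64 * j) ^ 2 < 2 ^ (12 + 2 * j) := by
    have h2 : j < 2 ^ j := Nat.lt_two_pow_self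
    have h3 : j ^ 2 < (2 ^ j) ^ 2 := Nat.pow_lt_pow_left h2 (by norm_num)
    have h4 : 2 ^ (12 + 2 * j) = 4096 * (2 ^ j) ^ 2 := by
      rw [pow_add, ← pow_mul, mul_comm j 2]
      norm_num
    rw [h4, mul_pow]
    norm_num
    omega
  have h2 : Nat.log 2 ((64 * j) ^ 2) < 12 + 2 * j := Nat.log_lt_of_lt_pow (by positivity) h1
  have h3 : 81 + 12 * j ≤ 2 ^ j := by
    clear h1 h2
    induction j, hj using Nat.le_induction with
    | base => norm_num
    | succ n hn ih =>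
      rw [pow_succ]
      omega
  have h4 : 1 ≤ 2 ^ (4 * j) := Nat.one_le_two_pow
  calc (3 * Nat.log 2 ((64 * j) ^ 2) + 4) * 2 ^ (4 * j + 1) + 1
      ≤ (3 * (12 + 2 * j) + 4) * 2 ^ (4 * j + 1) + 2 ^ (4 * j) := by
        refine Nat.add_le_add (Nat.mul_le_mul_right _ ?_) h4
        omega
    _ = (81 + 12 * j) * 2 ^ (4 * j) := by
        rw [pow_succ]
        ring
    _ ≤ 2 ^ j * 2 ^ (4 * j) := Nat.mul_le_mul_right _ h3
    _ = 2 ^ (5 * j) := by
        rw [← pow_add]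
        congr 1
        ring

namespace Pop

variable (P : Pop)

open scoped Classical in
/-- The classes at time `t` of the short near kills of the family `(r, q)`. -/
noncomputable def fam (r q t : ℕ) : Finset ℕ :=
  (Finset.range (Nat.log 2 P.n + 1)).filter (fun i => 2 ≤ i ∧ i % 4 = r ∧
    ∃ p g, P.Sh t p g ∧ P.cls t p = i ∧ nu i p % 16 = q)

/-- The word of a family: the position `t * L + (L - 1 - i)` stands for the class `i` at time `t`, `L = log n + 1`. -/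
noncomputable def wd (r q : ℕ) : Word where
  S := (Finset.range (P.m * (Nat.log 2 P.n + 1))).filter (fun u =>
    Nat.log 2 P.n - u % (Nat.log 2 P.n + 1) ∈ P.fam r q (u / (Nat.log 2 P.n + 1)))
  tm u := u / (Nat.log 2 P.n + 1)
  cl u := Nat.log 2 P.n - u % (Nat.log 2 P.n + 1)
  ord := by
    intro u _ v _ huv
    have hL : 0 < Nat.log 2 P.n + 1 := Nat.succ_pos _
    have h1 : u / (Nat.log 2 P.n + 1) ≤ v / (Nat.log 2 P.n + 1) := Nat.div_le_div_right huv.le
    rcases h1.lt_or_eq with h | h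
    · exact Or.inl h
    · refine Or.inr ⟨h, ?_⟩
      have h2 := Nat.div_add_mod u (Nat.log 2 P.n + 1)
      have h3 := Nat.div_add_mod v (Nat.log 2 P.n + 1)
      have h4 := Nat.mod_lt u hL
      have h5 := Nat.mod_lt v hL
      rw [h] at h2
      omega

variable {P}

/-- MODULE N4B (size 1). The elements of the word. -/
theorem wd_mem {r q u : ℕ} (h : u ∈ (P.wd r q).S) :
    (P.wd r q).tm u < P.m ∧ 2 ≤ (P.wd r q).cl u ∧ (P.wd r q).cl u % 4 = r ∧
      ∃ p g, P.Sh ((P.wd r q).tm u) p g ∧ P.cls ((P.wd r q).tm u) p = (P.wd r q).cl u ∧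
        nu ((P.wd r q).cl u) p % 16 = q := by
  classical
  have h' : u ∈ (Finset.range (P.m * (Nat.log 2 P.n + 1))).filter (fun u =>
    Nat.log 2 P.n - u % (Nat.log 2 P.n + 1) ∈ P.fam r q (u / (Nat.log 2 P.n + 1))) := h
  rw [Finset.mem_filter, Finset.mem_range] at h'
  obtain ⟨h1, h2⟩ := h'
  unfold fam at h2
  rw [Finset.mem_filter] at h2
  obtain ⟨h3, h4, h5, h6⟩ := h2
  refine ⟨?_, h4, h5, h6⟩
  exact Nat.div_lt_of_lt_mul (by rwa [mul_comm] at h1)

private theorem N4C_succ {t p g g' : ℕ} (h : P.K t p g) (h' : P.K t p g') : g = g' := by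
  obtain ⟨h1, h2, h3, h4⟩ := P.K_V t p g h
  obtain ⟨h1', h2', h3', h4'⟩ := P.K_V t p g' h'
  exact le_antisymm (h4 g' h2' h3') (h4' g h2 h3)

open scoped Classical in
/-- MODULE N4C (size 2). Every short near kill of class `≥ 96` occurs in one of the words: the map `(t, g) ↦ (i % 4, nu i p % 16, t * L + (L - 1 - i))` (`p` the killer, `i` its class) is injective
(`K_unique`, `cls_lt`; `K_V`). -/
theorem card_sh : (P.kills.filter (fun q => ∃ p, P.Sh q.1 p q.2 ∧ 96 ≤ P.cls q.1 p)).card ≤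
    ∑ r ∈ Finset.range 4, ∑ q ∈ Finset.range 16, ((P.wd r q).Sc 96).card := by
  set Z := P.kills.filter (fun q => ∃ p, P.Sh q.1 p q.2 ∧ 96 ≤ P.cls q.1 p) with hZ
  have hch : ∀ q : ℕ × ℕ, ∃ p, q ∈ Z → P.Sh q.1 p q.2 ∧ 96 ≤ P.cls q.1 p := by
    intro q
    by_cases hq : q ∈ Z
    · rw [hZ, Finset.mem_filter] at hq
      obtain ⟨p, hp⟩ := hq.2
      exact ⟨p, fun _ => hp⟩
    · exact ⟨0, fun h => absurd h hq⟩
  choose pk hpk using hch
  set L := Nat.log 2 P.n + 1 with hL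
  have hL0 : 0 < L := Nat.succ_pos _
  have e : ∑ r ∈ Finset.range 4, ∑ q ∈ Finset.range 16, ((P.wd r q).Sc 96).card
      = ((Finset.range 4 ×ˢ Finset.range 16).sigma (fun x => (P.wd x.1 x.2).Sc 96)).card := by
    rw [Finset.card_sigma, Finset.sum_product]
  rw [e]
  apply Finset.card_le_card_of_injOn (fun q => (⟨(P.cls q.1 (pk q) % 4,
    nu (P.cls q.1 (pk q)) (pk q) % 16), q.1 * L + (L - 1 - P.cls q.1 (pk q))⟩ : (_ : ℕ × ℕ) × ℕ))
  · intro q hq
    have hq' : q ∈ Z := hq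
    have hsh := (hpk q hq').1
    have h96 := (hpk q hq').2
    have hb := cls_bd hsh.kill
    have hi : P.cls q.1 (pk q) < L := Nat.lt_succ_of_le hb.2.2
    have hkm : q.1 < P.m ∧ q.2 < P.n + 1 := by
      rw [hZ, Finset.mem_filter] at hq'
      have := hq'.1
      unfold kills at this
      rw [Finset.mem_filter, Finset.mem_product, Finset.mem_range, Finset.mem_range] at this
      exact this.1
    have hdiv : (q.1 * L + (L - 1 - P.cls q.1 (pk q))) / L = q.1 := by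
      rw [mul_comm, Nat.mul_add_div hL0, Nat.div_eq_of_lt (by omega), add_zero]
    have hmod : (q.1 * L + (L - 1 - P.cls q.1 (pk q))) % L = L - 1 - P.cls q.1 (pk q) := by
      rw [mul_comm, Nat.mul_add_mod, Nat.mod_eq_of_lt (by omega)]
    have hsub : Nat.log 2 P.n - (L - 1 - P.cls q.1 (pk q)) = P.cls q.1 (pk q) := by omega
    simp only [Finset.coe_sigma, Set.mem_sigma_iff, Finset.coe_product, Set.mem_prod,
      Finset.mem_coe, Finset.mem_range]
    refine ⟨⟨Nat.mod_lt _ (by norm_num), Nat.mod_lt _ (by norm_num)⟩, ?_⟩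
    unfold Word.Sc
    rw [Finset.mem_filter]
    constructor
    · show q.1 * L + (L - 1 - P.cls q.1 (pk q)) ∈ (Finset.range (P.m * (Nat.log 2 P.n + 1))).filter
        (fun u => Nat.log 2 P.n - u % (Nat.log 2 P.n + 1) ∈
          P.fam (P.cls q.1 (pk q) % 4) (nu (P.cls q.1 (pk q)) (pk q) % 16)
            (u / (Nat.log 2 P.n + 1)))
      rw [Finset.mem_filter, ← hL, hdiv, hmod, hsub]
      constructor
      · rw [Finset.mem_range]
        have h1 : (q.1 + 1) * L ≤ P.m * L := Nat.mul_le_mul_right _ hkm.1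
        have h2 : (q.1 + 1) * L = q.1 * L + L := by ring
        omega
      · unfold fam
        rw [Finset.mem_filter, Finset.mem_range]
        exact ⟨hi, by omega, rfl, pk q, q.2, hsh, rfl, rfl⟩
    · show 96 ≤ Nat.log 2 P.n - (q.1 * L + (L - 1 - P.cls q.1 (pk q))) % (Nat.log 2 P.n + 1)
      rw [← hL, hmod, hsub]
      exact h96
  · intro q hq q' hq' heq
    have hqZ : q ∈ Z := hq
    have hqZ' : q' ∈ Z := hq'
    have hsh := (hpk q hqZ).1
    have hsh' := (hpk q' hqZ').1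
    have hb := cls_bd hsh.kill
    have hb' := cls_bd hsh'.kill
    simp only [Sigma.mk.injEq, heq_eq_eq] at heq
    obtain ⟨-, h3⟩ := heq
    have hdiv : (q.1 * L + (L - 1 - P.cls q.1 (pk q))) / L = q.1 := by
      rw [mul_comm, Nat.mul_add_div hL0, Nat.div_eq_of_lt (by omega), add_zero]
    have hdiv' : (q'.1 * L + (L - 1 - P.cls q'.1 (pk q'))) / L = q'.1 := by
      rw [mul_comm, Nat.mul_add_div hL0, Nat.div_eq_of_lt (by omega), add_zero]
    have ht : q.1 = q'.1 := by rw [← hdiv, ← hdiv', h3]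
    have hi : P.cls q.1 (pk q) = P.cls q'.1 (pk q') := by
      rw [ht] at h3 ⊢
      rw [ht] at hb
      omega
    have hk : P.K q.1 (pk q') q'.2 := by rw [ht]; exact hsh'.kill
    have hn : pk q' - P.x q.1 < q'.2 - pk q' := by rw [ht]; exact hsh'.near
    have hp : pk q = pk q' := by
      rcases lt_trichotomy (pk q) (pk q') with h | h | h
      · have := cls_lt hsh.kill hsh.near hk h
        rw [hi, ← ht] at this
        exact absurd this (lt_irrefl _)
      · exact h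
      · have := cls_lt hk hn hsh.kill h
        rw [hi, ← ht] at this
        exact absurd this (lt_irrefl _)
    rw [← hp] at hk
    exact Prod.ext ht (N4C_succ hsh.kill hk)

/-- MODULE N4D (size 3). ALTERNATION for a family: `α i = tm (e i)`, `β i = tm (f i)`, kills from `wd_mem`; by `same` the symbols are constant on `G`: `mu = nu a (pa i0) * 2 ^ (a - 2)`,
`c = (nu a (pa i0) - 1) * 2 ^ (a - 2)`, the same for `b` (`sym`); `mu ≤ c'` as `b ≥ a + 4`: `mu < x (α i0) + 9 * 2 ^ (a - 2)`, `c' > x (β i0) + 3 * 2 ^ (b - 2)`. `alt` with `z = (64 j) ^ 2`,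
`lo = α (min G)`, `hi = β (max G)`; `win`: less than `2 ^ (8 j)` touches, so `M ≤ 2 ^ (4 j + 1)`; `arithR`. -/
theorem fam_alt (r q j : ℕ) (hj : 12 ≤ j) :
    (P.wd r q).Alt (fun u => P.Phi ((P.wd r q).tm u) / 2 ^ (8 * j)) (8 * j) (64 * j)
      (2 ^ (5 * j)) := by
  classical
  intro w a b G e f h0 hab h1 hG hlt
  rcases G.eq_empty_or_nonempty with hE | hne
  · rw [hE]
    simp
  have hα : ∀ i ∈ G, (P.wd r q).tm (e i) < (P.wd r q).tm (f i) := by
    intro i hi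
    obtain ⟨e1, e2, e3, e4, -, -, e5⟩ := hG i hi
    rcases (P.wd r q).ord _ e1 _ e2 e5 with h | ⟨-, h⟩
    · exact h
    · omega
  have hβ : ∀ i ∈ G, ∀ j ∈ G, i < j → (P.wd r q).tm (f i) ≤ (P.wd r q).tm (e j) := by
    intro i hi j hj hij
    obtain ⟨-, e2, -⟩ := hG i hi
    obtain ⟨e1, -⟩ := hG j hj
    rcases (P.wd r q).ord _ e2 _ e1 (hlt i hi j hj hij) with h | ⟨h, -⟩
    · exact h.le
    · exact h.le
  have hka : ∀ i ∈ G, ∃ p g, P.Sh ((P.wd r q).tm (e i)) p g ∧ P.cls ((P.wd r q).tm (e i)) p = a ∧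
      nu a p % 16 = q := by
    intro i hi
    obtain ⟨e1, -, e3, -⟩ := hG i hi
    obtain ⟨-, -, -, p, g, e4, e5, e6⟩ := wd_mem e1
    rw [e3] at e5 e6
    exact ⟨p, g, e4, e5, e6⟩
  have hkb : ∀ i ∈ G, ∃ p g, P.Sh ((P.wd r q).tm (f i)) p g ∧ P.cls ((P.wd r q).tm (f i)) p = b ∧
      nu b p % 16 = q := by
    intro i hi
    obtain ⟨-, e1, -, e3, -⟩ := hG i hi
    obtain ⟨-, -, -, p, g, e4, e5, e6⟩ := wd_mem e1
    rw [e3] at e5 e6
    exact ⟨p, g, e4, e5, e6⟩
  choose! pa ga ha1 ha2 ha3 using hka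
  choose! pb gb hb1 hb2 hb3 using hkb
  obtain ⟨i0, hi0⟩ := hne
  have hmod : a % 4 = r ∧ b % 4 = r := by
    obtain ⟨e1, e2, e3, e4, -⟩ := hG i0 hi0
    have e5 := (wd_mem e1).2.2.1
    have e6 := (wd_mem e2).2.2.1
    rw [e3] at e5
    rw [e4] at e6
    exact ⟨e5, e6⟩
  have hab4 : a + 4 ≤ b := by omega
  have h2a : 2 ≤ a := by omega
  have h2b : 2 ≤ b := by omega
  have hwa : ∀ i ∈ G, P.Phi ((P.wd r q).tm (e i)) / 2 ^ (8 * j) = w := fun i hi =>
    (hG i hi).2.2.2.2.1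
  have hwb : ∀ i ∈ G, P.Phi ((P.wd r q).tm (f i)) / 2 ^ (8 * j) = w := fun i hi =>
    (hG i hi).2.2.2.2.2.1
  have hna : ∀ i ∈ G, nu a (pa i) = nu a (pa i0) := fun i hi =>
    same (c0 := 8 * j) ((hwa i hi).trans (hwa i0 hi0).symm) h0 h2a (ha1 i hi).kill (ha1 i hi).near
      (ha2 i hi) (ha1 i0 hi0).kill (ha1 i0 hi0).near (ha2 i0 hi0)
      ((ha3 i hi).trans (ha3 i0 hi0).symm)
  have hnb : ∀ i ∈ G, nu b (pb i) = nu b (pb i0) := fun i hi =>
    same (c0 := 8 * j) ((hwb i hi).trans (hwb i0 hi0).symm) (by omega) h2b (hb1 i hi).kill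
      (hb1 i hi).near (hb2 i hi) (hb1 i0 hi0).kill (hb1 i0 hi0).near (hb2 i0 hi0)
      ((hb3 i hi).trans (hb3 i0 hi0).symm)
  -- the window
  obtain ⟨lo, hlo1, hlo2⟩ : ∃ i ∈ G, ∀ j ∈ G, (P.wd r q).tm (e i) ≤ (P.wd r q).tm (e j) :=
    Finset.exists_min_image G (fun i => (P.wd r q).tm (e i)) ⟨i0, hi0⟩
  obtain ⟨hi, hhi1, hhi2⟩ : ∃ i ∈ G, ∀ j ∈ G, (P.wd r q).tm (f j) ≤ (P.wd r q).tm (f i) :=
    Finset.exists_max_image G (fun i => (P.wd r q).tm (f i)) ⟨i0, hi0⟩
  have hlohi : (P.wd r q).tm (e lo) ≤ (P.wd r q).tm (f hi) := by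
    have e1 := hlo2 i0 hi0
    have e2 := hhi2 i0 hi0
    have e3 := hα i0 hi0
    omega
  have hwin := win (c0 := 8 * j) hlohi ((hwa lo hlo1).trans (hwb hi hhi1).symm)
  have hmc : nu a (pa i0) * 2 ^ (a - 2) ≤ (nu b (pb i0) - 1) * 2 ^ (b - 2) := by
    obtain ⟨-, -, -, -, e1, -⟩ := sym (ha1 i0 hi0).kill (ha1 i0 hi0).near (ha2 i0 hi0) h2a
    obtain ⟨-, -, -, e2, -, e3⟩ := sym (hb1 i0 hi0).kill (hb1 i0 hi0).near (hb2 i0 hi0) h2b
    have e4 : P.x ((P.wd r q).tm (e i0)) ≤ P.x ((P.wd r q).tm (f i0)) := P.x_mono (hα i0 hi0).le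
    have e5 : 2 ^ (a + 2) ≤ 2 ^ (b - 2) := Nat.pow_le_pow_right (by norm_num) (by omega)
    have e6 : 2 ^ (a + 2) = 16 * 2 ^ (a - 2) := by
      obtain ⟨a', rfl⟩ : ∃ a', a = a' + 2 := ⟨a - 2, by omega⟩
      rw [Nat.add_sub_cancel, pow_add, pow_add]
      ring
    omega
  obtain ⟨M, hM1, hM2⟩ := alt (P := P) G (fun i => (P.wd r q).tm (e i))
    (fun i => (P.wd r q).tm (f i)) pa ga pb gb (c := (nu a (pa i0) - 1) * 2 ^ (a - 2))
    (mu := nu a (pa i0) * 2 ^ (a - 2)) (c' := (nu b (pb i0) - 1) * 2 ^ (b - 2))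
    (mu' := nu b (pb i0) * 2 ^ (b - 2)) (z := (64 * j) ^ 2) (lo := (P.wd r q).tm (e lo))
    (hi := (P.wd r q).tm (f hi)) hα hβ hlo2 hhi2 (fun i hi => (ha1 i hi).kill)
    (fun i hi => (hb1 i hi).kill) (fun i hi => (ha1 i hi).rt) (fun i hi => (hb1 i hi).rt)
    (fun i hi => (ha1 i hi).reg)
    (fun i hi => by
      obtain ⟨-, -, -, e2, -, e3⟩ := sym (ha1 i hi).kill (ha1 i hi).near (ha2 i hi) h2a
      rw [hna i hi] at e2 e3
      omega)
    (fun i hi => by
      obtain ⟨e1, e2, e3, -⟩ := sym (ha1 i hi).kill (ha1 i hi).near (ha2 i hi) h2a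
      rw [hna i hi] at e1 e2 e3
      exact ⟨e1, e2, e3⟩)
    (fun i hi => by
      obtain ⟨e1, e2, e3, -⟩ := sym (hb1 i hi).kill (hb1 i hi).near (hb2 i hi) h2b
      rw [hnb i hi] at e1 e2 e3
      exact ⟨e1, e2, e3⟩)
    hmc
    (fun i hi => by
      refine le_trans (ha1 i hi).short ?_
      rw [ha2 i hi]
      exact Nat.pow_le_pow_left h1.le 2)
  have hM3 : M ≤ 2 ^ (4 * j + 1) := by
    by_contra hcon
    push Not at hcon
    have e1 : 2 ^ (4 * j + 1) * 2 ^ (4 * j + 1) ≤ M * (M - 1) :=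
      Nat.mul_le_mul hcon.le (by omega)
    have e2 : 2 ^ (4 * j + 1) * 2 ^ (4 * j + 1) = 4 * 2 ^ (8 * j) := by
      rw [← pow_add]
      have : 4 * j + 1 + (4 * j + 1) = 8 * j + 2 := by ring
      rw [this, pow_add]
      ring
    have e3 := hwin.2
    omega
  calc G.card ≤ (3 * Nat.log 2 ((64 * j) ^ 2) + 4) * M + 1 := hM1
    _ ≤ (3 * Nat.log 2 ((64 * j) ^ 2) + 4) * 2 ^ (4 * j + 1) + 1 := by gcongr
    _ ≤ 2 ^ (5 * j) := arithR j hj

/-- MODULE N4E (size 1). `Word.recur` for the windows `Phi / 2 ^ (8 j)` (`Phi_strict`, `Phi_le`), `arith` with `N = P.m + P.n + P.th`, `f j = |E (8 j)|` (`E c = ∅` if `P.n < 2 ^ c`), `Word.card_Sc`. -/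
theorem fam_card (r q : ℕ) : ((P.wd r q).Sc 96).card ≤ P.m + (P.m + P.n + P.th) := by
  classical
  have h1 := Word.card_Sc (X := P.wd r q) (m := P.m) (fun u hu => (wd_mem hu).1) 96
  have hcl : ∀ u ∈ (P.wd r q).S, 2 ≤ (P.wd r q).cl u ∧ (P.wd r q).cl u ≤ Nat.log 2 P.n := by
    intro u hu
    refine ⟨(wd_mem hu).2.1, ?_⟩
    show Nat.log 2 P.n - u % (Nat.log 2 P.n + 1) ≤ Nat.log 2 P.n
    exact Nat.sub_le _ _
  have h2 := arith (fun j => ((P.wd r q).E (8 * j)).card) (P.m + P.n + P.th)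
    (by
      intro j hj
      rw [Finset.card_eq_zero, Finset.eq_empty_iff_forall_notMem]
      intro v hv
      unfold Word.E at hv
      rw [Finset.mem_filter] at hv
      have hv1 := hv.1
      unfold Word.Sc at hv1
      rw [Finset.mem_filter] at hv1
      obtain ⟨a1, a2⟩ := hcl v hv1.1
      have a3 := hv1.2
      have a4 : P.n ≠ 0 := by
        intro h0
        rw [h0] at a2
        simp at a2
        omega
      have a5 : 2 ^ (8 * j) ≤ 2 ^ Nat.log 2 P.n := Nat.pow_le_pow_right (by norm_num) (by omega)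
      have a6 : 2 ^ Nat.log 2 P.n ≤ P.n := Nat.pow_log_le_self 2 a4
      omega)
    (by
      intro j hj
      have hr := Word.recur (X := P.wd r q) (om := fun u => P.Phi ((P.wd r q).tm u) / 2 ^ (8 * j))
        (c0 := 8 * j) (c1 := 64 * j) (k0 := 2 ^ (5 * j))
        (W := (P.m + P.n + P.th) / 2 ^ (8 * j) + 1) (by omega) (fam_alt r q j hj)
        (by
          intro u hu v hv huv
          apply Nat.div_le_div_right
          apply Phi_strict.monotone
          rcases (P.wd r q).ord u hu v hv huv with h | h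
          · exact h.le
          · exact h.1.le)
        (by
          intro u hu
          apply Nat.lt_succ_of_le
          apply Nat.div_le_div_right
          exact Phi_le (wd_mem hu).1.le)
      have e : 8 * (8 * j) = 64 * j := by ring
      show ((P.wd r q).E (8 * j)).card ≤ ((P.m + P.n + P.th) / 2 ^ (8 * j) + 1) +
        ((P.wd r q).E (8 * (8 * j))).card + 64 * j * (((P.m + P.n + P.th) / 2 ^ (8 * j) + 1) *
          (64 * j) + (((P.m + P.n + P.th) / 2 ^ (8 * j) + 1) +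
          ((P.wd r q).E (8 * (8 * j))).card)) * (2 * 2 ^ (5 * j) + 1)
      rw [e]
      exact hr)
  have e : 8 * 12 = 96 := by norm_num
  simp only [e] at h2
  omega

end Pop

end Pool.Agent.SplDq
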