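import Pool.Agent.SplDq.Chain
import Pool.Agent.SplDq.Dead

set_option autoImplicit false

/-!
# The potential of the keys on the other side
-/

namespace Pool.Agent.SplDq

open Pool.Agent.SplLog Pool.Agent.SplLs
open scoped Classical

variable {S : Sys} {M s t u v w g p q y a b : ℕ}

/-- **P1.** A left request: every kill among the keys `≥ M` takes a key out of `Gp`. -/
theorem Gp_left (ht : t < S.m) (hx : S.X t < M) :
    (Gp S M (t + 1)).card + (S.K.filter (fun g => ∃ p, M ≤ p ∧ S.Kl t g p)).card ≤
      (Gp S M t).card := by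
  have hdis : Disjoint (Gp S M (t + 1)) (S.K.filter (fun g => ∃ p, M ≤ p ∧ S.Kl t g p)) := by
    rw [Finset.disjoint_left]
    intro v hv hv'
    simp only [Gp, Finset.mem_filter] at hv hv'
    obtain ⟨-, p, hp, hk⟩ := hv'
    have h1 := hk.2.2
    omega
  rw [← Finset.card_union_of_disjoint hdis]
  apply Finset.card_le_card
  intro v hv
  rw [Finset.mem_union] at hv
  simp only [Gp, Finset.mem_filter] at hv ⊢
  rcases hv with ⟨h1, h2, h3⟩ | ⟨h1, p, h2, h3⟩
  · refine ⟨h1, h2, ?_⟩
    by_cases hR : S.R t v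
    · have := R_lam hR
      omega
    · have := (not_R ht h1 (by omega) hR).2.1
      omega
  · have h4 := R_lam (kl_R h3)
    have h5 := kl_lt h3
    exact ⟨h1, by omega, by omega⟩

/-- the keys which enter `Gp` at a right request, other than the request -/
private theorem P2_new (ht : t < S.m) (hx : M ≤ S.X t) (hv : v ∈ S.K) (hvM : M ≤ v)
    (hne : v ≠ S.X t) (h1 : S.lam (t + 1) v < M) (h0 : M ≤ S.lam t v) :
    S.L t v ∧ S.L t (S.lam t v) ∧ S.lam t (S.lam t v) < M := by
  rcases lt_trichotomy v (S.X t) with h | h | h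
  · rcases S.left t ht v hv h with ⟨_, h3, _⟩ | ⟨h2, h3, h4⟩ | ⟨_, p, _, _, _, _, h3, _⟩
    · omega
    · rcases h4 with h4 | ⟨c1, c2, c3, c4, c5⟩
      · omega
      · have h5 := S.lam_lt t ht.le v hv
        exact ⟨⟨ht, hv, h, h2⟩, ⟨ht, c1, by omega, by omega⟩, by omega⟩
    · omega
  · exact absurd h hne
  · by_cases hR : S.R t v
    · have := (Sys.R_mono hR).2.1
      omega
    · have := (not_R ht hv h hR).2.1
      omega

/-- **P2.** A right request puts at most two keys into `Gp`. -/
theorem Gp_right (ht : t < S.m) (hx : M ≤ S.X t) : (Gp S M (t + 1)).card ≤ (Gp S M t).card + 2 := by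
  set N : Finset ℕ := (Gp S M (t + 1)) \ (Gp S M t) with hN
  have hmem : ∀ v ∈ N, v ∈ S.K ∧ M ≤ v ∧ S.lam (t + 1) v < M ∧ M ≤ S.lam t v := by
    intro v hv
    rw [hN, Finset.mem_sdiff] at hv
    simp only [Gp, Finset.mem_filter] at hv
    obtain ⟨⟨h1, h2, h3⟩, h4⟩ := hv
    refine ⟨h1, h2, h3, ?_⟩
    by_contra h5
    exact h4 ⟨h1, h2, by omega⟩
  have hone : ((N.erase (S.X t))).card ≤ 1 := by
    rw [Finset.card_le_one]
    intro a ha b hb
    rw [Finset.mem_erase] at ha hb
    obtain ⟨a1, a2, a3, a4⟩ := hmem a ha.2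
    obtain ⟨b1, b2, b3, b4⟩ := hmem b hb.2
    obtain ⟨c1, c2, c3⟩ := P2_new ht hx a1 a2 ha.1 a3 a4
    obtain ⟨d1, d2, d3⟩ := P2_new ht hx b1 b2 hb.1 b3 b4
    have key : S.lam t a = S.lam t b := by
      rcases lt_trichotomy (S.lam t a) (S.lam t b) with h | h | h
      · have := (Sys.L_above c2 d2 h).1
        omega
      · exact h
      · have := (Sys.L_above d2 c2 h).1
        omega
    rcases lt_trichotomy a b with h | h | h
    · have h6 := (Sys.L_above c1 d1 h).1
      have h7 := S.lam_lt t ht.le a a1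
      omega
    · exact h
    · have h6 := (Sys.L_above d1 c1 h).1
      have h7 := S.lam_lt t ht.le b b1
      omega
  have h2 : N.card ≤ 2 := by
    have := Finset.pred_card_le_card_erase (s := N) (a := S.X t)
    omega
  have h3 : (Gp S M (t + 1)).card ≤ (Gp S M t ∪ N).card := by
    apply Finset.card_le_card
    intro v hv
    rw [hN, Finset.mem_union, Finset.mem_sdiff]
    tauto
  have h4 := Finset.card_union_le (Gp S M t) N
  omega

/-- **P3.** Left requests touch at most `|K|` nodes on the left side. -/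
theorem sum_nL (hD : Deq S M) :
    ∑ t ∈ (Finset.range S.m).filter (fun t => S.X t < M), nL S t ≤ S.K.card := by
  have h1 : ∑ t ∈ (Finset.range S.m).filter (fun t => S.X t < M), nL S t =
      (((Finset.range S.m).filter (fun t => S.X t < M)).biUnion
        (fun t => S.K.filter (fun v => S.L t v))).card := by
    rw [Finset.card_biUnion]
    · rfl
    · intro s hs t ht hst
      rw [Finset.mem_coe, Finset.mem_filter, Finset.mem_range] at hs ht
      change Disjoint _ _
      rw [Finset.disjoint_left]
      intro v hv hv'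
      rw [Finset.mem_filter] at hv hv'
      rcases lt_or_gt_of_ne hst with h | h
      · exact dead hD hs.2 h ht.1 hv.1 hv.2.2.2.1 (Sys.L_E hv'.2)
      · exact dead hD ht.2 h hs.1 hv.1 hv'.2.2.2.1 (Sys.L_E hv.2)
  rw [h1]
  apply Finset.card_le_card
  intro v hv
  rw [Finset.mem_biUnion] at hv
  obtain ⟨t, -, h⟩ := hv
  exact (Finset.mem_filter.1 h).1

/-- **P4.** -/
theorem fU_le (hD : Deq S M) (hT : Thr S) (hM : M ≤ S.top) :
    fU S M ≤ 4 * S.K.card + 6 * S.m := by
  -- the potential
  have hpot : ∀ k, k ≤ S.m →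
      (Gp S M k).card + ∑ t ∈ (Finset.range k).filter (fun t => S.X t < M),
        (S.K.filter (fun g => ∃ p, M ≤ p ∧ S.Kl t g p)).card ≤
      (Gp S M 0).card + 2 * k := by
    intro k
    induction k with
    | zero => intro _; simp
    | succ k ih =>
      intro hk
      have h1 := ih (by omega)
      rw [Finset.range_add_one, Finset.filter_insert]
      split_ifs with hx
      · rw [Finset.sum_insert (by simp)]
        have h2 := Gp_left (S := S) (M := M) (t := k) (by omega) hx
        omega
      · have h2 := Gp_right (S := S) (M := M) (t := k) (by omega) (by omega)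
        omega
  have h0 : (Gp S M 0).card ≤ S.K.card := Finset.card_filter_le _ _
  have hk := hpot S.m le_rfl
  have hL := sum_nL hD
  unfold fU
  have hstep : ∀ t ∈ (Finset.range S.m).filter (fun t => S.X t < M),
      (S.K.filter (fun v => S.R t v ∧ M ≤ v)).card ≤
      2 * (S.K.filter (fun g => ∃ p, M ≤ p ∧ S.Kl t g p)).card + 2 * nL S t + 2 := by
    intro t ht
    rw [Finset.mem_filter, Finset.mem_range] at ht
    have h1 := chain hT t M S.top
    have e1 : (S.K.filter (fun v => S.R t v ∧ M ≤ v)).card ≤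
        (S.K.filter (fun v => S.R t v ∧ M ≤ v ∧ v < S.top)).card := by
      apply Finset.card_le_card
      intro v hv
      rw [Finset.mem_filter] at hv ⊢
      exact ⟨hv.1, hv.2.1, hv.2.2, (S.key v hv.1).2⟩
    have e2 : (S.K.filter (fun v => (S.R t v ∧ M ≤ v ∧ v < S.top) ∧ ∃ p, M ≤ p ∧ S.Kl t v p)).card ≤
        (S.K.filter (fun g => ∃ p, M ≤ p ∧ S.Kl t g p)).card := by
      apply Finset.card_le_card
      intro v hv
      rw [Finset.mem_filter] at hv ⊢
      exact ⟨hv.1, hv.2.2⟩
    have e3 : ((Tn S t).filter (fun v => M ≤ v ∧ v < S.top)).card ≤ nL S t :=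
      (Finset.card_filter_le _ _).trans (Tn_le ht.1)
    omega
  have hsum := Finset.sum_le_sum hstep
  rw [Finset.sum_add_distrib, Finset.sum_add_distrib, ← Finset.mul_sum, ← Finset.mul_sum,
    Finset.sum_const, smul_eq_mul] at hsum
  have hc : ((Finset.range S.m).filter (fun t => S.X t < M)).card ≤ S.m := by
    have := Finset.card_filter_le (Finset.range S.m) (fun t => S.X t < M)
    rwa [Finset.card_range] at this
  have _ := hM
  omega

end Pool.Agent.SplDq
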