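import Pool.Agent.SplDq.Ax
import Pool.Agent.SplDq.MirD
import Pool.Agent.SplDq.Main

set_option autoImplicit false

/-!
# Requests from both ends: the abstract structure
-/

namespace Pool.Agent.SplDq

open Pool.Agent.SplLog Pool.Agent.SplLs
open scoped Classical

/-- The structure `Pop` of the left requests. -/
noncomputable def toPop (S : Sys) (M : ℕ) (hD : Deq S M) (hM : M ≤ S.top) (hT : Thr S) : Pop where
  n := S.top
  m := S.m
  x := xl S M
  V := Vs S M
  K := Ks S M
  B := Bs S M
  io := Io S M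
  x_mono := xl_mono
  x_le := fun _ => xl_le.trans hM
  V_dom := ax_dom hD
  B_dom := ax_Bdom
  B_V := ax_BV
  K_V := ax_KV
  bur := fun t p g h hw s z => ax_bur hD t p g h hw s z
  hid := fun b g g' t h1 h2 h3 h4 h5 s h6 h7 h8 v => ax_hid hD b g g' t h1 h2 h3 h4 h5 s h6 h7 h8 v
  nest := ax_nest hD
  prev := ax_prev hD
  vis := ax_vis hD
  irr := ax_irr hT hM
  many := ax_many hT hM

private theorem TP_R {S : Sys} {t y : ℕ} (hy : y ∈ S.K) : S.mir.mir.R t y ↔ S.R t y := by
  have h1 := S.key y hy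
  have h2 : S.top - y ∈ S.mir.K := Sys.mir_mem.2 ⟨y, hy, rfl⟩
  have h3 := Sys.mir_R (t := t) h2
  have e : S.mir.top - (S.top - y) = y := Nat.sub_sub_self h1.2.le
  rw [e] at h3
  rw [h3, Sys.mir_L hy]

private theorem TP_rho {S : Sys} {t y : ℕ} (ht : t ≤ S.m) (hy : y ∈ S.K) :
    S.mir.mir.rho t y = S.rho t y := by
  have h1 := S.key y hy
  have h2 : S.top - y ∈ S.mir.K := Sys.mir_mem.2 ⟨y, hy, rfl⟩
  have h3 := Sys.mir_rho (t := t) h2
  have e : S.mir.top - (S.top - y) = y := Nat.sub_sub_self h1.2.le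
  rw [e, Sys.mir_lam hy] at h3
  rw [h3]
  exact Nat.sub_sub_self (S.rho_le_top ht hy)

private theorem TP_lam {S : Sys} {t y : ℕ} (ht : t ≤ S.m) (hy : y ∈ S.K) :
    S.mir.mir.lam t y = S.lam t y := by
  have h1 := S.key y hy
  have h2 : S.top - y ∈ S.mir.K := Sys.mir_mem.2 ⟨y, hy, rfl⟩
  have h3 := Sys.mir_lam (t := t) h2
  have e : S.mir.top - (S.top - y) = y := Nat.sub_sub_self h1.2.le
  rw [e, Sys.mir_rho hy] at h3
  rw [h3]
  exact Nat.sub_sub_self (S.lam_lt_top ht hy).le

private theorem TP_mem {S : Sys} {y : ℕ} (hy : y ∈ S.mir.mir.K) : y ∈ S.K := by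
  obtain ⟨u, hu, rfl⟩ := Sys.mir_mem.1 hy
  obtain ⟨w, hw, rfl⟩ := Sys.mir_mem.1 hu
  have h1 := S.key w hw
  have e : S.mir.top - (S.top - w) = w := Nat.sub_sub_self h1.2.le
  rw [e]
  exact hw

private theorem TP_thr {S : Sys} (h : Thr S) : Thr S.mir.mir := by
  intro t y hy hv hu hl1 hl2
  have ht : t < S.m := hy.1
  have hyK : y ∈ S.K := TP_mem hy.2.1
  have hyR : S.R t y := (TP_R hyK).1 hy
  rw [TP_rho ht.le hyK] at hv hu hl1 hl2 ⊢
  have hvK : S.rho t y ∈ S.K := TP_mem hv.2.1
  have hvR : S.R t (S.rho t y) := (TP_R hvK).1 hv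
  rw [TP_rho ht.le hvK] at hu hl2 ⊢
  have huK : S.rho t (S.rho t y) ∈ S.K := TP_mem hu.2.1
  have huR : S.R t (S.rho t (S.rho t y)) := (TP_R huK).1 hu
  rw [TP_lam ht.le hvK, TP_lam ht.le hyK] at hl1
  rw [TP_lam ht.le huK, TP_lam ht.le hyK] at hl2
  have hx : S.mir.mir.X t = S.X t := Nat.sub_sub_self (S.key _ (S.req t ht)).2.le
  rcases h t y hyR hvR huR hl1 hl2 with k | k
  · left
    refine ⟨hv, ?_, ?_⟩
    · rw [hx]
      exact k.2.1
    · rw [TP_lam ht hvK]
      exact k.2.2
  · right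
    refine ⟨hu, ?_, ?_⟩
    · rw [hx]
      exact k.2.1
    · rw [TP_lam ht huK]
      exact k.2.2

private theorem TP_card {S : Sys} : S.mir.K.card = S.K.card := by
  change (S.K.image (fun v => S.top - v)).card = _
  apply Finset.card_image_of_injOn
  intro u hu u' hu' he
  have h1 := S.key u hu
  have h2 := S.key u' hu'
  simp only at he
  omega

/-- **Q1.** -/
theorem fR_le : ∃ C : ℕ, ∀ (S : Sys) (M : ℕ), Deq S M → M ≤ S.top → Thr S → Thr S.mir →
    S.top ≤ S.K.card + 1 → fR S M ≤ C * (S.K.card + S.m) := by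
  obtain ⟨C, hC⟩ := pop_main
  refine ⟨18 * C + 18, ?_⟩
  intro S M hD hM hT hT' htop
  rcases Nat.eq_zero_or_pos S.m with hm | hm
  · have h : fR S M = 0 := by
      unfold fR
      rw [hm]
      simp
    rw [h]
    exact Nat.zero_le _
  rcases Nat.eq_zero_or_pos M with hM0 | hM0
  · have h : fR S M = 0 := by
      unfold fR
      rw [hM0]
      simp
    rw [h]
    exact Nat.zero_le _
  have h1 := hC (toPop S M hD hM hT)
  have hth : (toPop S M hD hM hT).th ≤ 4 * S.K.card + 6 * S.m := by
    have h2 : (toPop S M hD hM hT).th ≤ fU S.mir (S.top + 1 - M) := touch_le hM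
    have h3 := fU_le (hD.mir hM) hT' (show S.top + 1 - M ≤ S.top by omega)
    rw [TP_card] at h3
    exact h2.trans h3
  have hio : ∑ t ∈ Finset.range S.m, Io S M t ≤ 4 * S.K.card := by
    have h2 : ∑ t ∈ Finset.range S.m, Io S M t =
        ∑ t ∈ (Finset.range S.m).filter (fun t => S.X t < M), 4 * nL S t := by
      rw [Finset.sum_filter]
      apply Finset.sum_congr rfl
      intro t ht
      rw [Finset.mem_range] at ht
      unfold Io
      by_cases hx : S.X t < M
      · rw [if_pos ⟨ht, hx⟩, if_pos hx]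
      · rw [if_neg (fun k => hx k.2), if_neg hx]
    rw [h2, ← Finset.mul_sum]
    exact Nat.mul_le_mul_left _ (sum_nL hD)
  have hiota : (toPop S M hD hM hT).iota = ∑ t ∈ Finset.range S.m, Io S M t := rfl
  have hN : (toPop S M hD hM hT).N = ∑ t ∈ Finset.range S.m,
      ((Finset.range (S.top + 1)).filter (fun g => ∃ p, Ks S M t p g)).card := by
    change (((Finset.range S.m) ×ˢ (Finset.range (S.top + 1))).filter
      (fun q => ∃ p, Ks S M q.1 p q.2)).card = _
    rw [← Finset.card_sigma]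
    apply Finset.card_bij (fun q _ => (⟨q.1, q.2⟩ : Σ _ : ℕ, ℕ))
    · intro q hq
      rw [Finset.mem_filter, Finset.mem_product] at hq
      rw [Finset.mem_sigma, Finset.mem_filter]
      exact ⟨hq.1.1, hq.1.2, hq.2⟩
    · intro q _ q' _ he
      simp only [Sigma.mk.injEq, heq_eq_eq] at he
      exact Prod.ext he.1 he.2
    · intro q hq
      rw [Finset.mem_sigma, Finset.mem_filter] at hq
      exact ⟨(q.1, q.2), Finset.mem_filter.2 ⟨Finset.mem_product.2 ⟨hq.1, hq.2.1⟩, hq.2.2⟩, rfl⟩
  have hsplit : fR S M ≤ ∑ t ∈ (Finset.range S.m).filter (fun t => S.X t < M),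
      (S.K.filter (fun v => S.R t v ∧ v < M)).card + fU S M := by
    unfold fR fU
    rw [← Finset.sum_add_distrib]
    apply Finset.sum_le_sum
    intro t _
    refine le_trans (Finset.card_le_card ?_) (Finset.card_union_le _ _)
    intro v hv
    rw [Finset.mem_filter] at hv
    rw [Finset.mem_union, Finset.mem_filter, Finset.mem_filter]
    rcases Nat.lt_or_ge v M with h | h
    · exact Or.inl ⟨hv.1, hv.2, h⟩
    · exact Or.inr ⟨hv.1, hv.2, h⟩
  have hmany : ∑ t ∈ (Finset.range S.m).filter (fun t => S.X t < M),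
      (S.K.filter (fun v => S.R t v ∧ v < M)).card ≤
      ∑ t ∈ Finset.range S.m,
        (2 * ((Finset.range (S.top + 1)).filter (fun g => ∃ p, Ks S M t p g)).card + 4 +
          Io S M t) := by
    refine le_trans (Finset.sum_le_sum_of_subset (Finset.filter_subset _ _)) ?_
    apply Finset.sum_le_sum
    intro t ht
    rw [Finset.mem_range] at ht
    refine le_trans (Finset.card_le_card ?_) (ax_many hT hM t ht)
    intro v hv
    rw [Finset.mem_filter] at hv
    rw [Finset.mem_filter, Finset.mem_range]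
    have := S.key v hv.1
    exact ⟨by omega, hv.2⟩
  rw [Finset.sum_add_distrib, Finset.sum_add_distrib, ← Finset.mul_sum, Finset.sum_const,
    Finset.card_range, smul_eq_mul] at hmany
  rw [← hN] at hmany
  have hfU := fU_le hD hT hM
  have hn : (toPop S M hD hM hT).n = S.top := rfl
  have hm' : (toPop S M hD hM hT).m = S.m := rfl
  rw [hn, hm', hiota] at h1
  have h5 : (toPop S M hD hM hT).N ≤ C * (9 * S.K.card + 8 * S.m) :=
    h1.trans (Nat.mul_le_mul_left _ (by omega))
  have h6 : C * (9 * S.K.card + 8 * S.m) ≤ 9 * (C * (S.K.card + S.m)) := by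
    calc C * (9 * S.K.card + 8 * S.m) ≤ C * (9 * (S.K.card + S.m)) :=
          Nat.mul_le_mul_left _ (by omega)
      _ = 9 * (C * (S.K.card + S.m)) := by ring
  have h7 : (18 * C + 18) * (S.K.card + S.m) =
      18 * (C * (S.K.card + S.m)) + 18 * (S.K.card + S.m) := by ring
  rw [h7]
  omega

/-- **Q2.** -/
theorem cost_le : ∃ C : ℕ, ∀ (S : Sys) (M : ℕ), Deq S M → M ≤ S.top → Thr S → Thr S.mir →
    S.top ≤ S.K.card + 1 →
    ∑ t ∈ Finset.range S.m, (S.K.filter (fun v => v ≠ S.X t ∧ S.E t v)).card ≤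
      C * (S.K.card + S.m) := by
  obtain ⟨C, hC⟩ := fR_le
  refine ⟨2 * C + 2, ?_⟩
  intro S M hD hM hT hT' htop
  have h1 := cost_split hD hM
  have h2 := hC S M hD hM hT hT' htop
  have h3 : fR S.mir (S.top + 1 - M) ≤ C * (S.K.card + S.m) := by
    have htop' : S.mir.top ≤ S.mir.K.card + 1 := by
      rw [TP_card]
      exact htop
    have hD' := hD.mir hM
    rcases Nat.eq_zero_or_pos M with hM0 | hM0
    · have hlt : ∀ t, t < S.m → S.mir.X t < S.top := by
        intro t ht
        exact (S.mir.key _ (S.mir.req t ht)).2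
      have hD2 : Deq S.mir S.top := by
        constructor
        · intro i j hij hj hi
          exact hD'.left i j hij hj (by omega)
        · intro i j hij hj hi
          have := hlt i (lt_of_le_of_lt hij hj)
          omega
      have e : fR S.mir (S.top + 1 - M) = fR S.mir S.top := by
        unfold fR
        congr 1
        apply Finset.filter_congr
        intro t ht
        have := hlt t (Finset.mem_range.1 ht)
        rw [hM0]
        omega
      rw [e]
      have h4 := hC S.mir S.top hD2 (le_refl _) hT' (TP_thr hT) htop'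
      rw [TP_card] at h4
      exact h4
    · have h4 := hC S.mir (S.top + 1 - M) hD' (show S.top + 1 - M ≤ S.top by omega) hT'
        (TP_thr hT) htop'
      rw [TP_card] at h4
      exact h4
  have h5 : (2 * C + 2) * (S.K.card + S.m) =
      2 * (C * (S.K.card + S.m)) + 2 * (S.K.card + S.m) := by ring
  rw [h5]
  omega

end Pool.Agent.SplDq
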